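import Mathlib

/-!
# Palindromic width of free nilpotent groups: upper and lower bounds

Upper bounds: palindromes are the elements inverted by the automorphism that inverts the free
generators; a collecting argument modulo the third term of the lower central series followed by
a lifting argument. Lower bounds: evaluation in groups generated by involutions (the dihedral group
of order eight and its wreath product with a group of order two).
-/

namespace Pool.Agent.Helper39.PalNil

section PU1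

open Subgroup
open scoped commutatorElement

universe u

/-- terms of the lower central series, `lc F 0 = ⊤`. -/
abbrev lc (F : Type u) [Group F] (k : ℕ) : Subgroup F := (⊤ : Subgroup F).lowerCentralSeries k

section lcs
variable {F : Type u} [Group F]

lemma comm_mem {k : ℕ} {a b : F} (ha : a ∈ lc F k) : ⁅a, b⁆ ∈ lc F (k + 1) :=
  Subgroup.commutator_mem_commutator ha (Subgroup.mem_top b)

lemma comm_mem' {k : ℕ} {a b : F} (ha : a ∈ lc F k) : ⁅b, a⁆ ∈ lc F (k + 1) := by
  rw [← commutatorElement_inv]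
  exact inv_mem (comm_mem ha)

lemma mk_commute {k : ℕ} {z : F} (hz : z ∈ lc F k) (q : F ⧸ lc F (k + 1)) :
    Commute (z : F ⧸ lc F (k + 1)) q := by
  induction q using QuotientGroup.induction_on with
  | H f =>
    rw [← commutatorElement_eq_one_iff_commute]
    have : ⁅(z : F ⧸ lc F (k + 1)), (f : F ⧸ lc F (k + 1))⁆ = ((⁅z, f⁆ : F) : F ⧸ lc F (k + 1)) := rfl
    rw [this, QuotientGroup.eq_one_iff]
    exact comm_mem hz

lemma lc_antitone {j k : ℕ} (h : j ≤ k) : lc F k ≤ lc F j :=
  (⊤ : Subgroup F).lowerCentralSeries_antitone h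

lemma comm_one_mem {m : ℕ} {a b : F} (ha : a ∈ lc F 1) (hb : b ∈ lc F m) :
    ⁅a, b⁆ ∈ lc F (m + 2) := by
  have key : ⁅⁅(⊤ : Subgroup F), (⊤ : Subgroup F)⁆, lc F m⁆ ≤ lc F (m + 2) := by
    set π := QuotientGroup.mk' (lc F (m + 2)) with hπ
    have h1 : ⁅⁅(⊤ : Subgroup F).map π, (lc F m).map π⁆, (⊤ : Subgroup F).map π⁆ = ⊥ := by
      rw [← Subgroup.map_commutator, ← Subgroup.map_commutator, Subgroup.map_eq_bot_iff,
        QuotientGroup.ker_mk']
      rw [Subgroup.commutator_comm (⊤ : Subgroup F) (lc F m)]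
      exact le_rfl
    have h2 : ⁅⁅(lc F m).map π, (⊤ : Subgroup F).map π⁆, (⊤ : Subgroup F).map π⁆ = ⊥ := by
      rw [← Subgroup.map_commutator, ← Subgroup.map_commutator, Subgroup.map_eq_bot_iff,
        QuotientGroup.ker_mk']
      exact le_rfl
    have h3 := Subgroup.commutator_commutator_eq_bot_of_rotate h1 h2
    rw [← Subgroup.map_commutator, ← Subgroup.map_commutator, Subgroup.map_eq_bot_iff,
        QuotientGroup.ker_mk'] at h3
    exact h3
  exact key (Subgroup.commutator_mem_commutator ha hb)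

end lcs

section central
variable {Q : Type u} [Group Q]

lemma cmul_left {a b c : Q} (h : ∀ q : Q, Commute ⁅b, c⁆ q) : ⁅a * b, c⁆ = ⁅a, c⁆ * ⁅b, c⁆ := by
  rw [commutatorElement_mul_left_eq_conj_mul, ← (h a).eq, mul_inv_cancel_right]
  exact (h _).eq

lemma cmul_right {a b c : Q} (h : ∀ q : Q, Commute ⁅a, c⁆ q) : ⁅a, b * c⁆ = ⁅a, b⁆ * ⁅a, c⁆ := by
  rw [commutatorElement_mul_right_eq_mul_conj, mul_assoc ⁅a, b⁆ b, ← (h b).eq, ← mul_assoc,
    mul_inv_cancel_right]

lemma cinv_left {a c : Q} (h : ∀ q : Q, Commute ⁅a, c⁆ q) : ⁅a⁻¹, c⁆ = ⁅a, c⁆⁻¹ := by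
  rw [commutatorElement_inv_left, ← commutatorElement_inv a c, ← ((h a⁻¹).inv_left).eq,
    inv_mul_cancel_right]

lemma cinv_right {a c : Q} (h : ∀ q : Q, Commute ⁅a, c⁆ q) : ⁅a, c⁻¹⁆ = ⁅a, c⁆⁻¹ := by
  rw [commutatorElement_inv_right, ← commutatorElement_inv a c, ← ((h c⁻¹).inv_left).eq,
    inv_mul_cancel_right]

end central


section peel
variable {F : Type u} [Group F] {Q : Type u} [Group Q]

lemma peel (π : F →* Q) (hc : ∀ a b c : Q, Commute ⁅a, b⁆ c) (x : F) (S : Set F) (g : F)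
    (hg : g ∈ closure (insert x S)) :
    ∃ v : ℤ, ∃ w ∈ closure S, ∃ g₁ ∈ closure S, π g = π x ^ v * ⁅π x, π w⁆ * π g₁ := by
  induction hg using Subgroup.closure_induction_right with
  | one => exact ⟨0, 1, one_mem _, 1, one_mem _, by simp⟩
  | mul_right g hg s hs ih =>
    obtain ⟨v, w, hw, g₁, hg₁, e⟩ := ih
    rcases hs with rfl | hs
    · refine ⟨v + 1, w * g₁⁻¹, mul_mem hw (inv_mem hg₁), g₁, hg₁, ?_⟩
      rw [map_mul, e, map_mul, map_inv,
        cmul_right (fun q => hc _ _ q), cinv_right (fun q => hc _ _ q), zpow_add, zpow_one]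
      set X := π s
      set G := π g₁
      set W := π w
      have h1 : G * X = ⁅X, G⁆⁻¹ * (X * G) := by simp [commutatorElement_def, mul_assoc]
      have h2 : Commute ⁅X, W⁆ X := hc _ _ _
      have h4 : Commute ⁅X, G⁆ X := hc _ _ _
      rw [mul_assoc _ G X, h1]
      have h5 : Commute ⁅X, G⁆⁻¹ X := h4.inv_left
      calc X ^ v * ⁅X, W⁆ * (⁅X, G⁆⁻¹ * (X * G)) = X ^ v * ⁅X, W⁆ * (⁅X, G⁆⁻¹ * X) * G := by group
        _ = X ^ v * ⁅X, W⁆ * (X * ⁅X, G⁆⁻¹) * G := by rw [h5.eq]
        _ = X ^ v * (⁅X, W⁆ * X) * ⁅X, G⁆⁻¹ * G := by group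
        _ = X ^ v * (X * ⁅X, W⁆) * ⁅X, G⁆⁻¹ * G := by rw [h2.eq]
        _ = _ := by group
    · refine ⟨v, w, hw, g₁ * s, mul_mem hg₁ (subset_closure hs), ?_⟩
      rw [map_mul, e, map_mul, mul_assoc]
  | mul_inv_cancel g hg s hs ih =>
    obtain ⟨v, w, hw, g₁, hg₁, e⟩ := ih
    rcases hs with rfl | hs
    · refine ⟨v - 1, w * g₁, mul_mem hw hg₁, g₁, hg₁, ?_⟩
      rw [map_mul, e, map_mul, map_inv, cmul_right (fun q => hc _ _ q), zpow_sub, zpow_one]
      set X := π s
      set G := π g₁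
      set W := π w
      have h1 : G * X⁻¹ = X⁻¹ * ⁅X, G⁆ * G := by simp [commutatorElement_def, mul_assoc]
      have h2 : Commute ⁅X, W⁆ X⁻¹ := hc _ _ _
      rw [mul_assoc _ G X⁻¹, h1]
      calc X ^ v * ⁅X, W⁆ * (X⁻¹ * ⁅X, G⁆ * G) = X ^ v * (⁅X, W⁆ * X⁻¹) * ⁅X, G⁆ * G := by group
        _ = X ^ v * (X⁻¹ * ⁅X, W⁆) * ⁅X, G⁆ * G := by rw [h2.eq]
        _ = _ := by group
    · refine ⟨v, w, hw, g₁ * s⁻¹, mul_mem hg₁ (inv_mem (subset_closure hs)), ?_⟩
      rw [map_mul, e, map_mul, mul_assoc]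

end peel

end PU1

section PU2

open Subgroup
open scoped commutatorElement

universe u

section base
variable {F : Type u} [Group F] {Q : Type u} [Group Q]

/-- `p` is inverted by `σ`. For the automorphism `σ` inverting the free generators this says that
`p` is a palindrome. -/
def Pal (σ : F →* F) (p : F) : Prop := σ p = p⁻¹

lemma Pal.twist {σ : F →* F} (hσ : ∀ g, σ (σ g) = g) {p : F} (k : F) (hp : Pal σ p) :
    Pal σ ((σ k)⁻¹ * p * k) := by
  unfold Pal at *
  simp [hσ, hp, mul_assoc]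

lemma Pal.twist' {σ : F →* F} (hσ : ∀ g, σ (σ g) = g) {p : F} (k : F) (hp : Pal σ p) :
    Pal σ (k⁻¹ * p * σ k) := by
  unfold Pal at *
  simp [hσ, hp, mul_assoc]

lemma Pal.zpow {σ : F →* F} {p : F} (k : ℤ) (hp : Pal σ p) : Pal σ (p ^ k) := by
  unfold Pal at *
  rw [map_zpow, hp, inv_zpow]

lemma σ_mem {σ : F →* F} {S : Set F} (hS : ∀ s ∈ S, σ s = s⁻¹) {u : F} (hu : u ∈ closure S) :
    σ u ∈ closure S := by
  induction hu using Subgroup.closure_induction with
  | mem x hx => rw [hS x hx]; exact inv_mem (subset_closure hx)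
  | one => simp
  | mul x y hx hy h1 h2 => rw [map_mul]; exact mul_mem h1 h2
  | inv x hx h => rw [map_inv]; exact inv_mem h

lemma σ_comm {σ : F →* F} {S : Set F} (hS : ∀ s ∈ S, σ s = s⁻¹) (π : F →* Q)
    (hc : ∀ a b c : Q, Commute ⁅a, b⁆ c) (x : Q) {u : F} (hu : u ∈ closure S) :
    ⁅π (σ u), x⁆ = ⁅π u, x⁆⁻¹ := by
  induction hu using Subgroup.closure_induction with
  | mem s hs => rw [hS s hs, map_inv, cinv_left (fun q => hc _ _ q)]
  | one => simp
  | mul s t hs ht h1 h2 =>
    rw [map_mul, map_mul, map_mul, cmul_left (fun q => hc _ _ q), cmul_left (fun q => hc _ _ q),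
      h1, h2, mul_inv_rev]
    exact ((hc _ _ _).inv_left.inv_right).eq
  | inv s hs h => 
    rw [map_inv, map_inv, map_inv, cinv_left (fun q => hc _ _ q), cinv_left (fun q => hc _ _ q), h]

lemma σ_ab {σ : F →* F} {S : Set F} (hS : ∀ s ∈ S, σ s = s⁻¹) {A : Type u} [CommGroup A]
    (φ : F →* A) {u : F} (hu : u ∈ closure S) : φ (σ u) = (φ u)⁻¹ := by
  induction hu using Subgroup.closure_induction with
  | mem s hs => rw [hS s hs, map_inv]
  | one => simp
  | mul s t hs ht h1 h2 => rw [map_mul, map_mul, map_mul, h1, h2, mul_inv]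
  | inv s hs h => rw [map_inv, map_inv, map_inv, h]

/-- first spanning property of a list of palindromes -/
def Span1 (xs : List F) (y : F) (l : List F) : Prop :=
  ∀ {A : Type u} [CommGroup A] (φ : F →* A), φ y = 1 →
    List.IsChain (fun p q => φ p * φ q = 1) l → ∀ x ∈ xs, φ x = 1

/-- second spanning property (modulo squares) -/
def Span2 (xs : List F) (y : F) (ν : ℤ) (l : List F) : Prop :=
  ∀ {A : Type u} [CommGroup A] (φ : F →* A), (∀ a : A, a * a = 1) →
    List.IsChain (fun p q => φ p * φ q = 1) l →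
      (∀ x ∈ xs, φ x * φ y ^ ν = 1) ∧ ∀ p ∈ l.head?, φ p * φ y ^ ν = 1

theorem base (σ : F →* F) (hσ : ∀ g, σ (σ g) = g) (π : F →* Q)
    (hc : ∀ a b c : Q, Commute ⁅a, b⁆ c) (y : F) (hy : σ y = y⁻¹) (xs : List F)
    (hxs : ∀ x ∈ xs, σ x = x⁻¹) (g : F) (hg : g ∈ closure (insert y {x | x ∈ xs})) :
    ∃ (l : List F) (ν : ℤ), l.length = 2 * xs.length ∧
      (∀ p ∈ l, Pal σ p ∧ p ∈ closure (insert y {x | x ∈ xs})) ∧
      π (l ++ [y ^ ν]).prod = π g ∧ Span1 xs y (l ++ [y ^ ν]) ∧ Span2 xs y ν (l ++ [y ^ ν]) := by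
  induction xs generalizing g with
  | nil =>
    have : g ∈ closure ({y} : Set F) := by simpa using hg
    obtain ⟨ν, rfl⟩ := Subgroup.mem_closure_singleton.1 this
    refine ⟨[], ν, rfl, by simp, by simp, ?_, ?_⟩
    · intro A _ φ hy hch x hx
      simp at hx
    · intro A _ φ h2 hch
      refine ⟨by simp, ?_⟩
      intro p hp
      simp only [List.nil_append, List.head?_cons, Option.mem_def, Option.some.injEq] at hp
      subst hp
      rw [map_zpow]
      exact h2 _
  | cons x xs ih =>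
    have hS : ∀ s ∈ insert y {x | x ∈ xs}, σ s = s⁻¹ := by
      rintro s (rfl | hs)
      · exact hy
      · exact hxs s (List.mem_cons_of_mem _ hs)
    have hx : σ x = x⁻¹ := hxs x List.mem_cons_self
    have e : (insert y {z | z ∈ x :: xs} : Set F) = insert x (insert y {z | z ∈ xs}) := by
      ext z; simp; tauto
    rw [e] at hg
    obtain ⟨v, w, hw, g₁, hg₁, hgg⟩ := peel π hc x _ g hg
    set u := w⁻¹ with hu
    have huc : u ∈ closure (insert y {z | z ∈ xs}) := inv_mem hw
    have hσu := σ_mem hS huc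
    obtain ⟨l, ν, hl, hlp, hprod, hs1, hs2⟩ :=
      ih (fun z hz => hxs z (List.mem_cons_of_mem _ hz)) (((σ u)⁻¹ * u)⁻¹ * g₁)
        (mul_mem (inv_mem (mul_mem (inv_mem hσu) huc)) hg₁)
    have hmono : closure (insert y {z | z ∈ xs}) ≤ closure (insert y {z | z ∈ x :: xs}) := by
      rw [e]; exact closure_mono (Set.subset_insert _ _)
    have hxm : x ∈ closure (insert y {z | z ∈ x :: xs}) := by
      rw [e]; exact subset_closure (Set.mem_insert _ _)
    refine ⟨x ^ (v - 1) :: ((σ u)⁻¹ * x * u) :: l, ν, by simp [hl]; ring, ?_, ?_, ?_, ?_⟩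
    · intro p hp
      rcases List.mem_cons.1 hp with rfl | hp
      · exact ⟨Pal.zpow _ hx, zpow_mem hxm _⟩
      rcases List.mem_cons.1 hp with rfl | hp
      · exact ⟨Pal.twist hσ u hx, mul_mem (mul_mem (inv_mem (hmono hσu)) hxm) (hmono huc)⟩
      · exact ⟨(hlp p hp).1, hmono (hlp p hp).2⟩
    · rw [List.cons_append, List.cons_append, List.prod_cons, List.prod_cons, map_mul, map_mul,
        hprod, hgg]
      have h1 := σ_comm hS π hc (π x) huc
      simp only [map_mul, map_inv, mul_inv_rev, inv_inv, map_zpow, zpow_sub_one]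
      set X := π x
      set U := π u
      set V := π (σ u)
      have hW : π w = U⁻¹ := by rw [← map_inv, hu, inv_inv]
      rw [hW]
      have h2 : ⁅X, U⁻¹⁆ = X⁻¹ * V⁻¹ * X * V := by
        have h3 : X⁻¹ * V⁻¹ * X * V = ⁅X⁻¹, V⁻¹⁆ := by simp [commutatorElement_def]
        rw [h3, cinv_left (fun q => hc _ _ q), cinv_right (fun q => hc _ _ q),
          cinv_right (fun q => hc _ _ q), inv_inv, commutatorElement_inv, ← commutatorElement_inv V X,
          h1, inv_inv]
      rw [h2]
      group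
    · intro A _ φ hy1 hch z hz
      rw [List.cons_append, List.cons_append, List.isChain_cons_cons] at hch
      obtain ⟨hc1, hch⟩ := hch
      have hch' : List.IsChain (fun p q => φ p * φ q = 1) (l ++ [y ^ ν]) := hch.tail
      have hxs1 := hs1 φ hy1 hch'
      have hker : ∀ t ∈ closure (insert y {z | z ∈ xs}), φ t = 1 := by
        intro t ht
        have : closure (insert y {z | z ∈ xs}) ≤ φ.ker := by
          rw [closure_le]
          rintro s (rfl | hs)
          · exact hy1
          · exact hxs1 s hs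
        exact this ht
      rcases List.mem_cons.1 hz with rfl | hz
      · -- the head of the rest is killed
        have hb : φ ((σ u)⁻¹ * z * u) = 1 := by
          cases l with
          | nil =>
            rw [List.nil_append, List.isChain_pair] at hch
            rw [← hch, map_zpow, hy1, one_zpow, mul_one]
          | cons a t =>
            rw [List.cons_append, List.isChain_cons_cons] at hch
            have ha : φ a = 1 := hker a (hlp a List.mem_cons_self).2
            rw [← hch.1, ha, mul_one]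
        rw [map_mul, map_mul, map_inv, hker _ hσu, hker _ huc, inv_one, one_mul, mul_one] at hb
        exact hb
      · exact hxs1 z hz
    · intro A _ φ h2 hch
      rw [List.cons_append, List.cons_append, List.isChain_cons_cons] at hch
      obtain ⟨hc1, hch⟩ := hch
      have hch' : List.IsChain (fun p q => φ p * φ q = 1) (l ++ [y ^ ν]) := hch.tail
      obtain ⟨hxs1, hhd⟩ := hs2 φ h2 hch'
      have hinv : ∀ a : A, a⁻¹ = a := fun a => inv_eq_of_mul_eq_one_left (h2 a)
      have hb : φ ((σ u)⁻¹ * x * u) * φ y ^ ν = 1 := by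
        cases l with
        | nil =>
          rw [List.nil_append, List.isChain_pair] at hch
          rw [← map_zpow]; exact hch
        | cons a t =>
          rw [List.cons_append, List.isChain_cons_cons] at hch
          have ha : φ a * φ y ^ ν = 1 := hhd a (by simp)
          have h4 := hch.1
          have : φ ((σ u)⁻¹ * x * u) = φ a := by
            rw [← hinv (φ a)]; exact eq_inv_of_mul_eq_one_left h4
          rw [this, ha]
      have hb' : φ ((σ u)⁻¹ * x * u) = φ x := by
        rw [map_mul, map_mul, map_inv, σ_ab hS φ huc, inv_inv, mul_right_comm, h2, one_mul]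
      refine ⟨?_, ?_⟩
      · intro z hz
        rcases List.mem_cons.1 hz with rfl | hz
        · rw [← hb', hb]
        · exact hxs1 z hz
      · intro p hp
        simp only [List.cons_append, List.head?_cons, Option.mem_def, Option.some.injEq] at hp
        subst hp
        have : φ (x ^ (v - 1)) = φ ((σ u)⁻¹ * x * u) := by
          rw [← hinv (φ ((σ u)⁻¹ * x * u))]; exact eq_inv_of_mul_eq_one_left hc1
        rw [this, hb]

end base

end PU2

section PU3

open Subgroup
open scoped commutatorElement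

universe u

section lift
variable {F : Type u} [Group F] {Q : Type u} [Group Q]

/-- `l` consists of palindromes congruent, entry by entry, to those of `l₀` modulo `[F,F]`. -/
def Sim (σ : F →* F) (l₀ l : List F) : Prop :=
  List.Forall₂ (fun p q => p⁻¹ * q ∈ lc F 1) l₀ l ∧ ∀ q ∈ l, Pal σ q

/-- multiplication by `z` can be achieved modulo `ker π` by changing the palindromes in their
classes modulo `[F,F]`. -/
def Good (σ : F →* F) (π : F →* Q) (l₀ : List F) (z : F) : Prop :=
  ∀ l, Sim σ l₀ l → ∃ l', Sim σ l₀ l' ∧ π l'.prod = π l.prod * π z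

lemma Good.one {σ : F →* F} {π : F →* Q} {l₀ : List F} : Good σ π l₀ 1 :=
  fun l hl => ⟨l, hl, by simp⟩

lemma Good.mul {σ : F →* F} {π : F →* Q} {l₀ : List F} {a b : F} (ha : Good σ π l₀ a)
    (hb : Good σ π l₀ b) : Good σ π l₀ (a * b) := by
  intro l hl
  obtain ⟨l', hl', e'⟩ := ha l hl
  obtain ⟨l'', hl'', e''⟩ := hb l' hl'
  exact ⟨l'', hl'', by rw [e'', e', map_mul, mul_assoc]⟩

lemma Good.congr {σ : F →* F} {π : F →* Q} {l₀ : List F} {a b : F} (ha : Good σ π l₀ a)
    (h : π a = π b) : Good σ π l₀ b := by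
  intro l hl
  obtain ⟨l', hl', e'⟩ := ha l hl
  exact ⟨l', hl', by rw [e', h]⟩

lemma central_of {m : ℕ} {π : F →* Q} (hs : Function.Surjective π) (hk : lc F (m + 1) ≤ π.ker)
    {z : F} (hz : z ∈ lc F m) (q : Q) : Commute (π z) q := by
  obtain ⟨f, rfl⟩ := hs q
  rw [← commutatorElement_eq_one_iff_commute, ← map_commutatorElement]
  exact hk (comm_mem hz)

lemma central_comm {m : ℕ} {π : F →* Q} (hs : Function.Surjective π) (hk : lc F (m + 2) ≤ π.ker)
    {k : F} (hkm : k ∈ lc F m) (a : F) (q : Q) : Commute ⁅π a, π k⁆ q := by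
  rw [← map_commutatorElement]
  exact central_of hs hk (comm_mem' hkm) q

lemma central_comm' {m : ℕ} {π : F →* Q} (hs : Function.Surjective π) (hk : lc F (m + 2) ≤ π.ker)
    {k : F} (hkm : k ∈ lc F m) (a : F) (q : Q) : Commute ⁅π k, π a⁆ q := by
  rw [← map_commutatorElement]
  exact central_of hs hk (comm_mem hkm) q

/-- commutators with `k ∈ γ_m` only depend on the class modulo `[F,F]` -/
lemma comm_congr {m : ℕ} {π : F →* Q} (hs : Function.Surjective π) (hk : lc F (m + 2) ≤ π.ker)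
    {k : F} (hkm : k ∈ lc F m) {a b : F} (hab : a⁻¹ * b ∈ lc F 1) : ⁅π a, π k⁆ = ⁅π b, π k⁆ := by
  have h1 : b = a * (a⁻¹ * b) := by group
  have h2 : ⁅π (a⁻¹ * b), π k⁆ = 1 := by
    rw [← map_commutatorElement]
    exact hk (comm_one_mem hab hkm)
  conv_rhs => rw [h1, map_mul, cmul_left (fun q => central_comm hs hk hkm _ q), h2, mul_one]

lemma σ_lc {σ : F →* F} {m : ℕ} {k : F} (hk : k ∈ lc F m) : σ k ∈ lc F m := by
  have : (lc F m).map σ ≤ lc F m := by
    rw [Subgroup.map_lowerCentralSeries]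
    have hmono : ∀ (A B : Subgroup F), A ≤ B → ∀ n, A.lowerCentralSeries n ≤ B.lowerCentralSeries n := by
      intro A B hAB n
      induction n with
      | zero => exact hAB
      | succ n ih => exact Subgroup.commutator_mono ih hAB
    exact hmono _ _ le_top _
  exact this (Subgroup.mem_map_of_mem σ hk)

lemma mem_conj_lc {m : ℕ} {k : F} (hk : k ∈ lc F m) (a : F) : a⁻¹ * k * a ∈ lc F m := by
  have := (inferInstance : (lc F m).Normal).conj_mem k hk a⁻¹
  simpa using this

lemma pair_move {σ : F →* F} (hσ : ∀ g, σ (σ g) = g) {m : ℕ} (hm : 1 ≤ m) {π : F →* Q}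
    (hs : Function.Surjective π) (hk : lc F (m + 2) ≤ π.ker) {k : F} (hkm : k ∈ lc F m)
    (p₀ q₀ : F) (A B : List F) : Good σ π (A ++ p₀ :: q₀ :: B) ⁅(p₀ * q₀)⁻¹, k⁻¹⁆ := by
  have hk1 : k ∈ lc F 1 := lc_antitone hm hkm
  have hσk1 : σ k ∈ lc F 1 := σ_lc hk1
  have hkinv : k⁻¹ ∈ lc F m := inv_mem hkm
  induction A with
  | nil =>
    rintro l ⟨hl, hlp⟩
    rw [List.nil_append] at hl
    cases hl with
    | @cons _ p _ l' h1 hl' =>
    cases hl' with
    | @cons _ q _ B' h2 hB =>
    refine ⟨(k⁻¹ * p * σ k) :: ((σ k)⁻¹ * q * k) :: B', ⟨?_, ?_⟩, ?_⟩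
    · refine List.Forall₂.cons ?_ (List.Forall₂.cons ?_ hB)
      · have : p₀⁻¹ * (k⁻¹ * p * σ k) = (p₀⁻¹ * p) * (p⁻¹ * k⁻¹ * p) * σ k := by group
        rw [this]
        exact mul_mem (mul_mem h1 (mem_conj_lc (inv_mem hk1) p)) hσk1
      · have : q₀⁻¹ * ((σ k)⁻¹ * q * k) = (q₀⁻¹ * q) * (q⁻¹ * (σ k)⁻¹ * q) * k := by group
        rw [this]
        exact mul_mem (mul_mem h2 (mem_conj_lc (inv_mem hσk1) q)) hk1
    · intro z hz
      rcases List.mem_cons.1 hz with rfl | hz
      · exact Pal.twist' hσ k (hlp p (by simp))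
      rcases List.mem_cons.1 hz with rfl | hz
      · exact Pal.twist hσ k (hlp q (by simp))
      · exact hlp z (by simp [hz])
    · have h3 : (p * q)⁻¹⁻¹ * (p₀ * q₀)⁻¹ ∈ lc F 1 := by
        have : (p * q)⁻¹⁻¹ * (p₀ * q₀)⁻¹ = p * (q * q₀⁻¹) * p⁻¹ * (p * p₀⁻¹) := by group
        rw [this]
        have hn : (lc F 1).Normal := inferInstance
        have e1 : q * q₀⁻¹ = q * (q₀⁻¹ * q) * q⁻¹ := by group
        have e2 : p * p₀⁻¹ = p * (p₀⁻¹ * p) * p⁻¹ := by group
        refine mul_mem (hn.conj_mem _ ?_ _) ?_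
        · rw [e1]; exact hn.conj_mem _ h2 _
        · rw [e2]; exact hn.conj_mem _ h1 _
      have h4 : π ⁅(p₀ * q₀)⁻¹, k⁻¹⁆ = ⁅π (p * q)⁻¹, π k⁻¹⁆ := by
        rw [map_commutatorElement]
        exact (comm_congr hs hk hkinv h3).symm
      have h5 := central_comm hs hk hkinv (p * q)⁻¹
      rw [h4]
      simp only [List.prod_cons]
      have e : k⁻¹ * p * σ k * ((σ k)⁻¹ * q * k * B'.prod) =
          (p * q) * ⁅(p * q)⁻¹, k⁻¹⁆ * B'.prod := by
        simp only [commutatorElement_def]; group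
      rw [e, map_mul, map_mul, map_commutatorElement, mul_assoc, (h5 (π B'.prod)).eq]
      simp only [map_mul]
      group
  | cons a A ih =>
    rintro l ⟨hl, hlp⟩
    rw [List.cons_append] at hl
    cases hl with
    | @cons _ a' _ l' h1 hl' =>
    obtain ⟨l'', ⟨hs1, hs2⟩, e⟩ := ih l' ⟨hl', fun q hq => hlp q (by simp [hq])⟩
    refine ⟨a' :: l'', ⟨List.Forall₂.cons h1 hs1, ?_⟩, ?_⟩
    · intro q hq
      rcases List.mem_cons.1 hq with rfl | hq
      · exact hlp q (by simp)
      · exact hs2 q hq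
    · rw [List.prod_cons, List.prod_cons, map_mul, e, map_mul, mul_assoc]

end lift

end PU3

section PU4

open Subgroup
open scoped commutatorElement

universe u

section lift
variable {F : Type u} [Group F] {Q : Type u} [Group Q]

/-- the elements `s` for which multiplication by all `⁅s, k⁆`, `k ∈ γ_m`, can be achieved -/
def goodT (σ : F →* F) {m : ℕ} {π : F →* Q} (hs : Function.Surjective π)
    (hk : lc F (m + 2) ≤ π.ker) (l₀ : List F) : Subgroup F where
  carrier := {s | ∀ k ∈ lc F m, Good σ π l₀ ⁅s, k⁆}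
  one_mem' := by
    intro k _
    rw [commutatorElement_one_left]
    exact Good.one
  mul_mem' := by
    intro a b ha hb k hkm
    refine ((ha k hkm).mul (hb k hkm)).congr ?_
    rw [map_mul, map_commutatorElement, map_commutatorElement, map_commutatorElement, map_mul,
      cmul_left (fun q => central_comm hs hk hkm _ q)]
  inv_mem' := by
    intro a ha k hkm
    refine (ha k⁻¹ (inv_mem hkm)).congr ?_
    rw [map_commutatorElement, map_commutatorElement, map_inv, map_inv,
      cinv_left (fun q => central_comm hs hk hkm _ q), cinv_right (fun q => central_comm hs hk hkm _ q)]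

lemma lc_one_le_goodT (σ : F →* F) {m : ℕ} {π : F →* Q} (hs : Function.Surjective π)
    (hk : lc F (m + 2) ≤ π.ker) (l₀ : List F) : lc F 1 ≤ goodT σ hs hk l₀ := by
  intro s hs' k hkm
  have : π ⁅s, k⁆ = π 1 := by
    rw [map_one]
    exact hk (comm_one_mem hs' hkm)
  exact Good.one.congr this.symm

lemma adj_mem_goodT {σ : F →* F} (hσ : ∀ g, σ (σ g) = g) {m : ℕ} (hm : 1 ≤ m) {π : F →* Q}
    (hs : Function.Surjective π) (hk : lc F (m + 2) ≤ π.ker) (p q : F) (A B : List F) :
    p * q ∈ goodT σ hs hk (A ++ p :: q :: B) := by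
  rw [← inv_mem_iff]
  intro k hkm
  have := pair_move hσ hm hs hk (inv_mem hkm) p q A B
  rwa [inv_inv] at this

lemma good_of_top {σ : F →* F} {m : ℕ} {π : F →* Q} (hs : Function.Surjective π)
    (hk : lc F (m + 2) ≤ π.ker) (l₀ : List F) (hT : goodT σ hs hk l₀ = ⊤) {z : F}
    (hz : z ∈ lc F (m + 1)) : Good σ π l₀ z := by
  have key : ∀ (s k : F), k ∈ lc F m → Good σ π l₀ ⁅s, k⁆ := by
    intro s k hkm
    have : s ∈ goodT σ hs hk l₀ := by rw [hT]; trivial
    exact this k hkm
  have : Good σ π l₀ z ∧ Good σ π l₀ z⁻¹ := by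
    change z ∈ ⁅lc F m, (⊤ : Subgroup F)⁆ at hz
    rw [Subgroup.commutator_def] at hz
    induction hz using Subgroup.closure_induction with
    | mem x hx =>
      obtain ⟨k, hkm, s, -, rfl⟩ := hx
      refine ⟨?_, ?_⟩
      · refine (key s k⁻¹ (inv_mem hkm)).congr ?_
        rw [map_commutatorElement, map_commutatorElement, map_inv,
          cinv_right (fun q => central_comm hs hk hkm _ q), commutatorElement_inv]
      · rw [commutatorElement_inv]; exact key s k hkm
    | one => exact ⟨Good.one, by rw [inv_one]; exact Good.one⟩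
    | mul x y _ _ h1 h2 => exact ⟨h1.1.mul h2.1, by rw [mul_inv_rev]; exact h2.2.mul h1.2⟩
    | inv x _ h => exact ⟨h.2, by rw [inv_inv]; exact h.1⟩
  exact this.1

lemma exists_comm_quot (T : Subgroup F) (hT : lc F 1 ≤ T) :
    ∃ (A : Type u) (_ : CommGroup A) (φ : F →* A), φ.ker = T ∧ Function.Surjective φ := by
  have hT' : _root_.commutator F ≤ T := hT
  have hN : T.Normal := Subgroup.Normal.of_commutator_le F hT'
  let _ : CommGroup (F ⧸ T) :=
    { (inferInstance : Group (F ⧸ T)) with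
      mul_comm := by
        have h := (Subgroup.Normal.quotient_commutative_iff_commutator_le (N := T)).2 hT'
        exact h.1.comm }
  exact ⟨F ⧸ T, inferInstance, QuotientGroup.mk' T, QuotientGroup.ker_mk' T,
    QuotientGroup.mk'_surjective T⟩

/-- adjacent products generate `F` modulo `[F,F]` -/
def Spanning (l₀ : List F) : Prop :=
  ∀ {A : Type u} [CommGroup A] (φ : F →* A),
    List.IsChain (fun p q => φ p * φ q = 1) l₀ → ∀ x, φ x = 1

theorem lift_all (σ : F →* F) (hσ : ∀ g, σ (σ g) = g) (l₀ : List F) (hpal : ∀ p ∈ l₀, Pal σ p)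
    (hgen : Spanning l₀) (g : F) (h2 : l₀.prod⁻¹ * g ∈ lc F 2) (r : ℕ) (hr : 2 ≤ r) :
    ∃ l, Sim σ l₀ l ∧ l.prod⁻¹ * g ∈ lc F r := by
  induction r, hr using Nat.le_induction with
  | base =>
    refine ⟨l₀, ⟨?_, hpal⟩, h2⟩
    rw [List.forall₂_same]
    intro x _
    simp
  | succ r hr ih =>
    obtain ⟨l, hl, hz⟩ := ih
    obtain ⟨m, rfl⟩ : ∃ m, r = m + 1 := ⟨r - 1, by omega⟩
    have hm : 1 ≤ m := by omega
    set π := QuotientGroup.mk' (lc F (m + 2)) with hπ
    have hs : Function.Surjective π := QuotientGroup.mk'_surjective _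
    have hk : lc F (m + 2) ≤ π.ker := by rw [hπ, QuotientGroup.ker_mk']
    have hT : goodT σ hs hk l₀ = ⊤ := by
      obtain ⟨A, _, φ, hφ, -⟩ := exists_comm_quot (goodT σ hs hk l₀) (lc_one_le_goodT σ hs hk l₀)
      rw [← hφ, eq_top_iff]
      intro x _
      refine hgen φ ?_ x
      rw [List.isChain_iff_forall_rel_of_append_cons_cons]
      rintro p q C D rfl
      rw [← map_mul, ← MonoidHom.mem_ker, hφ]
      exact adj_mem_goodT hσ hm hs hk p q C D
    obtain ⟨l', hl', e⟩ := good_of_top hs hk l₀ hT hz l hl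
    refine ⟨l', hl', ?_⟩
    have h3 : l'.prod⁻¹ * g ∈ π.ker := by
      rw [MonoidHom.mem_ker, map_mul, map_inv, e, map_mul, map_inv]
      group
    rwa [hπ, QuotientGroup.ker_mk'] at h3

end lift

end PU4

section PU5

open Subgroup
open scoped commutatorElement

universe u

section three
variable {F : Type u} [Group F] {Q : Type u} [Group Q]

lemma single_move {σ : F →* F} (hσ : ∀ g, σ (σ g) = g) {π : F →* Q}
    (hs : Function.Surjective π) (hk : lc F (1 + 2) ≤ π.ker) {h : F} (hh : h ∈ lc F 1)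
    (c₀ : F) (A : List F) :
    Good σ π (A ++ [c₀]) (⁅c₀⁻¹, (σ h)⁻¹⁆ * ((σ h)⁻¹ * h)) := by
  have hσh : σ h ∈ lc F 1 := σ_lc hh
  have hσh' : (σ h)⁻¹ ∈ lc F 1 := inv_mem hσh
  induction A with
  | nil =>
    rintro l ⟨hl, hlp⟩
    rw [List.nil_append] at hl
    cases hl with
    | @cons _ c _ l' h1 hl' =>
    cases hl'
    refine ⟨[(σ h)⁻¹ * c * h], ⟨List.Forall₂.cons ?_ List.Forall₂.nil, ?_⟩, ?_⟩
    · have : c₀⁻¹ * ((σ h)⁻¹ * c * h) = (c₀⁻¹ * c) * (c⁻¹ * (σ h)⁻¹ * c) * h := by group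
      rw [this]
      exact mul_mem (mul_mem h1 (mem_conj_lc hσh' c)) hh
    · intro z hz
      rw [List.mem_singleton] at hz
      subst hz
      exact Pal.twist hσ h (hlp c (by simp))
    · have h3 : c⁻¹⁻¹ * c₀⁻¹ ∈ lc F 1 := by
        have hn : (lc F 1).Normal := inferInstance
        have : c⁻¹⁻¹ * c₀⁻¹ = c * (c₀⁻¹ * c) * c⁻¹ := by group
        rw [this]; exact hn.conj_mem _ h1 _
      have h4 : ⁅π c₀⁻¹, π (σ h)⁻¹⁆ = ⁅π c⁻¹, π (σ h)⁻¹⁆ := (comm_congr hs hk hσh' h3).symm
      rw [map_mul, map_commutatorElement, h4, ← map_commutatorElement, ← map_mul, List.prod_singleton,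
        List.prod_singleton, ← map_mul]
      congr 1
      simp only [commutatorElement_def]
      group
  | cons a A ih =>
    rintro l ⟨hl, hlp⟩
    rw [List.cons_append] at hl
    cases hl with
    | @cons _ a' _ l' h1 hl' =>
    obtain ⟨l'', ⟨hs1, hs2⟩, e⟩ := ih l' ⟨hl', fun q hq => hlp q (by simp [hq])⟩
    refine ⟨a' :: l'', ⟨List.Forall₂.cons h1 hs1, ?_⟩, ?_⟩
    · intro q hq
      rcases List.mem_cons.1 hq with rfl | hq
      · exact hlp q (by simp)
      · exact hs2 q hq
    · rw [List.prod_cons, List.prod_cons, map_mul, e, map_mul π a' l'.prod, mul_assoc]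

/-- the subgroup of achievable changes -/
def goodD (σ : F →* F) (π : F →* Q) (l₀ : List F) : Subgroup F where
  carrier := {z | Good σ π l₀ z ∧ Good σ π l₀ z⁻¹}
  one_mem' := ⟨Good.one, by rw [inv_one]; exact Good.one⟩
  mul_mem' := fun h1 h2 => ⟨h1.1.mul h2.1, by rw [mul_inv_rev]; exact h2.2.mul h1.2⟩
  inv_mem' := fun h => ⟨h.2, by rw [inv_inv]; exact h.1⟩

lemma goodD_congr {σ : F →* F} {π : F →* Q} {l₀ : List F} {a b : F} (ha : a ∈ goodD σ π l₀)
    (h : π a = π b) : b ∈ goodD σ π l₀ :=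
  ⟨ha.1.congr h, ha.2.congr (by rw [map_inv, map_inv, h])⟩

lemma comm_mem_goodD {σ : F →* F} {m : ℕ} {π : F →* Q} (hs : Function.Surjective π)
    (hk : lc F (m + 2) ≤ π.ker) (l₀ : List F) {t k : F} (ht : t ∈ goodT σ hs hk l₀)
    (hkm : k ∈ lc F m) : ⁅t, k⁆ ∈ goodD σ π l₀ := by
  refine ⟨ht k hkm, ?_⟩
  refine (ht k⁻¹ (inv_mem hkm)).congr ?_
  rw [map_commutatorElement, map_inv, map_inv, map_commutatorElement,
    cinv_right (fun q => central_comm hs hk hkm _ q)]

/-- modulo `γ_3` (index 2), `σ` fixes `[F,F]` -/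
lemma σ_one {σ : F →* F} {S : Set F} (hS : ∀ s ∈ S, σ s = s⁻¹) (htop : closure S = ⊤)
    {R : Type u} [Group R] {ρ : F →* R} (hs : Function.Surjective ρ) (hk : lc F 2 ≤ ρ.ker)
    {h : F} (hh : h ∈ lc F 1) : ρ (σ h) = ρ h := by
  have hc : ∀ a b c : R, Commute ⁅a, b⁆ c := by
    intro a b c
    obtain ⟨a, rfl⟩ := hs a
    obtain ⟨b, rfl⟩ := hs b
    exact central_comm (m := 0) hs hk (Subgroup.mem_top b) a c
  have hmem : ∀ a : F, a ∈ closure S := fun a => by rw [htop]; trivial
  change h ∈ ⁅(⊤ : Subgroup F), (⊤ : Subgroup F)⁆ at hh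
  rw [Subgroup.commutator_def] at hh
  induction hh using Subgroup.closure_induction with
  | mem x hx =>
    obtain ⟨a, -, b, -, rfl⟩ := hx
    rw [map_commutatorElement, map_commutatorElement, map_commutatorElement,
      σ_comm hS ρ hc (ρ (σ b)) (hmem a), ← commutatorElement_inv,
      σ_comm hS ρ hc (ρ a) (hmem b), commutatorElement_inv, commutatorElement_inv,
      commutatorElement_inv]
  | one => simp
  | mul x y _ _ h1 h2 => rw [map_mul, map_mul, h1, h2, map_mul]
  | inv x _ h => rw [map_inv, map_inv, h, map_inv]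

/-- `σ` inverts `γ_3` (index 2) modulo `γ_4` (index 3) -/
lemma σ_two {σ : F →* F} {S : Set F} (hS : ∀ s ∈ S, σ s = s⁻¹) (htop : closure S = ⊤)
    {π : F →* Q} (hs : Function.Surjective π) (hk : lc F (1 + 2) ≤ π.ker)
    {h : F} (hh : h ∈ lc F 2) : π (σ h) = (π h)⁻¹ := by
  have hmem : ∀ a : F, a ∈ closure S := fun a => by rw [htop]; trivial
  change h ∈ ⁅lc F 1, (⊤ : Subgroup F)⁆ at hh
  rw [Subgroup.commutator_def] at hh
  induction hh using Subgroup.closure_induction with
  | mem x hx =>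
    obtain ⟨k, hk1, b, -, rfl⟩ := hx
    have hσk1 : σ k ∈ lc F 1 := σ_lc hk1
    have e1 : (σ b)⁻¹ * b⁻¹ ∈ lc F 1 := by
      obtain ⟨A, _, φ, hφ, -⟩ := exists_comm_quot (lc F 1) le_rfl
      rw [← hφ, MonoidHom.mem_ker, map_mul, map_inv, map_inv, σ_ab hS φ (hmem b)]
      group
    have e2 : π ⁅σ b, σ k⁆ = π ⁅b⁻¹, σ k⁆ := by
      rw [map_commutatorElement, map_commutatorElement]
      exact comm_congr hs hk hσk1 e1
    have e3 : π ⁅σ b, σ k⁆ = ⁅π b, π (σ k)⁆⁻¹ := by
      rw [e2, map_commutatorElement, map_inv, cinv_left (fun q => central_comm hs hk hσk1 _ q)]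
    have e4 : ⁅π b, π (σ k)⁆ = ⁅π b, π k⁆ := by
      have h5 : k⁻¹ * σ k ∈ lc F 2 := by
        have := σ_one (ρ := QuotientGroup.mk' (lc F 2)) hS htop (QuotientGroup.mk'_surjective _)
          (by rw [QuotientGroup.ker_mk']) hk1
        rw [← QuotientGroup.ker_mk' (lc F 2), MonoidHom.mem_ker, map_mul, map_inv, this,
          inv_mul_cancel]
      have h6 : σ k = k * (k⁻¹ * σ k) := by group
      have h7 : ⁅π b, π (k⁻¹ * σ k)⁆ = 1 := by
        rw [← map_commutatorElement]; exact hk (comm_mem' h5)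
      rw [h6, map_mul, cmul_right, h7, mul_one]
      intro q
      rw [h7]; exact Commute.one_left q
    rw [map_commutatorElement, ← commutatorElement_inv, map_inv, e3, e4, map_commutatorElement,
      inv_inv, commutatorElement_inv]
  | one => simp
  | mul x y hx hy h1 h2 =>
    have hx' : x ∈ lc F 2 := hx
    rw [map_mul, map_mul, h1, h2, map_mul, mul_inv_rev]
    exact ((central_of (m := 2) hs hk hx' (π y)).inv_left.inv_right).eq
  | inv x _ h => rw [map_inv, map_inv, h, map_inv]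

lemma comm_gen {N : Subgroup F} (hN : N.Normal) {S : Set F} (htop : closure S = ⊤)
    (h : ∀ a ∈ S, ∀ b ∈ S, ⁅a, b⁆ ∈ N) : lc F 1 ≤ N := by
  set ρ := QuotientGroup.mk' N with hρ
  have hker : ρ.ker = N := QuotientGroup.ker_mk' N
  have h1 : ∀ a ∈ S, ∀ b : F, Commute (ρ a) (ρ b) := by
    intro a ha b
    have hle : closure S ≤ (Subgroup.centralizer {ρ a}).comap ρ := by
      rw [closure_le]
      intro s hs
      change ρ s ∈ Subgroup.centralizer {ρ a}
      rw [Subgroup.mem_centralizer_singleton_iff]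
      have := h a ha s hs
      rw [← hker, MonoidHom.mem_ker, map_commutatorElement, commutatorElement_eq_one_iff_mul_comm] at this
      exact this.symm
    have hb : b ∈ closure S := by rw [htop]; trivial
    have h2 : ρ b ∈ Subgroup.centralizer {ρ a} := hle hb
    rw [Subgroup.mem_centralizer_singleton_iff] at h2
    exact h2.symm
  have h2 : ∀ a b : F, Commute (ρ a) (ρ b) := by
    intro a b
    have hle : closure S ≤ (Subgroup.centralizer {ρ b}).comap ρ := by
      rw [closure_le]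
      intro s hs
      change ρ s ∈ Subgroup.centralizer {ρ b}
      rw [Subgroup.mem_centralizer_singleton_iff]
      exact h1 s hs b
    have hb : a ∈ closure S := by rw [htop]; trivial
    have h2 : ρ a ∈ Subgroup.centralizer {ρ b} := hle hb
    rw [Subgroup.mem_centralizer_singleton_iff] at h2
    exact h2
  change ⁅(⊤ : Subgroup F), (⊤ : Subgroup F)⁆ ≤ N
  rw [Subgroup.commutator_le]
  intro a _ b _
  rw [← hker, MonoidHom.mem_ker, map_commutatorElement, commutatorElement_eq_one_iff_commute]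
  exact h2 a b

end three

end PU5

section PU6

open Subgroup
open scoped commutatorElement

universe u

section three
variable {F : Type u} [Group F] {Q : Type u} [Group Q]

lemma sq_mem_goodD {σ : F →* F} (hσ : ∀ g, σ (σ g) = g) {S : Set F} (hS : ∀ s ∈ S, σ s = s⁻¹)
    (htop : closure S = ⊤) {π : F →* Q} (hs : Function.Surjective π) (hk : lc F (1 + 2) ≤ π.ker)
    (c₀ : F) (A : List F) {h : F} (hh : h ∈ lc F 2) : h * h ∈ goodD σ π (A ++ [c₀]) := by
  have key : ∀ h ∈ lc F 2, Good σ π (A ++ [c₀]) (h * h) := by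
    intro h hh
    refine (single_move hσ hs hk (lc_antitone (by norm_num) hh) c₀ A).congr ?_
    have h1 : π ⁅c₀⁻¹, (σ h)⁻¹⁆ = 1 := hk (comm_mem' (inv_mem (σ_lc hh)))
    rw [map_mul, h1, map_mul, map_inv, σ_two hS htop hs hk hh, inv_inv, one_mul, map_mul]
  refine ⟨key h hh, ?_⟩
  have := key h⁻¹ (inv_mem hh)
  rwa [← mul_inv_rev] at this

lemma mem_goodD_of_good {σ : F →* F} (hσ : ∀ g, σ (σ g) = g) {S : Set F}
    (hS : ∀ s ∈ S, σ s = s⁻¹)
    (htop : closure S = ⊤) {π : F →* Q} (hs : Function.Surjective π) (hk : lc F (1 + 2) ≤ π.ker)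
    (c₀ : F) (A : List F) {z : F} (hz : z ∈ lc F 2) (hg : Good σ π (A ++ [c₀]) z) :
    z ∈ goodD σ π (A ++ [c₀]) := by
  refine ⟨hg, ?_⟩
  have h1 := (sq_mem_goodD hσ hS htop hs hk c₀ A hz).2
  have h2 := hg.mul h1
  have : z * (z * z)⁻¹ = z⁻¹ := by group
  rwa [this] at h2

lemma sq_mem_goodT {σ : F →* F} (hσ : ∀ g, σ (σ g) = g) {S : Set F} (hS : ∀ s ∈ S, σ s = s⁻¹)
    (htop : closure S = ⊤) {π : F →* Q} (hs : Function.Surjective π) (hk : lc F (1 + 2) ≤ π.ker)
    (c₀ : F) (A : List F) (s : F) : s * s ∈ goodT σ hs hk (A ++ [c₀]) := by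
  intro k hk1
  refine (sq_mem_goodD hσ hS htop hs hk c₀ A (comm_mem' (b := s) hk1)).1.congr ?_
  rw [map_mul, map_commutatorElement, map_commutatorElement, map_mul,
    cmul_left (fun q => central_comm hs hk hk1 _ q)]

lemma rel_mem_goodD {σ : F →* F} (hσ : ∀ g, σ (σ g) = g) {S : Set F} (hS : ∀ s ∈ S, σ s = s⁻¹)
    (htop : closure S = ⊤) {π : F →* Q} (hs : Function.Surjective π) (hk : lc F (1 + 2) ≤ π.ker)
    (c₀ : F) (A : List F) {a b : F} (ha : a ∈ S) (hb : b ∈ S) :
    ⁅c₀ * (b * a), ⁅a, b⁆⁆ ∈ goodD σ π (A ++ [c₀]) := by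
  have hh : ⁅a, b⁆ ∈ lc F 1 := comm_mem (k := 0) (Subgroup.mem_top a)
  refine mem_goodD_of_good hσ hS htop hs hk c₀ A (comm_mem' hh) ?_
  refine (single_move hσ hs hk hh c₀ A).congr ?_
  have e1 : (σ ⁅a, b⁆)⁻¹ * ⁅a, b⁆ = ⁅(b * a)⁻¹, ⁅a, b⁆⁻¹⁆ := by
    rw [map_commutatorElement, hS a ha, hS b hb]
    simp only [commutatorElement_def]; group
  have e2 : ⁅π c₀⁻¹, π (σ ⁅a, b⁆)⁻¹⁆ = ⁅π c₀⁻¹, π ⁅a, b⁆⁻¹⁆ := by
    have h5 : (⁅a, b⁆⁻¹)⁻¹ * (σ ⁅a, b⁆)⁻¹ ∈ lc F 2 := by
      have := σ_one (ρ := QuotientGroup.mk' (lc F 2)) hS htop (QuotientGroup.mk'_surjective _)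
        (by rw [QuotientGroup.ker_mk']) hh
      rw [← QuotientGroup.ker_mk' (lc F 2), MonoidHom.mem_ker, map_mul, map_inv, map_inv, map_inv,
        this, inv_inv, mul_inv_cancel]
    have h6 : (σ ⁅a, b⁆)⁻¹ = ⁅a, b⁆⁻¹ * ((⁅a, b⁆⁻¹)⁻¹ * (σ ⁅a, b⁆)⁻¹) := by group
    have h7 : ⁅π c₀⁻¹, π ((⁅a, b⁆⁻¹)⁻¹ * (σ ⁅a, b⁆)⁻¹)⁆ = 1 := by
      rw [← map_commutatorElement]; exact hk (comm_mem' h5)
    rw [h6, map_mul π ⁅a, b⁆⁻¹, cmul_right, h7, mul_one]
    intro q
    rw [h7]; exact Commute.one_left q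
  have hc := fun x : F => central_comm hs hk hh x
  have hc' := fun x : F => central_comm hs hk (inv_mem hh) x
  rw [e1, map_mul, map_commutatorElement, e2, map_commutatorElement, map_commutatorElement,
    map_mul π c₀ (b * a), cmul_left (fun q => hc _ q), map_inv, map_inv, map_inv]
  have hi : ∀ x : F, ⁅(π x)⁻¹, (π ⁅a, b⁆)⁻¹⁆ = ⁅π x, π ⁅a, b⁆⁆ := by
    intro x
    rw [← map_inv π ⁅a, b⁆, cinv_left (fun q => hc' _ q), map_inv, cinv_right (fun q => hc _ q), inv_inv]
  rw [hi, hi]

theorem goodT_top {σ : F →* F} (hσ : ∀ g, σ (σ g) = g) (y : F) (xs : List F)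
    (hS : ∀ s ∈ insert y {x | x ∈ xs}, σ s = s⁻¹)
    (htop : closure (insert y {x | x ∈ xs}) = ⊤) {π : F →* Q} (hs : Function.Surjective π)
    (hk : lc F (1 + 2) ≤ π.ker) (l : List F) (ν : ℤ) (hspan : Span2 xs y ν (l ++ [y ^ ν])) :
    goodT σ hs hk (l ++ [y ^ ν]) = ⊤ := by
  set T := goodT σ hs hk (l ++ [y ^ ν]) with hT
  set D := goodD σ π (l ++ [y ^ ν]) with hD
  obtain ⟨A, _, φ, hφ, hφs⟩ := exists_comm_quot T (lc_one_le_goodT σ hs hk _)
  have hmemT : ∀ t, t ∈ T ↔ φ t = 1 := fun t => by rw [← hφ, MonoidHom.mem_ker]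
  have hsq : ∀ a : A, a * a = 1 := by
    intro a
    obtain ⟨x, rfl⟩ := hφs a
    rw [← map_mul, ← hmemT]
    exact sq_mem_goodT hσ hS htop hs hk _ _ x
  have hinv : ∀ a : A, a⁻¹ = a := fun a => inv_eq_of_mul_eq_one_left (hsq a)
  have hchain : List.IsChain (fun p q => φ p * φ q = 1) (l ++ [y ^ ν]) := by
    rw [List.isChain_iff_forall_rel_of_append_cons_cons]
    intro p q C E e
    rw [← map_mul, ← hmemT, hT]
    have h1 := adj_mem_goodT hσ le_rfl hs hk p q C E
    rw [← e] at h1
    exact h1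
  obtain ⟨hx, -⟩ := hspan φ hsq hchain
  -- the subgroup of those `k` with `⁅y, k⁆` achievable
  let K : Subgroup F :=
    { carrier := {k | k ∈ lc F 1 ∧ ⁅y, k⁆ ∈ D}
      one_mem' := ⟨one_mem _, by rw [commutatorElement_one_right]; exact one_mem _⟩
      mul_mem' := by
        rintro a b ⟨ha, ha'⟩ ⟨hb, hb'⟩
        refine ⟨mul_mem ha hb, goodD_congr (mul_mem ha' hb') ?_⟩
        rw [map_mul, map_commutatorElement, map_commutatorElement, map_commutatorElement, map_mul,
          cmul_right (fun q => central_comm hs hk hb _ q)]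
      inv_mem' := by
        rintro a ⟨ha, ha'⟩
        refine ⟨inv_mem ha, goodD_congr (inv_mem ha') ?_⟩
        rw [map_inv, map_commutatorElement, map_commutatorElement, map_inv,
          cinv_right (fun q => central_comm hs hk ha _ q)] }
  have hK2 : ∀ z ∈ lc F 2, z ∈ K := by
    intro z hz
    refine ⟨lc_antitone (by norm_num) hz, goodD_congr (one_mem _) ?_⟩
    rw [map_one]
    exact (hk (comm_mem' hz)).symm
  have hKn : K.Normal := by
    constructor
    rintro k hkK a
    have : a * k * a⁻¹ = ⁅a, k⁆ * k := by simp [commutatorElement_def]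
    rw [this]
    exact mul_mem (hK2 _ (comm_mem' hkK.1)) hkK
  have hK1 : ∀ a ∈ insert y {x | x ∈ xs}, ∀ b ∈ insert y {x | x ∈ xs},
      φ (y ^ ν * (b * a)) = φ y → ⁅a, b⁆ ∈ K := by
    intro a ha b hb e
    have hh : ⁅a, b⁆ ∈ lc F 1 := comm_mem (k := 0) (Subgroup.mem_top a)
    refine ⟨hh, ?_⟩
    have h1 := rel_mem_goodD hσ hS htop hs hk (y ^ ν) l ha hb
    have h2 : y⁻¹ * (y ^ ν * (b * a)) ∈ T := by
      rw [hmemT, map_mul, e, map_inv, inv_mul_cancel]
    have h3 := comm_mem_goodD hs hk _ h2 hh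
    have h4 : y ^ ν * (b * a) = y * (y⁻¹ * (y ^ ν * (b * a))) := by group
    rw [h4] at h1
    generalize y⁻¹ * (y ^ ν * (b * a)) = t at h1 h3
    refine goodD_congr (mul_mem h1 (inv_mem h3)) ?_
    rw [map_mul, map_inv, map_commutatorElement π (y * t), map_mul π y t,
      cmul_left (fun q => central_comm hs hk hh _ q), ← map_commutatorElement π t,
      mul_inv_cancel_right, ← map_commutatorElement]
  have hyy : ⁅y, y⁆ ∈ K := by rw [commutatorElement_self]; exact one_mem _
  have hKall : lc F 1 ≤ K := by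
    refine comm_gen hKn htop ?_
    rcases Int.even_or_odd' ν with ⟨j, hj | hj⟩
    · -- even exponent
      have hy0 : φ y ^ ν = 1 := by rw [hj, zpow_mul, zpow_ofNat, pow_two, hsq, one_zpow]
      have hx' : ∀ x ∈ xs, φ x = 1 := by
        intro x hxx
        have := hx x hxx
        rwa [hy0, mul_one] at this
      rintro a (rfl | ha) b (rfl | hb)
      · exact hyy
      · refine hK1 _ (Set.mem_insert _ _) b (Set.mem_insert_of_mem _ hb) ?_
        rw [map_mul, map_mul, map_zpow, hy0, hx' b hb, one_mul, one_mul]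
      · refine hK1 a (Set.mem_insert_of_mem _ ha) _ (Set.mem_insert _ _) ?_
        rw [map_mul, map_mul, map_zpow, hy0, hx' a ha, one_mul, mul_one]
      · have haT : a ∈ T := (hmemT a).2 (hx' a ha)
        have hbT : b ∈ T := (hmemT b).2 (hx' b hb)
        have hh : ⁅a, b⁆ ∈ lc F 1 := comm_mem (k := 0) (Subgroup.mem_top a)
        refine ⟨hh, ?_⟩
        have hh1 : ⁅y⁻¹, a⁻¹⁆ ∈ lc F 1 := comm_mem (k := 0) (Subgroup.mem_top _)
        have hh2 : ⁅b⁻¹, y⁆ ∈ lc F 1 := comm_mem (k := 0) (Subgroup.mem_top _)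
        have z1 : ⁅⁅y⁻¹, a⁻¹⁆, b⁆ ∈ D := by
          rw [← commutatorElement_inv]
          exact inv_mem (comm_mem_goodD hs hk _ hbT hh1)
        have z2 : ⁅⁅b⁻¹, y⁆, a⁻¹⁆ ∈ D := by
          rw [← commutatorElement_inv]
          exact inv_mem (comm_mem_goodD hs hk _ (inv_mem haT) hh2)
        refine goodD_congr (mul_mem z1 z2) ?_
        have hw := congrArg π (conj_commutatorElement_left_commutatorElement_mul a⁻¹ b y)
        rw [inv_inv] at hw
        have c0 : ∀ q : Q, Commute (π ⁅⁅a, b⁆, y⁆) q := fun q => by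
          rw [map_commutatorElement]; exact central_comm' hs hk hh _ q
        have c1 : ∀ q : Q, Commute (π ⁅⁅y⁻¹, a⁻¹⁆, b⁆) q := fun q => by
          rw [map_commutatorElement]; exact central_comm' hs hk hh1 _ q
        have c2 : ∀ q : Q, Commute (π ⁅⁅b⁻¹, y⁆, a⁻¹⁆) q := fun q => by
          rw [map_commutatorElement]; exact central_comm' hs hk hh2 _ q
        have e0 : (π a)⁻¹ * π ⁅⁅a, b⁆, y⁆ * π a = π ⁅⁅a, b⁆, y⁆ := by
          rw [← (c0 _).eq, inv_mul_cancel_right]
        have e1 : π y * π ⁅⁅y⁻¹, a⁻¹⁆, b⁆ * (π y)⁻¹ = π ⁅⁅y⁻¹, a⁻¹⁆, b⁆ := by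
          rw [← (c1 _).eq, mul_inv_cancel_right]
        have e2 : π b * π ⁅⁅b⁻¹, y⁆, a⁻¹⁆ * (π b)⁻¹ = π ⁅⁅b⁻¹, y⁆, a⁻¹⁆ := by
          rw [← (c2 _).eq, mul_inv_cancel_right]
        have hw' : ((π a)⁻¹ * π ⁅⁅a, b⁆, y⁆ * π a) * (π y * π ⁅⁅y⁻¹, a⁻¹⁆, b⁆ * (π y)⁻¹) *
            (π b * π ⁅⁅b⁻¹, y⁆, a⁻¹⁆ * (π b)⁻¹) = 1 := by
          simp only [map_mul, map_one, map_inv π a, map_inv π y, map_inv π b] at hw
          simpa only [mul_assoc] using hw
        rw [e0, e1, e2, mul_assoc] at hw'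
        rw [map_mul, ← commutatorElement_inv ⁅a, b⁆ y, map_inv]
        exact eq_inv_of_mul_eq_one_right hw'
    · have hy0 : φ y ^ ν = φ y := by
        rw [hj, zpow_add, zpow_mul, zpow_ofNat, pow_two, hsq, one_zpow, one_mul, zpow_one]
      have hx' : ∀ x ∈ insert y {x | x ∈ xs}, φ x = φ y := by
        rintro x (rfl | hxx)
        · rfl
        · have := hx x hxx
          rw [hy0] at this
          rw [← hinv (φ y)]
          exact eq_inv_of_mul_eq_one_left this
      intro a ha b hb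
      refine hK1 a ha b hb ?_
      rw [map_mul, map_mul, map_zpow, hy0, hx' a ha, hx' b hb, hsq, mul_one]
  have hyT : y ∈ T := by
    intro k hk1
    exact (hKall hk1).2.1
  have hy1 : φ y = 1 := (hmemT y).1 hyT
  have hle : closure (insert y {x | x ∈ xs}) ≤ T := by
    rw [closure_le]
    rintro s (rfl | hs')
    · exact hyT
    · refine (hmemT s).2 ?_
      have := hx s hs'
      rwa [hy1, one_zpow, mul_one] at this
  rw [htop] at hle
  exact top_le_iff.1 hle

end three

end PU6

section PU7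

open Subgroup
open scoped commutatorElement

universe u

section final
variable {F : Type u} [Group F]

lemma Sim.length {σ : F →* F} {l₀ l : List F} (h : Sim σ l₀ l) : l.length = l₀.length :=
  h.1.length_eq.symm

lemma exists_quot2 : ∃ (Q : Type u) (_ : Group Q) (π : F →* Q), Function.Surjective π ∧
    π.ker = lc F 2 ∧ ∀ a b c : Q, Commute ⁅a, b⁆ c := by
  refine ⟨F ⧸ lc F 2, inferInstance, QuotientGroup.mk' _, QuotientGroup.mk'_surjective _,
    QuotientGroup.ker_mk' _, ?_⟩
  intro a b c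
  obtain ⟨a, rfl⟩ := QuotientGroup.mk'_surjective (lc F 2) a
  obtain ⟨b, rfl⟩ := QuotientGroup.mk'_surjective (lc F 2) b
  exact central_comm (m := 0) (QuotientGroup.mk'_surjective _) (by rw [QuotientGroup.ker_mk'])
    (Subgroup.mem_top b) a c

/-- class two and three: `2 |xs| + 1` palindromes suffice -/
theorem upper_three (σ : F →* F) (hσ : ∀ g, σ (σ g) = g) (y : F) (xs : List F)
    (hS : ∀ s ∈ insert y {x | x ∈ xs}, σ s = s⁻¹)
    (htop : closure (insert y {x | x ∈ xs}) = ⊤) (g : F) :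
    ∃ l : List F, l.length = 2 * xs.length + 1 ∧ (∀ p ∈ l, Pal σ p) ∧ l.prod⁻¹ * g ∈ lc F 3 := by
  obtain ⟨Q, _, π₂, hs₂, hk₂, hc⟩ := exists_quot2 (F := F)
  have hy : σ y = y⁻¹ := hS y (Set.mem_insert _ _)
  have hxs : ∀ x ∈ xs, σ x = x⁻¹ := fun x hx => hS x (Set.mem_insert_of_mem _ hx)
  obtain ⟨l, ν, hl, hlp, hprod, hs1, hs2⟩ := base σ hσ π₂ hc y hy xs hxs g (by rw [htop]; trivial)
  set l₀ := l ++ [y ^ ν] with hl₀
  have hpal : ∀ p ∈ l₀, Pal σ p := by
    intro p hp
    rcases List.mem_append.1 hp with hp | hp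
    · exact (hlp p hp).1
    · rw [List.mem_singleton] at hp; subst hp; exact Pal.zpow ν hy
  set π := QuotientGroup.mk' (lc F (1 + 2)) with hπ
  have hs : Function.Surjective π := QuotientGroup.mk'_surjective _
  have hk : lc F (1 + 2) ≤ π.ker := by rw [hπ, QuotientGroup.ker_mk']
  have hT := goodT_top hσ y xs hS htop hs hk l ν hs2
  have hz : l₀.prod⁻¹ * g ∈ lc F (1 + 1) := by
    change l₀.prod⁻¹ * g ∈ lc F 2
    rw [← hk₂, MonoidHom.mem_ker, map_mul, map_inv, hprod, inv_mul_cancel]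
  have hsim : Sim σ l₀ l₀ := by
    refine ⟨?_, hpal⟩
    rw [List.forall₂_same]
    intro x _
    simp
  obtain ⟨l', hl', e⟩ := good_of_top hs hk l₀ hT hz l₀ hsim
  refine ⟨l', ?_, hl'.2, ?_⟩
  · rw [hl'.length, hl₀]; simp [hl]
  · have h3 : l'.prod⁻¹ * g ∈ π.ker := by
      rw [MonoidHom.mem_ker, map_mul, map_inv, e, map_mul, map_inv]
      group
    rwa [hπ, QuotientGroup.ker_mk'] at h3

/-- every class: `2 |xs| + 3` palindromes suffice -/
theorem upper_all (σ : F →* F) (hσ : ∀ g, σ (σ g) = g) (y : F) (xs : List F)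
    (hS : ∀ s ∈ insert y {x | x ∈ xs}, σ s = s⁻¹)
    (htop : closure (insert y {x | x ∈ xs}) = ⊤) (g : F) (r : ℕ) (hr : 2 ≤ r) :
    ∃ l : List F, l.length = 2 * xs.length + 3 ∧ (∀ p ∈ l, Pal σ p) ∧ l.prod⁻¹ * g ∈ lc F r := by
  obtain ⟨Q, _, π₂, hs₂, hk₂, hc⟩ := exists_quot2 (F := F)
  have hy : σ y = y⁻¹ := hS y (Set.mem_insert _ _)
  have hxs : ∀ x ∈ xs, σ x = x⁻¹ := fun x hx => hS x (Set.mem_insert_of_mem _ hx)
  obtain ⟨l, ν, hl, hlp, hprod, hs1, hs2⟩ := base σ hσ π₂ hc y hy xs hxs g (by rw [htop]; trivial)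
  set l₀ := l ++ [y ^ ν, y ^ (1 - ν), y ^ (ν - 1)] with hl₀
  have hpal : ∀ p ∈ l₀, Pal σ p := by
    intro p hp
    rcases List.mem_append.1 hp with hp | hp
    · exact (hlp p hp).1
    · simp only [List.mem_cons, List.not_mem_nil, or_false] at hp
      rcases hp with rfl | rfl | rfl <;> exact Pal.zpow _ hy
  have hspan : Spanning l₀ := by
    intro A _ φ hch
    have e1 : l₀ = l ++ y ^ ν :: y ^ (1 - ν) :: [y ^ (ν - 1)] := rfl
    rw [e1, List.isChain_append_cons_cons] at hch
    obtain ⟨h1, h2, -⟩ := hch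
    have hy1 : φ y = 1 := by
      rw [← map_mul, ← zpow_add] at h2
      have : ν + (1 - ν) = 1 := by ring
      rwa [this, zpow_one] at h2
    have h3 := hs1 φ hy1 h1
    intro x
    have hle : closure (insert y {x | x ∈ xs}) ≤ φ.ker := by
      rw [closure_le]
      rintro s (rfl | hs')
      · exact hy1
      · exact h3 s hs'
    rw [htop] at hle
    exact hle (Subgroup.mem_top x)
  have hz : l₀.prod⁻¹ * g ∈ lc F 2 := by
    have e2 : l₀.prod = (l ++ [y ^ ν]).prod := by
      rw [hl₀]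
      simp only [List.prod_append, List.prod_cons, List.prod_nil, mul_one]
      rw [← zpow_add, ← zpow_add]
      congr 2; ring
    rw [e2, ← hk₂, MonoidHom.mem_ker, map_mul, map_inv, hprod, inv_mul_cancel]
  obtain ⟨l', hl', e⟩ := lift_all σ hσ l₀ hpal hspan g hz r hr
  refine ⟨l', ?_, hl'.2, e⟩
  rw [hl'.length, hl₀]; simp [hl]

end final

section free

/-- the automorphism of the free group inverting every free generator -/
def invAut (n : ℕ) : FreeGroup (Fin n) →* FreeGroup (Fin n) :=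
  FreeGroup.lift fun i => (FreeGroup.of i)⁻¹

lemma invAut_invol (n : ℕ) (g : FreeGroup (Fin n)) : invAut n (invAut n g) = g := by
  have : (invAut n).comp (invAut n) = MonoidHom.id _ := by
    ext i; simp [invAut]
  exact DFunLike.congr_fun this g

lemma gens_top (m : ℕ) : closure (insert (FreeGroup.of (Fin.last m))
    {x | x ∈ List.ofFn fun i : Fin m => FreeGroup.of i.castSucc}) = ⊤ := by
  rw [eq_top_iff, ← FreeGroup.closure_range_of, closure_le]
  rintro _ ⟨i, rfl⟩
  apply Subgroup.subset_closure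
  refine Fin.lastCases ?_ (fun j => ?_) i
  · exact Set.mem_insert _ _
  · refine Set.mem_insert_of_mem _ ?_
    simp [List.mem_ofFn]

lemma gens_inv (m : ℕ) : ∀ s ∈ insert (FreeGroup.of (Fin.last m))
    {x | x ∈ List.ofFn fun i : Fin m => FreeGroup.of i.castSucc}, invAut (m + 1) s = s⁻¹ := by
  rintro s (rfl | hs)
  · simp [invAut]
  · have hs' : s ∈ List.ofFn fun i : Fin m => FreeGroup.of i.castSucc := hs
    rw [List.mem_ofFn] at hs'
    obtain ⟨i, rfl⟩ := hs'
    simp [invAut]

theorem free_upper_three (n : ℕ) (hn : 1 ≤ n) (g : FreeGroup (Fin n)) :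
    ∃ l : List (FreeGroup (Fin n)), l.length = 2 * n - 1 ∧ (∀ p ∈ l, Pal (invAut n) p) ∧
      l.prod⁻¹ * g ∈ lc (FreeGroup (Fin n)) 3 := by
  obtain ⟨m, rfl⟩ : ∃ m, n = m + 1 := ⟨n - 1, by omega⟩
  obtain ⟨l, h1, h2, h3⟩ := upper_three (invAut (m + 1)) (invAut_invol _) _ _ (gens_inv m)
    (gens_top m) g
  exact ⟨l, by rw [h1]; simp; omega, h2, h3⟩

theorem free_upper_all (n : ℕ) (hn : 1 ≤ n) (g : FreeGroup (Fin n)) (r : ℕ) (hr : 2 ≤ r) :
    ∃ l : List (FreeGroup (Fin n)), l.length = 2 * n + 1 ∧ (∀ p ∈ l, Pal (invAut n) p) ∧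
      l.prod⁻¹ * g ∈ lc (FreeGroup (Fin n)) r := by
  obtain ⟨m, rfl⟩ : ∃ m, n = m + 1 := ⟨n - 1, by omega⟩
  obtain ⟨l, h1, h2, h3⟩ := upper_all (invAut (m + 1)) (invAut_invol _) _ _ (gens_inv m)
    (gens_top m) g r hr
  exact ⟨l, by rw [h1]; simp; omega, h2, h3⟩

end free

end PU7

section PL1

open Subgroup
open scoped commutatorElement

section lower
variable {n : ℕ}

/-- the homomorphism `x_i ↦ τ_0 τ_i` attached to a family of involutions `τ_0, …, τ_n` -/
def ev {Q : Type} [Group Q] (τ : Fin (n + 1) → Q) : FreeGroup (Fin n) →* Q :=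
  FreeGroup.lift fun i => τ 0 * τ i.succ

/-- value of the formal conjugator `(u, e)`, standing for `u t_0^e` -/
def evE {Q : Type} [Group Q] (τ : Fin (n + 1) → Q) (w : FreeGroup (Fin n) × ℕ) : Q :=
  ev τ w.1 * τ 0 ^ w.2

lemma map_ev {Q R : Type} [Group Q] [Group R] (f : Q →* R) (τ : Fin (n + 1) → Q)
    (u : FreeGroup (Fin n)) : f (ev τ u) = ev (fun k => f (τ k)) u := by
  have : f.comp (ev τ) = ev (fun k => f (τ k)) := by
    ext i; simp [ev]
  exact DFunLike.congr_fun this u

lemma map_evE {Q R : Type} [Group Q] [Group R] (f : Q →* R) (τ : Fin (n + 1) → Q)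
    (w : FreeGroup (Fin n) × ℕ) : f (evE τ w) = evE (fun k => f (τ k)) w := by
  simp [evE, map_ev]

lemma ev_invAut {Q : Type} [Group Q] {τ : Fin (n + 1) → Q} (hτ : ∀ k, τ k * τ k = 1)
    (u : FreeGroup (Fin n)) : ev τ (invAut n u) = τ 0 * ev τ u * τ 0 := by
  have h0 : (τ 0)⁻¹ = τ 0 := inv_eq_of_mul_eq_one_left (hτ 0)
  have : (ev τ).comp (invAut n) = (MulAut.conj (τ 0)).toMonoidHom.comp (ev τ) := by
    ext i
    have hi : (τ i.succ)⁻¹ = τ i.succ := inv_eq_of_mul_eq_one_left (hτ _)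
    simp only [ev, invAut, MonoidHom.comp_apply, FreeGroup.lift_apply_of, map_inv, mul_inv_rev,
      MulEquiv.coe_toMonoidHom, MulAut.conj_apply]
    rw [hi, h0, ← mul_assoc, hτ, one_mul]
  have h := DFunLike.congr_fun this u
  simp only [MonoidHom.comp_apply, MulEquiv.coe_toMonoidHom, MulAut.conj_apply, h0] at h
  exact h

lemma pal_form (w : List (Fin n × Bool)) (hw : w.reverse = w) :
    ∃ (k : Fin (n + 1)) (u : FreeGroup (Fin n)), ∀ (Q : Type) [Group Q] (τ : Fin (n + 1) → Q),
      (∀ i, τ i * τ i = 1) →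
        ev τ (FreeGroup.mk w) = τ 0 * ((ev τ u)⁻¹ * τ k * ev τ u) := by
  have hp := List.Palindrome.of_reverse_eq hw
  clear hw
  induction hp with
  | nil =>
    refine ⟨0, 1, ?_⟩
    intro Q _ τ hτ
    have : (FreeGroup.mk ([] : List (Fin n × Bool))) = 1 := rfl
    rw [this, map_one, inv_one, one_mul, mul_one, hτ]
  | singleton a =>
    obtain ⟨i, b⟩ := a
    cases b
    · refine ⟨i.succ, (FreeGroup.of i)⁻¹, ?_⟩
      intro Q _ τ hτ
      have e : (FreeGroup.mk [(i, false)]) = (FreeGroup.of i)⁻¹ := by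
        simp [FreeGroup.of, FreeGroup.inv_mk, FreeGroup.invRev]
      rw [e]
      simp only [ev, map_inv, FreeGroup.lift_apply_of, inv_inv]
      have h1 := hτ i.succ
      have h0 := hτ 0
      calc (τ 0 * τ i.succ)⁻¹ = (τ 0 * τ 0) * (τ i.succ * τ i.succ) * (τ 0 * τ i.succ)⁻¹ := by
            rw [h0, h1, one_mul, one_mul]
        _ = _ := by group
    · refine ⟨i.succ, 1, ?_⟩
      intro Q _ τ hτ
      have e : (FreeGroup.mk [(i, true)]) = FreeGroup.of i := rfl
      rw [e]
      simp [ev]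
  | cons_concat a hp ih =>
    rename_i l
    obtain ⟨k, u, h⟩ := ih
    refine ⟨k, u * FreeGroup.mk [a], ?_⟩
    intro Q _ τ hτ
    have e : FreeGroup.mk (a :: (l ++ [a])) = FreeGroup.mk [a] * FreeGroup.mk l * FreeGroup.mk [a] := by
      rw [FreeGroup.mul_mk, FreeGroup.mul_mk]; simp
    have h0 : (τ 0)⁻¹ = τ 0 := inv_eq_of_mul_eq_one_left (hτ 0)
    have hx : ev τ (FreeGroup.mk [a]) * τ 0 = τ 0 * (ev τ (FreeGroup.mk [a]))⁻¹ := by
      have h3 : invAut n (FreeGroup.mk [a]) = (FreeGroup.mk [a])⁻¹ := by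
        obtain ⟨i, b⟩ := a
        cases b
        · have e : (FreeGroup.mk [(i, false)]) = (FreeGroup.of i)⁻¹ := by
            simp [FreeGroup.of, FreeGroup.inv_mk, FreeGroup.invRev]
          rw [e]; simp [invAut]
        · have e : (FreeGroup.mk [(i, true)]) = FreeGroup.of i := rfl
          rw [e]; simp [invAut]
      have h4 := ev_invAut hτ (FreeGroup.mk [a])
      rw [h3, map_inv] at h4
      rw [h4, ← mul_assoc, ← mul_assoc, hτ, one_mul]
    rw [e, map_mul, map_mul, h Q τ hτ, map_mul, ← mul_assoc (ev τ (FreeGroup.mk [a])) (τ 0), hx]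
    group

lemma prod_form (l : List (FreeGroup (Fin n)))
    (hl : ∀ p ∈ l, ∃ w : List (Fin n × Bool), w.reverse = w ∧ FreeGroup.mk w = p) :
    ∃ L : List (Fin (n + 1) × (FreeGroup (Fin n) × ℕ)), L.length = l.length ∧
      ∀ (Q : Type) [Group Q] (τ : Fin (n + 1) → Q), (∀ i, τ i * τ i = 1) →
        ev τ l.prod * τ 0 ^ l.length = (L.map fun e => (evE τ e.2)⁻¹ * τ e.1 * evE τ e.2).prod := by
  induction l with
  | nil => exact ⟨[], rfl, fun Q _ τ hτ => by simp⟩
  | cons p l ih =>
    obtain ⟨L, hL, h⟩ := ih (fun p hp => hl p (List.mem_cons_of_mem _ hp))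
    obtain ⟨w, hw, rfl⟩ := hl p List.mem_cons_self
    obtain ⟨k, u, hk⟩ := pal_form w hw
    refine ⟨(k, (u, 1)) :: L.map (fun e => (e.1, (e.2.1, e.2.2 + 1))), by simp [hL], ?_⟩
    intro Q _ τ hτ
    have h0 : (τ 0)⁻¹ = τ 0 := inv_eq_of_mul_eq_one_left (hτ 0)
    have key : ∀ L : List (Fin (n + 1) × (FreeGroup (Fin n) × ℕ)),
        ((L.map (fun e => (e.1, (e.2.1, e.2.2 + 1)))).map
          fun e => (evE τ e.2)⁻¹ * τ e.1 * evE τ e.2).prod =
        τ 0 * (L.map fun e => (evE τ e.2)⁻¹ * τ e.1 * evE τ e.2).prod * τ 0 := by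
      intro L
      induction L with
      | nil => simp [hτ]
      | cons e L ihL =>
        simp only [List.map_cons, List.prod_cons]
        rw [ihL]
        simp only [evE, pow_succ, mul_inv_rev, h0]
        have := hτ 0
        calc _ = τ 0 * ((τ 0 ^ e.2.2)⁻¹ * (ev τ e.2.1)⁻¹) * τ e.1 * (ev τ e.2.1 * (τ 0 ^ e.2.2)) *
              (τ 0 * τ 0) * (List.map (fun e => (τ 0 ^ e.2.2)⁻¹ * (ev τ e.2.1)⁻¹ * τ e.1 *
                (ev τ e.2.1 * τ 0 ^ e.2.2)) L).prod * τ 0 := by group
          _ = _ := by rw [this]; group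
    rw [List.prod_cons, List.length_cons, map_mul, hk Q τ hτ, List.map_cons, List.prod_cons, key,
      ← h Q τ hτ]
    simp only [evE, pow_succ, pow_zero, one_mul, mul_inv_rev, h0]
    have := hτ 0
    calc _ = τ 0 * ((ev τ u)⁻¹ * τ k * ev τ u) * 1 * ev τ l.prod * (τ 0 ^ l.length * τ 0) := by group
      _ = τ 0 * ((ev τ u)⁻¹ * τ k * ev τ u) * (τ 0 * τ 0) * ev τ l.prod * (τ 0 ^ l.length * τ 0) := by
          rw [this]
      _ = _ := by group

/-- an even number of reflections -/
lemma prod_form_even (l : List (FreeGroup (Fin n)))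
    (hl : ∀ p ∈ l, ∃ w : List (Fin n × Bool), w.reverse = w ∧ FreeGroup.mk w = p) :
    ∃ L : List (Fin (n + 1) × (FreeGroup (Fin n) × ℕ)), Even L.length ∧ L.length ≤ l.length + 1 ∧
      ∀ (Q : Type) [Group Q] (τ : Fin (n + 1) → Q), (∀ i, τ i * τ i = 1) →
        ev τ l.prod = (L.map fun e => (evE τ e.2)⁻¹ * τ e.1 * evE τ e.2).prod := by
  obtain ⟨L, hL, h⟩ := prod_form l hl
  rcases Nat.even_or_odd l.length with he | ho
  · refine ⟨L, by rwa [hL], by omega, ?_⟩
    intro Q _ τ hτ
    rw [← h Q τ hτ]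
    obtain ⟨j, hj⟩ := he
    rw [hj, ← two_mul, pow_mul, pow_two, hτ, one_pow, mul_one]
  · refine ⟨L ++ [(0, (1, 0))], ?_, by simp [hL], ?_⟩
    · rw [List.length_append, hL]
      exact ho.add_one
    intro Q _ τ hτ
    rw [List.map_append, List.prod_append, ← h Q τ hτ]
    obtain ⟨j, hj⟩ := ho
    rw [hj, pow_succ, pow_mul, pow_two, hτ, one_pow, one_mul]
    simp [evE, mul_assoc, hτ]

/-- the element of the free group (as even subgroup of the group generated by `t_0, …, t_n`) given by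
an even product of the `t_k` -/
def wordE : List (Fin (n + 1)) → FreeGroup (Fin n)
  | [] => 1
  | k :: t => invAut n (Fin.cases 1 FreeGroup.of k * wordE t)

lemma ev_wordE {Q : Type} [Group Q] {τ : Fin (n + 1) → Q} (hτ : ∀ k, τ k * τ k = 1)
    (l : List (Fin (n + 1))) : ev τ (wordE l) * τ 0 ^ l.length = (l.map τ).prod := by
  induction l with
  | nil => simp [wordE]
  | cons k t ih =>
    rw [List.map_cons, List.prod_cons, ← ih, wordE, ev_invAut hτ, map_mul]
    have hk : τ 0 * ev τ (Fin.cases 1 FreeGroup.of k) = τ k := by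
      refine Fin.cases ?_ (fun i => ?_) k
      · simp
      · simp only [Fin.cases_succ, ev, FreeGroup.lift_apply_of]
        rw [← mul_assoc, hτ, one_mul]
    rw [← mul_assoc (τ 0), hk, List.length_cons, pow_succ']
    have := hτ 0
    calc _ = τ k * ev τ (wordE t) * (τ 0 * τ 0) * τ 0 ^ t.length := by group
      _ = _ := by rw [this]; group

/-- the element `(t_0 t_1 ⋯ t_n)^2` -/
def gTwo (n : ℕ) : FreeGroup (Fin n) := wordE (List.finRange (n + 1) ++ List.finRange (n + 1))

lemma ev_gTwo {Q : Type} [Group Q] {τ : Fin (n + 1) → Q} (hτ : ∀ k, τ k * τ k = 1) :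
    ev τ (gTwo n) = ((List.finRange (n + 1)).map τ).prod ^ 2 := by
  have h := ev_wordE hτ (List.finRange (n + 1) ++ List.finRange (n + 1))
  rw [List.map_append, List.prod_append, ← pow_two] at h
  rw [← h, gTwo]
  simp only [List.length_append, List.length_finRange]
  rw [← two_mul, pow_mul, pow_two, hτ, one_pow, mul_one]

end lower

end PL1

section PL2

open Subgroup
open scoped commutatorElement

/-- wreath product of `D` with a group of order two -/
structure Wr (D : Type) where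
  x : D
  y : D
  s : Bool
  deriving DecidableEq

namespace Wr
variable {D : Type} [Group D]

@[ext] lemma ext' {a b : Wr D} (h1 : a.x = b.x) (h2 : a.y = b.y) (h3 : a.s = b.s) : a = b := by
  cases a; cases b; simp_all

instance : Mul (Wr D) := ⟨fun a b =>
  ⟨a.x * (cond a.s b.y b.x), a.y * (cond a.s b.x b.y), xor a.s b.s⟩⟩
instance : One (Wr D) := ⟨⟨1, 1, false⟩⟩
instance : Inv (Wr D) := ⟨fun a => ⟨(cond a.s a.y a.x)⁻¹, (cond a.s a.x a.y)⁻¹, a.s⟩⟩

lemma mul_x (a b : Wr D) : (a * b).x = a.x * (cond a.s b.y b.x) := rfl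
lemma mul_y (a b : Wr D) : (a * b).y = a.y * (cond a.s b.x b.y) := rfl
lemma mul_s (a b : Wr D) : (a * b).s = xor a.s b.s := rfl
lemma one_x : (1 : Wr D).x = 1 := rfl
lemma one_y : (1 : Wr D).y = 1 := rfl
lemma one_s : (1 : Wr D).s = false := rfl
lemma inv_x (a : Wr D) : (a⁻¹).x = (cond a.s a.y a.x)⁻¹ := rfl
lemma inv_y (a : Wr D) : (a⁻¹).y = (cond a.s a.x a.y)⁻¹ := rfl
lemma inv_s (a : Wr D) : (a⁻¹).s = a.s := rfl

instance : Group (Wr D) := Group.ofLeftAxioms
  (by
    intro a b c
    rcases a with ⟨x, y, s⟩; rcases b with ⟨x', y', s'⟩; rcases c with ⟨x'', y'', s''⟩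
    cases s <;> cases s' <;> ext <;> simp [mul_x, mul_y, mul_s, mul_assoc])
  (by intro a; ext <;> simp [mul_x, mul_y, mul_s, one_x, one_y, one_s])
  (by
    intro a
    rcases a with ⟨x, y, s⟩
    cases s <;> ext <;> simp [mul_x, mul_y, mul_s, one_x, one_y, one_s, inv_x, inv_y, inv_s])

instance [Fintype D] : Fintype (Wr D) :=
  Fintype.ofEquiv (D × D × Bool)
    { toFun := fun p => ⟨p.1, p.2.1, p.2.2⟩
      invFun := fun w => (w.x, w.y, w.s)
      left_inv := fun _ => rfl
      right_inv := fun _ => rfl }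

/-- the sign -/
def sgn : Wr D →* Multiplicative (ZMod 2) where
  toFun a := Multiplicative.ofAdd (cond a.s 1 0)
  map_one' := rfl
  map_mul' a b := by
    rw [mul_s]
    cases a.s <;> cases b.s <;> rfl

end Wr

abbrev D8 := DihedralGroup 4

/-- parity of the number of `sr 0` factors -/
def κ1 : D8 →* Multiplicative (ZMod 2) where
  toFun a := match a with
    | .r i => Multiplicative.ofAdd (i.val : ZMod 2)
    | .sr i => Multiplicative.ofAdd ((i.val + 1 : ℕ) : ZMod 2)
  map_one' := by decide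
  map_mul' := by decide

/-- parity of the number of `sr 1` factors -/
def κ2 : D8 →* Multiplicative (ZMod 2) where
  toFun a := match a with
    | .r i => Multiplicative.ofAdd (i.val : ZMod 2)
    | .sr i => Multiplicative.ofAdd (i.val : ZMod 2)
  map_one' := by decide
  map_mul' := by decide

def W1 : Wr D8 →* Multiplicative (ZMod 2) where
  toFun a := κ1 a.x * κ1 a.y
  map_one' := by decide
  map_mul' a b := by
    rw [Wr.mul_x, Wr.mul_y]
    cases a.s <;> simp only [cond_true, cond_false, map_mul]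
    · exact mul_mul_mul_comm _ _ _ _
    · rw [mul_comm (κ1 b.x)]
      exact mul_mul_mul_comm _ _ _ _

def W2 : Wr D8 →* Multiplicative (ZMod 2) where
  toFun a := κ2 a.x * κ2 a.y
  map_one' := by decide
  map_mul' a b := by
    rw [Wr.mul_x, Wr.mul_y]
    cases a.s <;> simp only [cond_true, cond_false, map_mul]
    · exact mul_mul_mul_comm _ _ _ _
    · rw [mul_comm (κ2 b.x)]
      exact mul_mul_mul_comm _ _ _ _

abbrev e1 : Multiplicative (ZMod 2) := Multiplicative.ofAdd 1

/-- the central rotation of order two -/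
abbrev z8 : D8 := DihedralGroup.r 2

lemma wr_four : ∀ P : Wr D8, W1 P = e1 → W2 P = e1 → Wr.sgn P = e1 → P ^ 4 = ⟨z8, z8, false⟩ := by
  decide +kernel

lemma d8_two : ∀ P : D8, κ1 P = e1 → κ2 P = e1 → P ^ 2 = z8 := by
  decide +kernel

end PL2

section PL3

open Subgroup
open scoped commutatorElement

lemma step1 : ∀ a b : Wr D8, W1 ⁅a, b⁆ = 1 ∧ W2 ⁅a, b⁆ = 1 ∧ Wr.sgn ⁅a, b⁆ = 1 := by
  intro a b
  refine ⟨?_, ?_, ?_⟩ <;> rw [map_commutatorElement, commutatorElement_eq_one_iff_mul_comm, mul_comm]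

def H2 : Subgroup (Wr D8) where
  carrier := {a | (a.x = 1 ∨ a.x = z8) ∧ (a.y = 1 ∨ a.y = z8) ∧ a.s = false}
  one_mem' := by decide
  mul_mem' := by
    rintro ⟨x, y, s⟩ ⟨x', y', s'⟩ ⟨h1, h2, h3⟩ ⟨h4, h5, h6⟩
    simp only at h1 h2 h3 h4 h5 h6
    subst h3 h6
    rcases h1 with rfl | rfl <;> rcases h2 with rfl | rfl <;> rcases h4 with rfl | rfl <;>
      rcases h5 with rfl | rfl <;> decide
  inv_mem' := by
    rintro ⟨x, y, s⟩ ⟨h1, h2, h3⟩
    simp only at h1 h2 h3
    subst h3
    rcases h1 with rfl | rfl <;> rcases h2 with rfl | rfl <;> decide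

def H3 : Subgroup (Wr D8) where
  carrier := {a | a = 1 ∨ a = ⟨z8, z8, false⟩}
  one_mem' := by decide
  mul_mem' := by
    rintro a b (rfl | rfl) (rfl | rfl) <;> decide
  inv_mem' := by
    rintro a (rfl | rfl) <;> decide

instance (a : Wr D8) : Decidable (a ∈ H2) :=
  inferInstanceAs (Decidable ((a.x = 1 ∨ a.x = z8) ∧ (a.y = 1 ∨ a.y = z8) ∧ a.s = false))

instance (a : Wr D8) : Decidable (a ∈ H3) :=
  inferInstanceAs (Decidable (a = 1 ∨ a = ⟨z8, z8, false⟩))

lemma step2 : ∀ a : Wr D8, W1 a = 1 → W2 a = 1 → Wr.sgn a = 1 → ∀ b : Wr D8, ⁅a, b⁆ ∈ H2 := by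
  decide +kernel

lemma step3 : ∀ a : Wr D8, a ∈ H2 → ∀ b : Wr D8, ⁅a, b⁆ ∈ H3 := by
  decide +kernel

lemma step4 : ∀ a : Wr D8, a ∈ H3 → ∀ b : Wr D8, ⁅a, b⁆ = 1 := by
  decide +kernel

lemma lcs_Wr : (⊤ : Subgroup (Wr D8)).lowerCentralSeries 4 = ⊥ := by
  have h1 : (⊤ : Subgroup (Wr D8)).lowerCentralSeries 1 ≤ W1.ker ⊓ W2.ker ⊓ Wr.sgn.ker := by
    change ⁅(⊤ : Subgroup (Wr D8)), (⊤ : Subgroup (Wr D8))⁆ ≤ _
    rw [Subgroup.commutator_le]
    intro a _ b _
    obtain ⟨h1, h2, h3⟩ := step1 a b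
    exact ⟨⟨h1, h2⟩, h3⟩
  have h2 : (⊤ : Subgroup (Wr D8)).lowerCentralSeries 2 ≤ H2 := by
    change ⁅(⊤ : Subgroup (Wr D8)).lowerCentralSeries 1, (⊤ : Subgroup (Wr D8))⁆ ≤ _
    rw [Subgroup.commutator_le]
    intro a ha b _
    obtain ⟨⟨h3, h4⟩, h5⟩ := h1 ha
    exact step2 a h3 h4 h5 b
  have h3 : (⊤ : Subgroup (Wr D8)).lowerCentralSeries 3 ≤ H3 := by
    change ⁅(⊤ : Subgroup (Wr D8)).lowerCentralSeries 2, (⊤ : Subgroup (Wr D8))⁆ ≤ _
    rw [Subgroup.commutator_le]
    intro a ha b _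
    exact step3 a (h2 ha) b
  change ⁅(⊤ : Subgroup (Wr D8)).lowerCentralSeries 3, (⊤ : Subgroup (Wr D8))⁆ = ⊥
  rw [eq_bot_iff, Subgroup.commutator_le]
  intro a ha b _
  rw [Subgroup.mem_bot]
  exact step4 a (h3 ha) b

lemma d8_class : ∀ a b c : D8, ⁅⁅a, b⁆, c⁆ = 1 := by
  decide +kernel

lemma lcs_D8 : (⊤ : Subgroup D8).lowerCentralSeries 2 = ⊥ := by
  have h1 : (⊤ : Subgroup D8).lowerCentralSeries 1 ≤ Subgroup.center D8 := by
    change ⁅(⊤ : Subgroup D8), (⊤ : Subgroup D8)⁆ ≤ _
    rw [Subgroup.commutator_le]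
    intro a _ b _
    rw [Subgroup.mem_center_iff]
    intro c
    exact ((commutatorElement_eq_one_iff_mul_comm).1 (d8_class a b c)).symm
  change ⁅(⊤ : Subgroup D8).lowerCentralSeries 1, (⊤ : Subgroup D8)⁆ = ⊥
  rw [Subgroup.commutator_top_right_eq_bot_iff_le_center]
  exact h1

lemma lcs_comm {A : Type} [CommGroup A] : (⊤ : Subgroup A).lowerCentralSeries 1 = ⊥ := by
  change ⁅(⊤ : Subgroup A), (⊤ : Subgroup A)⁆ = ⊥
  rw [eq_bot_iff, Subgroup.commutator_le]
  intro a _ b _
  rw [Subgroup.mem_bot, commutatorElement_eq_one_iff_mul_comm, mul_comm]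

lemma lcs_mono {Q : Type} [Group Q] {A B : Subgroup Q} (hAB : A ≤ B) (k : ℕ) :
    A.lowerCentralSeries k ≤ B.lowerCentralSeries k := by
  induction k with
  | zero => exact hAB
  | succ k ih => exact Subgroup.commutator_mono ih hAB

lemma lc_le_ker {F Q : Type} [Group F] [Group Q] (f : F →* Q) {k : ℕ}
    (h : (⊤ : Subgroup Q).lowerCentralSeries k = ⊥) {r : ℕ} (hr : k ≤ r) : lc F r ≤ f.ker := by
  refine (lc_antitone hr).trans ?_
  rw [← Subgroup.map_eq_bot_iff, Subgroup.map_lowerCentralSeries, eq_bot_iff, ← h]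
  exact lcs_mono le_top _

end PL3

section PL4

open Subgroup
open scoped commutatorElement

section count
variable {n : ℕ}

abbrev Entry (n : ℕ) := Fin (n + 1) × (FreeGroup (Fin n) × ℕ)

/-- the product of reflections attached to a list of entries -/
def refl {Q : Type} [Group Q] (τ : Fin (n + 1) → Q) (L : List (Entry n)) : Q :=
  (L.map fun e => (evE τ e.2)⁻¹ * τ e.1 * evE τ e.2).prod

def cnt (L : List (Entry n)) (k : Fin (n + 1)) : ℕ := L.countP (fun e => decide (e.1 = k))

lemma sum_cnt (L : List (Entry n)) : ∑ k, cnt L k = L.length := by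
  induction L with
  | nil => simp [cnt]
  | cons e L ih =>
    have : ∀ k, cnt (e :: L) k = cnt L k + if e.1 = k then 1 else 0 := by
      intro k
      simp only [cnt, List.countP_cons, decide_eq_true_eq]
    simp only [this, Finset.sum_add_distrib, ih, Finset.sum_ite_eq, Finset.mem_univ, if_true,
      List.length_cons]

lemma cnt_pos_of_mem {L : List (Entry n)} {e : Entry n} (he : e ∈ L) : 0 < cnt L e.1 := by
  rw [cnt, List.countP_pos_iff]
  exact ⟨e, he, by simp⟩

lemma prod_ite_pow {ι : Type} (L : List ι) (p : ι → Bool) :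
    (L.map fun e => if p e then e1 else 1).prod = e1 ^ (L.countP p) := by
  induction L with
  | nil => simp
  | cons a L ih =>
    rw [List.map_cons, List.prod_cons, ih, List.countP_cons]
    by_cases h : p a
    · simp [h, pow_succ']
    · simp [h]

lemma even_of_pow {m : ℕ} (h : e1 ^ m = 1) : Even m := by
  rcases Nat.even_or_odd m with h' | ⟨j, rfl⟩
  · exact h'
  · exfalso
    have h2 : e1 ^ 2 = 1 := by decide
    rw [pow_succ, pow_mul, h2, one_pow, one_mul] at h
    revert h; decide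

/-- the indicator involution of the index `c` -/
def chi (c : Fin (n + 1)) : Fin (n + 1) → Multiplicative (ZMod 2) := fun k => if k = c then e1 else 1

lemma chi_sq (c k : Fin (n + 1)) : chi c k * chi c k = 1 := by
  unfold chi; split_ifs <;> decide

lemma prod_chi (c : Fin (n + 1)) : ((List.finRange (n + 1)).map (chi c)).prod = e1 := by
  rw [← Fin.prod_univ_def]
  simp [chi]

lemma cnt_even (L : List (Entry n)) (c : Fin (n + 1)) (h : refl (chi c) L = 1) : Even (cnt L c) := by
  apply even_of_pow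
  rw [← h, refl, cnt, ← prod_ite_pow]
  congr 1
  apply List.map_congr_left
  intro e _
  rw [mul_comm (evE (chi c) e.2)⁻¹, inv_mul_cancel_right]
  simp [chi]

/-- the pair of generating involutions of `D8` placed at the indices `a`, `b` -/
def tD (a b : Fin (n + 1)) : Fin (n + 1) → D8 := fun k =>
  if k = a then DihedralGroup.sr 0 else if k = b then DihedralGroup.sr 1 else 1

lemma tD_sq (a b k : Fin (n + 1)) : tD a b k * tD a b k = 1 := by
  unfold tD; split_ifs <;> decide

lemma tD_prod {a b : Fin (n + 1)} (hab : a ≠ b) :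
    ((List.finRange (n + 1)).map (tD a b)).prod ^ 2 = z8 := by
  apply d8_two
  · rw [map_list_prod, List.map_map, ← prod_chi a]
    congr 1
    apply List.map_congr_left
    intro k _
    simp only [Function.comp_apply, tD, chi]
    split_ifs <;> decide
  · rw [map_list_prod, List.map_map, ← prod_chi b]
    congr 1
    apply List.map_congr_left
    intro k _
    simp only [Function.comp_apply, tD, chi]
    split_ifs with h1 h2 h3
    · exact absurd (h1.symm.trans h2) hab
    · decide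
    · decide
    · decide

lemma refl_eq_one {Q : Type} [Group Q] {τ : Fin (n + 1) → Q} {L : List (Entry n)}
    (h : ∀ e ∈ L, τ e.1 = 1) : refl τ L = 1 := by
  rw [refl]
  apply List.prod_eq_one
  intro x hx
  rw [List.mem_map] at hx
  obtain ⟨e, he, rfl⟩ := hx
  rw [h e he]; group

/-- in class two at most one index can be missing -/
lemma not_both_missing {L : List (Entry n)} {a b : Fin (n + 1)} (hab : a ≠ b)
    (h : refl (tD a b) L = z8) : 0 < cnt L a ∨ 0 < cnt L b := by
  by_contra hcon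
  push Not at hcon
  have : refl (tD a b) L = 1 := by
    apply refl_eq_one
    intro e he
    have := cnt_pos_of_mem he
    have h1 : e.1 ≠ a := by rintro h1; rw [h1] at this; omega
    have h2 : e.1 ≠ b := by rintro h1; rw [h1] at this; omega
    simp [tD, h1, h2]
  rw [this] at h
  revert h; decide

theorem lower_two_aux (L : List (Entry n))
    (h1 : ∀ c, refl (chi c) L = 1) (h2 : ∀ a b, a ≠ b → refl (tD a b) L = z8) :
    2 * n ≤ L.length := by
  have hev := fun c => cnt_even L c (h1 c)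
  rw [← sum_cnt L]
  by_cases hmiss : ∃ c, cnt L c = 0
  · obtain ⟨c, hc⟩ := hmiss
    have hk : ∀ k ∈ Finset.univ.erase c, 2 ≤ cnt L k := by
      intro k hk
      have hkc : k ≠ c := Finset.ne_of_mem_erase hk
      rcases not_both_missing hkc (h2 k c hkc) with h | h
      · obtain ⟨j, hj⟩ := hev k; omega
      · omega
    have hs : ∑ k ∈ Finset.univ.erase c, 2 ≤ ∑ k, cnt L k :=
      (Finset.sum_le_sum hk).trans (Finset.sum_le_sum_of_subset (Finset.erase_subset _ _))
    rw [Finset.sum_const, Finset.card_erase_of_mem (Finset.mem_univ c), Finset.card_univ,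
      Fintype.card_fin, smul_eq_mul] at hs
    omega
  · push Not at hmiss
    have hk : ∀ k ∈ (Finset.univ : Finset (Fin (n + 1))), 2 ≤ cnt L k := by
      intro k _
      obtain ⟨j, hj⟩ := hev k
      have := hmiss k
      omega
    have hs := Finset.sum_le_sum hk
    rw [Finset.sum_const, Finset.card_univ, Fintype.card_fin, smul_eq_mul] at hs
    omega

end count

end PL4

section PL5

open Subgroup
open scoped commutatorElement

section count
variable {n : ℕ}

/-- involutions of the wreath product: the swap at `c`, `sr 0` (first coordinate) at `i`, and `sr 1`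
at `l`, in the first coordinate if `f` holds and in the second one otherwise -/
def tW (c i l : Fin (n + 1)) (f : Bool) : Fin (n + 1) → Wr D8 := fun k =>
  if k = c then ⟨1, 1, true⟩ else if k = i then ⟨DihedralGroup.sr 0, 1, false⟩ else
    if k = l then (cond f ⟨DihedralGroup.sr 1, 1, false⟩ ⟨1, DihedralGroup.sr 1, false⟩) else 1

lemma tW_sq (c i l : Fin (n + 1)) (f : Bool) (k : Fin (n + 1)) : tW c i l f k * tW c i l f k = 1 := by
  unfold tW; split_ifs <;> cases f <;> decide

lemma tW_prod {c i l : Fin (n + 1)} (hci : c ≠ i) (hcl : c ≠ l) (hil : i ≠ l) (f : Bool) :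
    ((List.finRange (n + 1)).map (tW c i l f)).prod ^ 4 = ⟨z8, z8, false⟩ := by
  apply wr_four
  · rw [map_list_prod, List.map_map, ← prod_chi i]
    congr 1
    apply List.map_congr_left
    intro k _
    simp only [Function.comp_apply, tW, chi]
    split_ifs with h1 h2 h3 <;> first | (exfalso; simp_all; done) | (cases f <;> decide)
  · rw [map_list_prod, List.map_map, ← prod_chi l]
    congr 1
    apply List.map_congr_left
    intro k _
    simp only [Function.comp_apply, tW, chi]
    split_ifs with h1 h2 h3 <;> first | (exfalso; simp_all; done) | (cases f <;> decide)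
  · rw [map_list_prod, List.map_map, ← prod_chi c]
    congr 1
    apply List.map_congr_left
    intro k _
    simp only [Function.comp_apply, tW, chi]
    split_ifs with h1 h2 h3 <;> first | (exfalso; simp_all; done) | (cases f <;> decide)

/-- `true` iff the conjugator of the entry contains an even number of `t_c` -/
def side (c : Fin (n + 1)) (e : Entry n) : Bool := decide (evE (chi c) e.2 = 1)

lemma sgn_tW (c i l : Fin (n + 1)) (f : Bool) (hci : c ≠ i) (hcl : c ≠ l) (w : FreeGroup (Fin n) × ℕ) :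
    Wr.sgn (evE (tW c i l f) w) = evE (chi c) w := by
  rw [map_evE]
  congr 1
  funext k
  simp only [tW, chi]
  split_ifs with h1 h2 h3 <;> first | (exfalso; simp_all; done) | (cases f <;> decide)

lemma s_of_side (c i l : Fin (n + 1)) (f : Bool) (hci : c ≠ i) (hcl : c ≠ l) (e : Entry n) :
    (evE (tW c i l f) e.2).s = !(side c e) := by
  have h := sgn_tW c i l f hci hcl e.2
  rw [side, ← h]
  generalize evE (tW c i l f) e.2 = w
  obtain ⟨x, y, s⟩ := w
  cases s <;> rfl

/-- conjugate of a base element -/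
lemma conj_base {D : Type} [Group D] (W : Wr D) (p q : D) :
    W⁻¹ * ⟨p, q, false⟩ * W = ⟨(cond W.s W.y W.x)⁻¹ * (cond W.s q p) * (cond W.s W.y W.x),
      (cond W.s W.x W.y)⁻¹ * (cond W.s p q) * (cond W.s W.x W.y), false⟩ := by
  obtain ⟨x, y, s⟩ := W
  cases s
  · ext <;> simp [Wr.mul_x, Wr.mul_y, Wr.mul_s, Wr.inv_x, Wr.inv_y, Wr.inv_s]
  · ext <;> simp [Wr.mul_x, Wr.mul_y, Wr.mul_s, Wr.inv_x, Wr.inv_y, Wr.inv_s]

lemma prod_base {D : Type} [Group D] (M : List (Wr D)) (h : ∀ w ∈ M, w.s = false) :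
    M.prod = ⟨(M.map Wr.x).prod, (M.map Wr.y).prod, false⟩ := by
  induction M with
  | nil => rfl
  | cons a M ih =>
    rw [List.prod_cons, ih (fun w hw => h w (List.mem_cons_of_mem _ hw))]
    have ha : a.s = false := h a List.mem_cons_self
    ext <;> simp [Wr.mul_x, Wr.mul_y, Wr.mul_s, ha]

/-- the coordinates of the conjugated involution attached to an entry -/
def cx (c i l : Fin (n + 1)) (f : Bool) (e : Entry n) : Wr D8 :=
  (evE (tW c i l f) e.2)⁻¹ * tW c i l f e.1 * evE (tW c i l f) e.2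

lemma tW_base {c i l : Fin (n + 1)} (f : Bool) {k : Fin (n + 1)} (hk : k ≠ c) :
    tW c i l f k = ⟨(tW c i l f k).x, (tW c i l f k).y, false⟩ := by
  unfold tW
  simp only [hk, if_false]
  split_ifs <;> cases f <;> rfl

lemma cx_base {c i l : Fin (n + 1)} (f : Bool) {e : Entry n} (he : e.1 ≠ c) :
    (cx c i l f e).s = false := by
  rw [cx, tW_base f he, conj_base]

lemma κ1_conj (a b : D8) : κ1 (a⁻¹ * b * a) = κ1 b := by
  rw [map_mul, map_mul, map_inv, mul_comm (κ1 a)⁻¹, inv_mul_cancel_right]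

/-- first coordinates, parity of `sr 0` -/
lemma κ1_cx_x {c i l : Fin (n + 1)} (hci : c ≠ i) (hcl : c ≠ l) {e : Entry n} (he : e.1 ≠ c) :
    κ1 (cx c i l true e).x = if (decide (e.1 = i) && side c e) then e1 else 1 := by
  have hs := s_of_side c i l true hci hcl e
  rw [cx, tW_base true he, conj_base]
  simp only [κ1_conj, hs]
  cases hside : side c e
  · simp only [Bool.not_false, cond_true, Bool.and_false, Bool.false_eq_true, if_false]
    unfold tW
    simp only [he, if_false]
    split_ifs <;> decide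
  · simp only [Bool.not_true, cond_false, Bool.and_true, decide_eq_true_eq]
    unfold tW
    simp only [he, if_false]
    split_ifs <;> decide

/-- second coordinates, parity of `sr 0` -/
lemma κ1_cx_y {c i l : Fin (n + 1)} (hci : c ≠ i) (hcl : c ≠ l) {e : Entry n} (he : e.1 ≠ c) :
    κ1 (cx c i l true e).y = if (decide (e.1 = i) && !side c e) then e1 else 1 := by
  have hs := s_of_side c i l true hci hcl e
  rw [cx, tW_base true he, conj_base]
  simp only [κ1_conj, hs]
  cases hside : side c e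
  · simp only [Bool.not_false, cond_true, Bool.and_true, decide_eq_true_eq]
    unfold tW
    simp only [he, if_false]
    split_ifs <;> decide
  · simp only [Bool.not_true, cond_false, Bool.and_false, Bool.false_eq_true, if_false]
    unfold tW
    simp only [he, if_false]
    split_ifs <;> decide

lemma cx_x_ne {c i l : Fin (n + 1)} {f : Bool} (hci : c ≠ i) (hcl : c ≠ l) {e : Entry n} (he : e.1 ≠ c)
    (h : (cx c i l f e).x ≠ 1) : (e.1 = i ∧ side c e = true) ∨ (e.1 = l ∧ side c e = f) := by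
  have hs := s_of_side c i l f hci hcl e
  by_contra hcon
  push Not at hcon
  obtain ⟨h1, h2⟩ := hcon
  apply h
  rw [cx, tW_base f he, conj_base]
  simp only [hs]
  cases hside : side c e
  · simp only [Bool.not_false, cond_true]
    have h3 : (tW c i l f e.1).y = 1 := by
      unfold tW
      simp only [he, if_false]
      split_ifs with h4 h5
      · rfl
      · have := h2 h5
        rw [hside] at this
        cases f
        · exact absurd rfl this
        · rfl
      · rfl
    rw [h3]; group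
  · simp only [Bool.not_true, cond_false]
    have h3 : (tW c i l f e.1).x = 1 := by
      unfold tW
      simp only [he, if_false]
      split_ifs with h4 h5
      · exact absurd hside (h1 h4)
      · have := h2 h5
        rw [hside] at this
        cases f
        · rfl
        · exact absurd rfl this
      · rfl
    rw [h3]; group

lemma cx_y_ne {c i l : Fin (n + 1)} {f : Bool} (hci : c ≠ i) (hcl : c ≠ l) {e : Entry n} (he : e.1 ≠ c)
    (h : (cx c i l f e).y ≠ 1) : (e.1 = i ∧ side c e = false) ∨ (e.1 = l ∧ side c e = !f) := by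
  have hs := s_of_side c i l f hci hcl e
  by_contra hcon
  push Not at hcon
  obtain ⟨h1, h2⟩ := hcon
  apply h
  rw [cx, tW_base f he, conj_base]
  simp only [hs]
  cases hside : side c e
  · simp only [Bool.not_false, cond_true]
    have h3 : (tW c i l f e.1).x = 1 := by
      unfold tW
      simp only [he, if_false]
      split_ifs with h4 h5
      · exact absurd hside (h1 h4)
      · have := h2 h5
        rw [hside] at this
        cases f
        · rfl
        · exact absurd rfl this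
      · rfl
    rw [h3]; group
  · simp only [Bool.not_true, cond_false]
    have h3 : (tW c i l f e.1).y = 1 := by
      unfold tW
      simp only [he, if_false]
      split_ifs with h4 h5
      · rfl
      · have := h2 h5
        rw [hside] at this
        cases f
        · exact absurd rfl this
        · rfl
      · rfl
    rw [h3]; group

lemma exists_ne_one {D : Type} [Group D] {ι : Type} (L : List ι) (g : ι → D) (h : (L.map g).prod ≠ 1) :
    ∃ e ∈ L, g e ≠ 1 := by
  by_contra hcon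
  push Not at hcon
  apply h
  apply List.prod_eq_one
  intro x hx
  rw [List.mem_map] at hx
  obtain ⟨e, he, rfl⟩ := hx
  exact hcon e he

section main
variable {L : List (Entry n)} {c : Fin (n + 1)}

lemma coords (hc : cnt L c = 0) {i l : Fin (n + 1)} {f : Bool}
    (h : refl (tW c i l f) L = ⟨z8, z8, false⟩) :
    (L.map fun e => (cx c i l f e).x).prod = z8 ∧ (L.map fun e => (cx c i l f e).y).prod = z8 := by
  have hne : ∀ e ∈ L, e.1 ≠ c := by
    rintro e he rfl
    have := cnt_pos_of_mem he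
    omega
  have h1 : refl (tW c i l f) L = (L.map (cx c i l f)).prod := rfl
  rw [h1, prod_base _ (by
    intro w hw
    rw [List.mem_map] at hw
    obtain ⟨e, he, rfl⟩ := hw
    exact cx_base f (hne e he))] at h
  rw [List.map_map, List.map_map] at h
  exact ⟨congrArg Wr.x h, congrArg Wr.y h⟩

lemma z8_ne : z8 ≠ 1 := by decide

/-- number of entries with index `k` on side `b` -/
def cntS (L : List (Entry n)) (c k : Fin (n + 1)) (b : Bool) : ℕ :=
  L.countP (fun e => decide (e.1 = k) && (side c e == b))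

lemma cnt_eq_add (L : List (Entry n)) (c k : Fin (n + 1)) :
    cnt L k = cntS L c k true + cntS L c k false := by
  unfold cnt cntS
  induction L with
  | nil => rfl
  | cons e L ih =>
    simp only [List.countP_cons, ih]
    cases side c e <;> by_cases h : e.1 = k <;> simp [h] <;> omega

lemma cntS_pos {e : Entry n} (he : e ∈ L) {k : Fin (n + 1)} {b : Bool} (h1 : e.1 = k)
    (h2 : side c e = b) : 0 < cntS L c k b := by
  rw [cntS, List.countP_pos_iff]
  exact ⟨e, he, by simp [h1, h2]⟩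

lemma cntS_even (hc : cnt L c = 0) {i l : Fin (n + 1)} (hci : c ≠ i) (hcl : c ≠ l)
    (h : refl (tW c i l true) L = ⟨z8, z8, false⟩) (b : Bool) : Even (cntS L c i b) := by
  have hne : ∀ e ∈ L, e.1 ≠ c := by
    rintro e he rfl
    have := cnt_pos_of_mem he
    omega
  obtain ⟨h1, h2⟩ := coords hc h
  have hz : κ1 z8 = 1 := by decide
  apply even_of_pow
  cases b
  · rw [← hz, ← h2, map_list_prod, List.map_map, cntS, ← prod_ite_pow]
    congr 1
    apply List.map_congr_left
    intro e he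
    rw [Function.comp_apply, κ1_cx_y hci hcl (hne e he)]
    cases side c e <;> simp
  · rw [← hz, ← h1, map_list_prod, List.map_map, cntS, ← prod_ite_pow]
    congr 1
    apply List.map_congr_left
    intro e he
    rw [Function.comp_apply, κ1_cx_x hci hcl (hne e he)]
    cases side c e <;> simp

lemma four_conditions (hc : cnt L c = 0) {i l : Fin (n + 1)} (hci : c ≠ i) (hcl : c ≠ l)
    (h : ∀ f, refl (tW c i l f) L = ⟨z8, z8, false⟩) (b b' : Bool) :
    0 < cntS L c i b ∨ 0 < cntS L c l b' := by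
  have hne : ∀ e ∈ L, e.1 ≠ c := by
    rintro e he rfl
    have := cnt_pos_of_mem he
    omega
  cases b
  · -- second coordinate with `f = !b'`
    obtain ⟨-, h2⟩ := coords hc (h (!b'))
    obtain ⟨e, he, hee⟩ := exists_ne_one L _ (by rw [h2]; exact z8_ne)
    rcases cx_y_ne hci hcl (hne e he) hee with ⟨h3, h4⟩ | ⟨h3, h4⟩
    · exact Or.inl (cntS_pos he h3 h4)
    · exact Or.inr (cntS_pos he h3 (by rw [h4, Bool.not_not]))
  · obtain ⟨h1, -⟩ := coords hc (h b')
    obtain ⟨e, he, hee⟩ := exists_ne_one L _ (by rw [h1]; exact z8_ne)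
    rcases cx_x_ne hci hcl (hne e he) hee with ⟨h3, h4⟩ | ⟨h3, h4⟩
    · exact Or.inl (cntS_pos he h3 h4)
    · exact Or.inr (cntS_pos he h3 h4)

end main

theorem lower_four_aux (hn : 3 ≤ n) (L : List (Entry n))
    (h1 : ∀ c, refl (chi c) L = 1)
    (h2 : ∀ c i l, c ≠ i → c ≠ l → i ≠ l → ∀ f, refl (tW c i l f) L = ⟨z8, z8, false⟩) :
    2 * n < L.length := by
  have hev := fun c => cnt_even L c (h1 c)
  rw [← sum_cnt L]
  by_cases hmiss : ∃ c, cnt L c = 0
  · obtain ⟨c, hc⟩ := hmiss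
    -- full indices occur at least four times
    have hfull : ∀ i, i ≠ c → (∀ b, 0 < cntS L c i b) → 4 ≤ cnt L i := by
      intro i hic hb
      obtain ⟨l, hl⟩ : ∃ l, l ∉ ({c, i} : Finset (Fin (n + 1))) := by
        by_contra hcon
        push Not at hcon
        have : (Finset.univ : Finset (Fin (n + 1))) ⊆ {c, i} := fun x _ => hcon x
        have := Finset.card_le_card this
        rw [Finset.card_univ, Fintype.card_fin] at this
        have := Finset.card_le_two (a := c) (b := i)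
        omega
      simp only [Finset.mem_insert, Finset.mem_singleton, not_or] at hl
      have hh := h2 c i l (Ne.symm hic) (Ne.symm hl.1) (Ne.symm hl.2) true
      have e1 := cntS_even hc (Ne.symm hic) (Ne.symm hl.1) hh true
      have e2 := cntS_even hc (Ne.symm hic) (Ne.symm hl.1) hh false
      have p1 := hb true
      have p2 := hb false
      rw [cnt_eq_add L c i]
      obtain ⟨j1, hj1⟩ := e1
      obtain ⟨j2, hj2⟩ := e2
      omega
    -- at most one deficient index
    obtain ⟨i₀, hi₀⟩ : ∃ i₀, ∀ k ∈ (Finset.univ.erase c).erase i₀, 4 ≤ cnt L k := by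
      by_cases hd : ∃ i, i ≠ c ∧ ∃ b, cntS L c i b = 0
      · obtain ⟨i, hic, b, hb⟩ := hd
        refine ⟨i, ?_⟩
        intro k hk
        rw [Finset.mem_erase, Finset.mem_erase] at hk
        obtain ⟨hki, hkc, -⟩ := hk
        apply hfull k hkc
        intro b'
        rcases four_conditions hc (Ne.symm hic) (Ne.symm hkc)
          (h2 c i k (Ne.symm hic) (Ne.symm hkc) (Ne.symm hki)) b b' with h | h
        · omega
        · exact h
      · push Not at hd
        refine ⟨c, ?_⟩
        intro k hk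
        rw [Finset.mem_erase, Finset.mem_erase] at hk
        exact hfull k hk.2.1 (fun b => Nat.pos_of_ne_zero (hd k hk.2.1 b))
    have hs : ∑ k ∈ (Finset.univ.erase c).erase i₀, 4 ≤ ∑ k, cnt L k :=
      (Finset.sum_le_sum hi₀).trans (Finset.sum_le_sum_of_subset
        ((Finset.erase_subset _ _).trans (Finset.erase_subset _ _)))
    rw [Finset.sum_const, smul_eq_mul] at hs
    have hcard : n - 1 ≤ ((Finset.univ.erase c).erase i₀).card := by
      have h3 := Finset.pred_card_le_card_erase (s := Finset.univ.erase c) (a := i₀)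
      rw [Finset.card_erase_of_mem (Finset.mem_univ c), Finset.card_univ, Fintype.card_fin] at h3
      omega
    have : (n - 1) * 4 ≤ ((Finset.univ.erase c).erase i₀).card * 4 := Nat.mul_le_mul_right _ hcard
    omega
  · push Not at hmiss
    have hk : ∀ k ∈ (Finset.univ : Finset (Fin (n + 1))), 2 ≤ cnt L k := by
      intro k _
      obtain ⟨j, hj⟩ := hev k
      have := hmiss k
      omega
    have hs := Finset.sum_le_sum hk
    rw [Finset.sum_const, Finset.card_univ, Fintype.card_fin, smul_eq_mul] at hs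
    omega

end count

end PL5

section PL6

open Subgroup
open scoped commutatorElement

section bounds
variable {n : ℕ}

lemma ev_eq_of_mem {Q : Type} [Group Q] (τ : Fin (n + 1) → Q) {k r : ℕ}
    (hQ : (⊤ : Subgroup Q).lowerCentralSeries k = ⊥) (hr : k ≤ r) {u v : FreeGroup (Fin n)}
    (h : u⁻¹ * v ∈ lc (FreeGroup (Fin n)) r) : ev τ u = ev τ v := by
  have h1 := lc_le_ker (ev τ) hQ hr h
  rw [MonoidHom.mem_ker, map_mul, map_inv] at h1
  exact (inv_mul_eq_one.1 h1)

/-- in class at least two the element `g` needs `2 n - 1` palindromes -/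
theorem lower_two {r : ℕ} (hr : 2 ≤ r) (l : List (FreeGroup (Fin n)))
    (hl : ∀ p ∈ l, ∃ w : List (Fin n × Bool), w.reverse = w ∧ FreeGroup.mk w = p)
    (h : l.prod⁻¹ * gTwo n ∈ lc (FreeGroup (Fin n)) r) : 2 * n - 1 ≤ l.length := by
  obtain ⟨L, -, hlen, hform⟩ := prod_form_even l hl
  have h1 : ∀ c, refl (chi c) L = 1 := by
    intro c
    have := hform _ (chi c) (chi_sq c)
    rw [refl, ← this, ev_eq_of_mem (chi c) lcs_comm (by omega : 1 ≤ r) h, ev_gTwo (chi_sq c),
      prod_chi]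
    decide
  have h2 : ∀ a b, a ≠ b → refl (tD a b) L = z8 := by
    intro a b hab
    have := hform _ (tD a b) (tD_sq a b)
    rw [refl, ← this, ev_eq_of_mem (tD a b) lcs_D8 hr h, ev_gTwo (tD_sq a b), tD_prod hab]
  have := lower_two_aux L h1 h2
  omega

/-- in class at least four the element `g ^ 2` needs `2 n + 1` palindromes -/
theorem lower_four (hn : 3 ≤ n) {r : ℕ} (hr : 4 ≤ r) (l : List (FreeGroup (Fin n)))
    (hl : ∀ p ∈ l, ∃ w : List (Fin n × Bool), w.reverse = w ∧ FreeGroup.mk w = p)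
    (h : l.prod⁻¹ * (gTwo n) ^ 2 ∈ lc (FreeGroup (Fin n)) r) : 2 * n + 1 ≤ l.length := by
  obtain ⟨L, heven, hlen, hform⟩ := prod_form_even l hl
  have h1 : ∀ c, refl (chi c) L = 1 := by
    intro c
    have := hform _ (chi c) (chi_sq c)
    rw [refl, ← this, ev_eq_of_mem (chi c) lcs_comm (by omega : 1 ≤ r) h, map_pow,
      ev_gTwo (chi_sq c), prod_chi]
    decide
  have h2 : ∀ c i l, c ≠ i → c ≠ l → i ≠ l → ∀ f, refl (tW c i l f) L = ⟨z8, z8, false⟩ := by
    intro c i l hci hcl hil f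
    have := hform _ (tW c i l f) (tW_sq c i l f)
    rw [refl, ← this, ev_eq_of_mem (tW c i l f) lcs_Wr hr h, map_pow, ev_gTwo (tW_sq c i l f),
      ← pow_mul, tW_prod hci hcl hil]
  have := lower_four_aux hn L h1 h2
  obtain ⟨j, hj⟩ := heven
  omega

end bounds

end PL6

end Pool.Agent.Helper39.PalNil
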