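import Mathlib

namespace Pool.Agent.Helper39.ParaFree

open Matrix Polynomial

section CH

variable {R : Type*} [CommRing R] {n : ℕ}

/-- conjugation by an invertible matrix, as a linear endomorphism of the space of all matrices -/
def ad (x : GL (Fin n) R) : Module.End R (Matrix (Fin n) (Fin n) R) where
  toFun Y := (x : Matrix (Fin n) (Fin n) R) * Y * ((x⁻¹ : GL (Fin n) R) : Matrix (Fin n) (Fin n) R)
  map_add' a b := by simp [mul_add, add_mul]
  map_smul' c a := by simp

theorem ad_apply (x : GL (Fin n) R) (Y : Matrix (Fin n) (Fin n) R) :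
    ad x Y = (x : Matrix (Fin n) (Fin n) R) * Y * ((x⁻¹ : GL (Fin n) R) : Matrix (Fin n) (Fin n) R) :=
  rfl

theorem ad_pow (x v : GL (Fin n) R) (i : ℕ) :
    ((ad x) ^ i) (v : Matrix (Fin n) (Fin n) R) =
      ((x ^ i * v * (x ^ i)⁻¹ : GL (Fin n) R) : Matrix (Fin n) (Fin n) R) := by
  induction i with
  | zero => simp
  | succ k ih =>
    rw [pow_succ', Module.End.mul_apply, ih, ad_apply, ← Units.val_mul, ← Units.val_mul]
    congr 1
    group

/-- If `u` commutes with `x ^ i * v * x ^ (-i)` for all `i < n ^ 2` then it commutes with all of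
them. -/
theorem comm_all (u x v : GL (Fin n) R)
    (h : ∀ i < n * n, u * (x ^ i * v * (x ^ i)⁻¹) = (x ^ i * v * (x ^ i)⁻¹) * u) (i : ℕ) :
    u * (x ^ i * v * (x ^ i)⁻¹) = (x ^ i * v * (x ^ i)⁻¹) * u := by
  rcases subsingleton_or_nontrivial R with hR | hR
  · exact Units.ext (Subsingleton.elim _ _)
  apply Units.ext
  simp only [Units.val_mul (u), Units.val_mul _ u]
  rw [← ad_pow]
  set f := ad x with hf
  have hmon : f.charpoly.Monic := LinearMap.charpoly_monic f
  have hdeg : f.charpoly.natDegree = n * n := by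
    rw [LinearMap.charpoly_natDegree, Module.finrank_matrix]
    simp
  have h1 : f ^ i = aeval f ((X ^ i : R[X]) %ₘ f.charpoly) := by
    conv_lhs => rw [← aeval_X (R := R) f, ← map_pow, ← modByMonic_add_div (X ^ i : R[X]) f.charpoly]
    rw [map_add, map_mul, LinearMap.aeval_self_charpoly, zero_mul, add_zero]
  rw [h1, aeval_eq_sum_range]
  have h2 : ((X ^ i : R[X]) %ₘ f.charpoly).natDegree + 1 ≤ n * n ∨
      ((X ^ i : R[X]) %ₘ f.charpoly) = 0 := by
    by_cases h0 : ((X ^ i : R[X]) %ₘ f.charpoly) = 0
    · exact Or.inr h0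
    · left
      have h3 := natDegree_modByMonic_lt (X ^ i : R[X]) hmon (by
        intro h4
        rw [h4, modByMonic_one] at h0
        exact h0 rfl)
      omega
  rcases h2 with h2 | h2
  · simp only [LinearMap.sum_apply, LinearMap.smul_apply]
    rw [Finset.mul_sum, Finset.sum_mul]
    refine Finset.sum_congr rfl fun k hk => ?_
    rw [Finset.mem_range] at hk
    rw [mul_smul_comm, smul_mul_assoc, ad_pow]
    have h5 := congrArg Units.val (h k (by omega))
    simp only [Units.val_mul (u), Units.val_mul _ u] at h5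
    rw [h5]
  · rw [h2]
    simp

end CH

end Pool.Agent.Helper39.ParaFree
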