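import Mathlib

namespace Pool.Agent.Helper39.ParaFree

open scoped commutatorElement

/-- upper triangular integer matrices indexed by the natural numbers -/
abbrev I := IncidenceAlgebra ℤ ℕ

/-- the units of that ring -/
abbrev U := Iˣ

/-- finitary unitriangular matrices whose superdiagonals number `1, …, j` vanish -/
def T (j : ℕ) : Subgroup U where
  carrier := {u | (∃ m, ∀ a b, m ≤ b → (u : I) a b = (1 : I) a b) ∧
    ∀ a b, b ≤ a + j → (u : I) a b = (1 : I) a b}
  one_mem' := ⟨⟨0, fun _ _ _ => rfl⟩, fun _ _ _ => rfl⟩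
  mul_mem' := by
    rintro u v ⟨⟨m, hm⟩, hu⟩ ⟨⟨m', hm'⟩, hv⟩
    refine ⟨⟨max m m', fun a b hb => ?_⟩, fun a b hb => ?_⟩
    · have h1 : ((u * v : U) : I) a b = ((u : I) * 1) a b := by
        rw [Units.val_mul, IncidenceAlgebra.mul_apply, IncidenceAlgebra.mul_apply]
        exact Finset.sum_congr rfl fun x _ => by rw [hm' x b (le_trans (le_max_right _ _) hb)]
      rw [h1, mul_one, hm a b (le_trans (le_max_left _ _) hb)]
    · have h1 : ((u * v : U) : I) a b = ((1 : I) * 1) a b := by
        rw [Units.val_mul, IncidenceAlgebra.mul_apply, IncidenceAlgebra.mul_apply]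
        refine Finset.sum_congr rfl fun x hx => ?_
        rw [Finset.mem_Icc] at hx
        rw [hu a x (by omega), hv x b (by omega)]
      rw [h1, mul_one]
  inv_mem' := by
    rintro u ⟨⟨m, hm⟩, hu⟩
    have key : ∀ a b, (∀ x, a ≤ x → (u : I) x b = (1 : I) x b) →
        ((u⁻¹ : U) : I) a b = (1 : I) a b := by
      intro a b h
      have h1 : (((u⁻¹ : U) : I) * (u : I)) a b = (((u⁻¹ : U) : I) * 1) a b := by
        rw [IncidenceAlgebra.mul_apply, IncidenceAlgebra.mul_apply]
        refine Finset.sum_congr rfl fun x hx => ?_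
        rw [Finset.mem_Icc] at hx
        rw [h x hx.1]
      rw [mul_one, Units.inv_mul] at h1
      exact h1.symm
    exact ⟨⟨m, fun a b hb => key a b fun x _ => hm x b hb⟩,
      fun a b hb => key a b fun x hx => hu x b (by omega)⟩

theorem mem_T {j : ℕ} {u : U} : u ∈ T j ↔ (∃ m, ∀ a b, m ≤ b → (u : I) a b = (1 : I) a b) ∧
    ∀ a b, b ≤ a + j → (u : I) a b = (1 : I) a b := Iff.rfl

theorem T_anti {i j : ℕ} (h : i ≤ j) : T j ≤ T i :=
  fun _ hu => ⟨hu.1, fun a b hb => hu.2 a b (by omega)⟩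

theorem col_mul {m : ℕ} {u v : U} (hu : ∀ a b, m ≤ b → (u : I) a b = (1 : I) a b)
    (hv : ∀ a b, m ≤ b → (v : I) a b = (1 : I) a b) (a b : ℕ) (hb : m ≤ b) :
    ((u * v : U) : I) a b = (1 : I) a b := by
  have h1 : ((u * v : U) : I) a b = ((u : I) * 1) a b := by
    rw [Units.val_mul, IncidenceAlgebra.mul_apply, IncidenceAlgebra.mul_apply]
    exact Finset.sum_congr rfl fun x _ => by rw [hv x b hb]
  rw [h1, mul_one, hu a b hb]

theorem col_inv {m : ℕ} {u : U} (hu : ∀ a b, m ≤ b → (u : I) a b = (1 : I) a b)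
    (a b : ℕ) (hb : m ≤ b) : ((u⁻¹ : U) : I) a b = (1 : I) a b := by
  have h1 : (((u⁻¹ : U) : I) * (u : I)) a b = (((u⁻¹ : U) : I) * 1) a b := by
    rw [IncidenceAlgebra.mul_apply, IncidenceAlgebra.mul_apply]
    refine Finset.sum_congr rfl fun x hx => ?_
    rw [hu x b hb]
  rw [mul_one, Units.inv_mul] at h1
  exact h1.symm

/-- product of two small matrices -/
theorem small_mul {j : ℕ} {p q : I} (hp : ∀ a b, b ≤ a + j → p a b = 0)
    (hq : ∀ a, q a a = 0) {a b : ℕ} (hb : b ≤ a + j + 1) : (p * q) a b = 0 := by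
  rw [IncidenceAlgebra.mul_apply]
  refine Finset.sum_eq_zero fun x hx => ?_
  rw [Finset.mem_Icc] at hx
  by_cases h : x ≤ a + j
  · rw [hp a x h, zero_mul]
  · have : x = b := by omega
    rw [this, hq, mul_zero]

theorem small_mul' {j : ℕ} {p q : I} (hp : ∀ a b, b ≤ a + j → p a b = 0)
    (hq : ∀ a, q a a = 0) {a b : ℕ} (hb : b ≤ a + j + 1) : (q * p) a b = 0 := by
  rw [IncidenceAlgebra.mul_apply]
  refine Finset.sum_eq_zero fun x hx => ?_
  rw [Finset.mem_Icc] at hx
  by_cases h : b ≤ x + j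
  · rw [hp x b h, mul_zero]
  · have : x = a := by omega
    rw [this, hq, zero_mul]

theorem sub_small {j : ℕ} {u : U} (hu : u ∈ T j) (a b : ℕ) (hb : b ≤ a + j) :
    ((u : I) - 1) a b = 0 := by
  rw [IncidenceAlgebra.sub_apply, hu.2 a b hb, sub_self]

theorem mul_entry {j : ℕ} {u v : U} (hu : u ∈ T j) (hv : v ∈ T 0) {a b : ℕ}
    (hb : b ≤ a + j + 1) :
    ((u * v : U) : I) a b = (u : I) a b + (v : I) a b - (1 : I) a b := by
  have h1 : ((u * v : U) : I) = ((u : I) - 1) * ((v : I) - 1) + ((u : I) + (v : I) - 1) := by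
    rw [Units.val_mul]
    simp only [mul_add, add_mul, mul_sub, sub_mul, mul_one, one_mul]
    abel
  rw [h1, IncidenceAlgebra.add_apply,
    small_mul (sub_small hu) (fun a => sub_small hv a a (by omega)) hb]
  simp [IncidenceAlgebra.sub_apply, IncidenceAlgebra.add_apply]

theorem mul_entry' {j : ℕ} {u v : U} (hu : u ∈ T j) (hv : v ∈ T 0) {a b : ℕ}
    (hb : b ≤ a + j + 1) :
    ((v * u : U) : I) a b = (u : I) a b + (v : I) a b - (1 : I) a b := by
  have h1 : ((v * u : U) : I) = ((v : I) - 1) * ((u : I) - 1) + ((u : I) + (v : I) - 1) := by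
    rw [Units.val_mul]
    simp only [mul_add, add_mul, mul_sub, sub_mul, mul_one, one_mul]
    abel
  rw [h1, IncidenceAlgebra.add_apply,
    small_mul' (sub_small hu) (fun a => sub_small hv a a (by omega)) hb]
  simp [IncidenceAlgebra.sub_apply, IncidenceAlgebra.add_apply]

theorem comm_mem {j : ℕ} {u v : U} (hu : u ∈ T j) (hv : v ∈ T 0) : ⁅u, v⁆ ∈ T (j + 1) := by
  have hu0 : u ∈ T 0 := T_anti (Nat.zero_le _) hu
  have h0 : ⁅u, v⁆ ∈ T 0 := by
    rw [commutatorElement_def]
    exact (T 0).mul_mem ((T 0).mul_mem ((T 0).mul_mem hu0 hv) ((T 0).inv_mem hu0))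
      ((T 0).inv_mem hv)
  refine ⟨h0.1, fun a b hb => ?_⟩
  have h1 : ⁅u, v⁆ = (u * v) * (v * u)⁻¹ := by
    rw [commutatorElement_def]; group
  have h2 : ((⁅u, v⁆ : U) : I) a b = (((v * u : U) : I) * (((v * u)⁻¹ : U) : I)) a b := by
    rw [h1, Units.val_mul, IncidenceAlgebra.mul_apply, IncidenceAlgebra.mul_apply]
    refine Finset.sum_congr rfl fun x hx => ?_
    rw [Finset.mem_Icc] at hx
    rw [mul_entry hu hv (by omega), mul_entry' hu hv (by omega)]
  rw [h2, Units.mul_inv]

/-- elementary matrix (zero unless `a < b`) -/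
def E (a b : ℕ) (c : ℤ) : I where
  toFun i k := if i = a ∧ k = b ∧ a < b then c else 0
  eq_zero_of_not_le' i k h := by
    rw [if_neg]
    rintro ⟨h1, h2, h3⟩
    omega

theorem E_apply (a b : ℕ) (c : ℤ) (i k : ℕ) :
    E a b c i k = if i = a ∧ k = b ∧ a < b then c else 0 := rfl

theorem E_mul {a b : ℕ} (c : ℤ) (p : I) (hab : a < b) (i k : ℕ) :
    (E a b c * p) i k = if i = a then c * p b k else 0 := by
  rw [IncidenceAlgebra.mul_apply]
  by_cases hi : i = a
  · subst hi
    rw [if_pos rfl]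
    by_cases hb : b ≤ k
    · rw [Finset.sum_eq_single b]
      · rw [E_apply, if_pos ⟨rfl, rfl, hab⟩]
      · intro x _ hx
        rw [E_apply, if_neg (fun h => hx h.2.1), zero_mul]
      · intro h
        exact absurd (Finset.mem_Icc.2 ⟨hab.le, hb⟩) h
    · rw [IncidenceAlgebra.apply_eq_zero_of_not_le hb, mul_zero]
      refine Finset.sum_eq_zero fun x hx => ?_
      rw [Finset.mem_Icc] at hx
      rw [E_apply, if_neg (by omega), zero_mul]
  · rw [if_neg hi]
    refine Finset.sum_eq_zero fun x hx => ?_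
    rw [E_apply, if_neg (fun h => hi h.1), zero_mul]

theorem mul_E {a b : ℕ} (c : ℤ) (p : I) (hab : a < b) (i k : ℕ) :
    (p * E a b c) i k = if k = b then p i a * c else 0 := by
  rw [IncidenceAlgebra.mul_apply]
  by_cases hk : k = b
  · subst hk
    rw [if_pos rfl]
    by_cases hb : i ≤ a
    · rw [Finset.sum_eq_single a]
      · rw [E_apply, if_pos ⟨rfl, rfl, hab⟩]
      · intro x _ hx
        rw [E_apply, if_neg (fun h => hx h.1), mul_zero]
      · intro h
        exact absurd (Finset.mem_Icc.2 ⟨hb, hab.le⟩) h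
    · rw [IncidenceAlgebra.apply_eq_zero_of_not_le hb, zero_mul]
      refine Finset.sum_eq_zero fun x hx => ?_
      rw [Finset.mem_Icc] at hx
      rw [E_apply, if_neg (by omega), mul_zero]
  · rw [if_neg hk]
    refine Finset.sum_eq_zero fun x hx => ?_
    rw [E_apply, if_neg (fun h => hk h.2.1), mul_zero]

theorem E_mul_E {a b a' b' : ℕ} (c c' : ℤ) (hab : a < b) (hab' : a' < b') (h : b ≠ a') :
    E a b c * E a' b' c' = 0 := by
  ext i k
  rw [E_mul c _ hab, E_apply a' b' c', if_neg (c := b = a' ∧ k = b' ∧ a' < b') (fun h' => h h'.1)]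
  simp

theorem E_mul_E' {a b b' : ℕ} (c c' : ℤ) (hab : a < b) (hab' : b < b') :
    E a b c * E b b' c' = E a b' (c * c') := by
  ext i k
  rw [E_mul c _ hab, E_apply, E_apply]
  split_ifs with h1 h2 h3 h3 <;> first | rfl | omega

theorem E_zero_of_not {a b : ℕ} (c : ℤ) (hab : ¬ a < b) : E a b c = 0 := by
  ext i k
  rw [E_apply, if_neg (fun h => hab h.2.2)]
  rfl

/-- elementary transvection -/
def t (a b : ℕ) (c : ℤ) : U where
  val := 1 + E a b c
  inv := 1 - E a b c
  val_inv := by
    by_cases hab : a < b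
    · have := E_mul_E c c hab hab (by omega : b ≠ a)
      have h2 : (1 + E a b c) * (1 - E a b c) = 1 - E a b c * E a b c := by
        simp only [mul_add, add_mul, mul_sub, sub_mul, mul_one, one_mul]
        abel
      rw [h2, this, sub_zero]
    · rw [E_zero_of_not c hab]; simp
  inv_val := by
    by_cases hab : a < b
    · have := E_mul_E c c hab hab (by omega : b ≠ a)
      have h2 : (1 - E a b c) * (1 + E a b c) = 1 - E a b c * E a b c := by
        simp only [mul_add, add_mul, mul_sub, sub_mul, mul_one, one_mul]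
        abel
      rw [h2, this, sub_zero]
    · rw [E_zero_of_not c hab]; simp

theorem t_val (a b : ℕ) (c : ℤ) : ((t a b c : U) : I) = 1 + E a b c := rfl

theorem t_mem (a d : ℕ) (c : ℤ) : t a (a + d + 1) c ∈ T d := by
  refine ⟨⟨a + d + 2, fun i k hk => ?_⟩, fun i k hk => ?_⟩
  · rw [t_val, IncidenceAlgebra.add_apply, E_apply, if_neg (by omega), add_zero]
  · rw [t_val, IncidenceAlgebra.add_apply, E_apply, if_neg (by omega), add_zero]

theorem t_comm (a d : ℕ) (c : ℤ) :
    ⁅t (a + 1) (a + 1 + d + 1) c, t a (a + 1) 1⁆ = t a (a + (d + 1) + 1) (-c) := by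
  have hX : a < a + 1 := by omega
  have hY : a + 1 < a + 1 + d + 1 := by omega
  have hZ : a < a + (d + 1) + 1 := by omega
  have hb : a + (d + 1) + 1 = a + 1 + d + 1 := by omega
  have h1 : t (a + 1) (a + 1 + d + 1) c * t a (a + 1) 1 =
      t a (a + (d + 1) + 1) (-c) * (t a (a + 1) 1 * t (a + 1) (a + 1 + d + 1) c) := by
    apply Units.ext
    simp only [Units.val_mul, t_val]
    rw [hb]
    have hZ' : a < a + 1 + d + 1 := by omega
    have e1 := E_mul_E c 1 hY hX (by omega)
    have e2 := E_mul_E' 1 c hX hY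
    have e3 := E_mul_E (-c) 1 hZ' hX (by omega)
    have e4 := E_mul_E (-c) c hZ' hY (by omega)
    have e5 := E_mul_E (-c) (1 * c) hZ' hZ' (by omega)
    have e6 : E a (a + 1 + d + 1) (-c) + E a (a + 1 + d + 1) (1 * c) = 0 := by
      ext i k
      rw [IncidenceAlgebra.add_apply, E_apply, E_apply]
      split_ifs <;> simp
    calc (1 + E (a + 1) (a + 1 + d + 1) c) * (1 + E a (a + 1) 1)
        = 1 + E (a + 1) (a + 1 + d + 1) c + E a (a + 1) 1 +
          E (a + 1) (a + 1 + d + 1) c * E a (a + 1) 1 := by noncomm_ring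
      _ = 1 + E (a + 1) (a + 1 + d + 1) c + E a (a + 1) 1 := by rw [e1, add_zero]
      _ = 1 + E (a + 1) (a + 1 + d + 1) c + E a (a + 1) 1 +
          (E a (a + 1 + d + 1) (-c) + E a (a + 1 + d + 1) (1 * c)) +
          E a (a + 1 + d + 1) (-c) * E a (a + 1) 1 +
          E a (a + 1 + d + 1) (-c) * E (a + 1) (a + 1 + d + 1) c +
          E a (a + 1 + d + 1) (-c) * E a (a + 1 + d + 1) (1 * c) := by
            rw [e3, e4, e5, e6]; simp
      _ = (1 + E a (a + 1 + d + 1) (-c)) *
          ((1 + E a (a + 1) 1) * (1 + E (a + 1) (a + 1 + d + 1) c)) := by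
            rw [← e2]; noncomm_ring
  rw [commutatorElement_def, mul_assoc, ← mul_inv_rev, mul_inv_eq_iff_eq_mul, h1]

theorem lcs_le (j : ℕ) : (T 0).lowerCentralSeries j ≤ T j := by
  induction j with
  | zero => exact le_rfl
  | succ j ih =>
    rw [Subgroup.lowerCentralSeries_succ]
    exact Subgroup.commutator_le.mpr fun u hu v hv => comm_mem (ih hu) hv

theorem t_mem_lcs (d : ℕ) : ∀ (a : ℕ) (c : ℤ),
    t a (a + d + 1) c ∈ (T 0).lowerCentralSeries d := by
  induction d with
  | zero => intro a c; exact t_mem a 0 c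
  | succ d ih =>
    intro a c
    have h := t_comm a d (-c)
    rw [neg_neg] at h
    rw [← h, Subgroup.lowerCentralSeries_succ]
    exact Subgroup.commutator_mem_commutator (ih (a + 1) (-c)) (t_mem a 0 1)

/-- the `(j+1)`-st superdiagonal -/
def chi (j : ℕ) (u : U) (a : ℕ) : ℤ := (u : I) a (a + j + 1)

theorem one_off {a j : ℕ} : (1 : I) a (a + j + 1) = 0 := by
  rw [IncidenceAlgebra.one_apply, if_neg (by omega)]

theorem chi_mul {j : ℕ} {u v : U} (hu : u ∈ T j) (hv : v ∈ T j) (a : ℕ) :
    chi j (u * v) a = chi j u a + chi j v a := by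
  unfold chi
  rw [mul_entry hu (T_anti (Nat.zero_le _) hv) le_rfl, one_off, sub_zero]

theorem chi_one (j a : ℕ) : chi j 1 a = 0 := one_off

theorem chi_inv {j : ℕ} {u : U} (hu : u ∈ T j) (a : ℕ) : chi j u⁻¹ a = - chi j u a := by
  have h := chi_mul ((T j).inv_mem hu) hu a
  rw [inv_mul_cancel, chi_one] at h
  linarith

theorem chi_t (a j : ℕ) (c : ℤ) (i : ℕ) : chi j (t a (a + j + 1) c) i = if i = a then c else 0 := by
  unfold chi
  rw [t_val, IncidenceAlgebra.add_apply, one_off, zero_add, E_apply]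
  split_ifs <;> first | rfl | omega

theorem mem_succ {j : ℕ} {u : U} (hu : u ∈ T j) (h : ∀ a, chi j u a = 0) : u ∈ T (j + 1) := by
  refine ⟨hu.1, fun a b hb => ?_⟩
  by_cases h1 : b ≤ a + j
  · exact hu.2 a b h1
  · have : b = a + j + 1 := by omega
    subst this
    rw [one_off]
    exact h a

theorem chi_of_mem_succ {j : ℕ} {u : U} (hu : u ∈ T (j + 1)) (a : ℕ) : chi j u a = 0 := by
  unfold chi
  rw [hu.2 a (a + j + 1) (by omega), one_off]

/-- product of transvections with a prescribed superdiagonal -/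
def B (j : ℕ) (f : ℕ → ℤ) : ℕ → U
  | 0 => 1
  | n + 1 => B j f n * t n (n + j + 1) (f n)

theorem B_mem (j : ℕ) (f : ℕ → ℤ) (n : ℕ) : B j f n ∈ (T 0).lowerCentralSeries j := by
  induction n with
  | zero => exact Subgroup.one_mem _
  | succ n ih => exact Subgroup.mul_mem _ ih (t_mem_lcs j n (f n))

theorem chi_B (j : ℕ) (f : ℕ → ℤ) (n a : ℕ) : chi j (B j f n) a = if a < n then f a else 0 := by
  induction n with
  | zero => rw [if_neg (by omega)]; exact chi_one j a
  | succ n ih =>
    change chi j (B j f n * t n (n + j + 1) (f n)) a = _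
    rw [chi_mul (lcs_le j (B_mem j f n)) (t_mem n j (f n)), ih, chi_t]
    split_ifs with h1 h2 h3 h4 h5 <;> first | omega | simp_all

theorem t_col {a j m : ℕ} {c : ℤ} (h : a + j + 1 < m ∨ c = 0) (i k : ℕ) (hk : m ≤ k) :
    ((t a (a + j + 1) c : U) : I) i k = (1 : I) i k := by
  rw [t_val, IncidenceAlgebra.add_apply, E_apply]
  rcases h with h | h
  · rw [if_neg (by omega), add_zero]
  · rw [h]; simp

theorem B_col {j m : ℕ} {f : ℕ → ℤ} (h : ∀ a, m ≤ a + j + 1 → f a = 0) (n : ℕ) (i k : ℕ)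
    (hk : m ≤ k) : ((B j f n : U) : I) i k = (1 : I) i k := by
  induction n generalizing i k with
  | zero => rfl
  | succ n ih =>
    refine col_mul (fun a b hb => ih a b hb) (fun a b hb => t_col ?_ a b hb) i k hk
    by_cases h1 : n + j + 1 < m
    · exact Or.inl h1
    · exact Or.inr (h n (by omega))

theorem mem_lcs_aux (m n : ℕ) : ∀ (j : ℕ) (u : U), u ∈ T j →
    (∀ a b, m ≤ b → (u : I) a b = (1 : I) a b) → m ≤ j + n →
    u ∈ (T 0).lowerCentralSeries j := by
  induction n with
  | zero =>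
    intro j u hu hc hm
    have : u = 1 := by
      apply Units.ext
      ext a b
      by_cases h : b ≤ a + j
      · exact hu.2 a b h
      · exact hc a b (by omega)
    rw [this]
    exact Subgroup.one_mem _
  | succ n ih =>
    intro j u hu hc hm
    have hz : ∀ a, m ≤ a + j + 1 → chi j u a = 0 := fun a ha => by
      unfold chi
      rw [hc a _ ha, one_off]
    set b := B j (chi j u) m with hb
    have hbm : b ∈ (T 0).lowerCentralSeries j := B_mem j _ m
    have hbT : b ∈ T j := lcs_le j hbm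
    have hbc : ∀ i k, m ≤ k → ((b : U) : I) i k = (1 : I) i k := B_col hz m
    have h1 : b⁻¹ * u ∈ T (j + 1) := by
      refine mem_succ ((T j).mul_mem ((T j).inv_mem hbT) hu) fun a => ?_
      rw [chi_mul ((T j).inv_mem hbT) hu, chi_inv hbT, hb, chi_B]
      split_ifs with h
      · ring
      · rw [hz a (by omega)]; ring
    have h2 := ih (j + 1) (b⁻¹ * u) h1 (col_mul (col_inv hbc) hc) (by omega)
    have h3 : b * (b⁻¹ * u) ∈ (T 0).lowerCentralSeries j :=
      Subgroup.mul_mem _ hbm (Subgroup.lowerCentralSeries_antitone _ (Nat.le_succ j) h2)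
    rwa [mul_inv_cancel_left] at h3

theorem lcs_eq (j : ℕ) : (T 0).lowerCentralSeries j = T j := by
  refine le_antisymm (lcs_le j) fun u hu => ?_
  obtain ⟨m, hm⟩ := hu.1
  exact mem_lcs_aux m m j u hu hm (by omega)

/-! ### the group `H` of finitary unitriangular matrices -/

/-- finitary unitriangular matrices -/
abbrev H := ↥(T 0)

theorem mem_lcs_iff {j : ℕ} {h : H} :
    h ∈ (⊤ : Subgroup H).lowerCentralSeries j ↔ (h : U) ∈ T j := by
  rw [← lcs_eq j, ← Subgroup.top_subtype_lowerCentralSeries (T 0) j, Subgroup.mem_map]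
  constructor
  · intro hh; exact ⟨h, hh, rfl⟩
  · rintro ⟨h', hh', he⟩
    have : h' = h := Subtype.ext he
    rwa [← this]

theorem iInf_lcs_H : ⨅ j, (⊤ : Subgroup H).lowerCentralSeries j = ⊥ := by
  rw [eq_bot_iff]
  intro h hh
  rw [Subgroup.mem_iInf] at hh
  rw [Subgroup.mem_bot]
  apply Subtype.ext
  apply Units.ext
  ext a b
  exact (mem_lcs_iff.1 (hh b)).2 a b (by omega)

theorem chi_finite {u : U} (hu : u ∈ T 0) (j : ℕ) : (Function.support (chi j u)).Finite := by
  obtain ⟨m, hm⟩ := hu.1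
  refine Set.Finite.subset (Set.finite_Iio m) fun a ha => ?_
  rw [Set.mem_Iio]
  by_contra hlt
  apply ha
  unfold chi
  rw [hm a _ (by omega), one_off]

/-- the superdiagonal as a homomorphism on the lower central series term -/
noncomputable def chiHom (j : ℕ) :
    (⊤ : Subgroup H).lowerCentralSeries j →* Multiplicative (ℕ →₀ ℤ) where
  toFun h := Multiplicative.ofAdd (Finsupp.ofSupportFinite (chi j (h : H)) (chi_finite (h : H).2 j))
  map_one' := by
    rw [← ofAdd_zero]
    congr 1
    ext a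
    exact chi_one j a
  map_mul' g h := by
    rw [← ofAdd_add]
    congr 1
    ext a
    exact chi_mul (mem_lcs_iff.1 g.2) (mem_lcs_iff.1 h.2) a

theorem chiHom_apply (j : ℕ) (h : (⊤ : Subgroup H).lowerCentralSeries j) (a : ℕ) :
    (Multiplicative.toAdd (chiHom j h)) a = chi j (h : H) a := rfl

theorem chiHom_surjective (j : ℕ) : Function.Surjective (chiHom j) := by
  intro f
  set g : ℕ →₀ ℤ := Multiplicative.toAdd f with hg
  obtain ⟨n, hn⟩ : ∃ n, ∀ a, n ≤ a → g a = 0 := by
    refine ⟨g.support.sup id + 1, fun a ha => ?_⟩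
    by_contra h
    have := Finset.le_sup (f := id) (Finsupp.mem_support_iff.2 h)
    simp only [id] at this
    omega
  have hB := B_mem j (fun a => g a) n
  have hB' := lcs_le j hB
  refine ⟨⟨⟨B j (fun a => g a) n, T_anti (Nat.zero_le _) hB'⟩, mem_lcs_iff.2 hB'⟩, ?_⟩
  apply Multiplicative.toAdd.injective
  ext a
  rw [chiHom_apply]
  change chi j (B j (fun a => g a) n) a = g a
  rw [chi_B]
  split_ifs with h
  · rfl
  · exact (hn a (by omega)).symm

theorem chiHom_ker (j : ℕ) : (chiHom j).ker =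
    ((⊤ : Subgroup H).lowerCentralSeries (j + 1)).subgroupOf
      ((⊤ : Subgroup H).lowerCentralSeries j) := by
  ext h
  rw [MonoidHom.mem_ker, Subgroup.mem_subgroupOf, mem_lcs_iff]
  constructor
  · intro hh
    refine mem_succ (mem_lcs_iff.1 h.2) fun a => ?_
    rw [← chiHom_apply, hh]
    rfl
  · intro hh
    apply Multiplicative.toAdd.injective
    ext a
    rw [chiHom_apply]
    exact chi_of_mem_succ hh a

theorem countable_H : Countable H := by
  let Φ : H → (ℕ × ℕ →₀ ℤ) := fun h => Finsupp.ofSupportFinite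
    (fun p => ((h : U) : I) p.1 p.2 - (1 : I) p.1 p.2) (by
      obtain ⟨m, hm⟩ := h.2.1
      refine Set.Finite.subset ((Set.finite_Iio m).prod (Set.finite_Iio m)) fun p hp => ?_
      rw [Set.mem_prod, Set.mem_Iio, Set.mem_Iio]
      rw [Function.mem_support] at hp
      have h2 : p.2 < m := by
        by_contra hlt
        exact hp (by rw [hm p.1 p.2 (by omega), sub_self])
      have h1 : p.1 ≤ p.2 := by
        by_contra hlt
        apply hp
        rw [IncidenceAlgebra.apply_eq_zero_of_not_le hlt,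
          IncidenceAlgebra.apply_eq_zero_of_not_le hlt, sub_self]
      exact ⟨by omega, h2⟩)
  have hΦ : Function.Injective Φ := by
    intro g h hgh
    apply Subtype.ext
    apply Units.ext
    ext a b
    have := DFunLike.congr_fun hgh (a, b)
    simp only [Φ, Finsupp.ofSupportFinite_coe] at this
    linarith
  exact hΦ.countable



/-- `1 + E 1 2 + ⋯ + E k (k+1)` -/
def X : ℕ → U
  | 0 => 1
  | k + 1 => t (k + 1) (k + 2) 1 * X k

theorem X_row (k : ℕ) : ∀ a b, k < a → ((X k : U) : I) a b = (1 : I) a b := by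
  induction k with
  | zero => intro a b _; rfl
  | succ k ih =>
    intro a b ha
    change ((t (k + 1) (k + 2) 1 * X k : U) : I) a b = _
    rw [Units.val_mul, t_val, add_mul, one_mul, IncidenceAlgebra.add_apply,
      E_mul 1 _ (by omega), if_neg (by omega), add_zero]
    exact ih a b (by omega)

theorem X_apply (k : ℕ) : ∀ a b, 1 ≤ a → a ≤ k →
    ((X k : U) : I) a b = if b = a then 1 else if b = a + 1 then 1 else 0 := by
  induction k with
  | zero => intro a b h1 h2; omega
  | succ k ih =>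
    intro a b h1 h2
    change ((t (k + 1) (k + 2) 1 * X k : U) : I) a b = _
    rw [Units.val_mul, t_val, add_mul, one_mul, IncidenceAlgebra.add_apply,
      E_mul 1 _ (by omega), one_mul]
    by_cases h : a = k + 1
    · rw [if_pos h, X_row k _ _ (by omega), X_row k _ _ (by omega),
        IncidenceAlgebra.one_apply, IncidenceAlgebra.one_apply]
      split_ifs <;> first | rfl | omega
    · rw [if_neg h, add_zero, ih a b h1 (by omega)]

theorem X_mem (k : ℕ) : X k ∈ T 0 := by
  induction k with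
  | zero => exact Subgroup.one_mem _
  | succ k ih => exact Subgroup.mul_mem _ (t_mem (k + 1) 0 1) ih

/-- entries of `X k ^ i` in row `1` -/
theorem X_pow (k i : ℕ) : (∀ c, i + 1 < c → ((X k ^ i : U) : I) 1 c = 0) ∧
    (i ≤ k → ((X k ^ i : U) : I) 1 (i + 1) = 1) := by
  induction i with
  | zero =>
    refine ⟨fun c hc => ?_, fun _ => ?_⟩
    · rw [pow_zero, Units.val_one, IncidenceAlgebra.one_apply, if_neg (by omega)]
    · rw [pow_zero, Units.val_one, IncidenceAlgebra.one_apply, if_pos rfl]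
  | succ i ih =>
    have hz : ∀ a c, 1 ≤ a → a + 1 < c → ((X k : U) : I) a c = 0 := by
      intro a c h1 hac
      by_cases h : a ≤ k
      · rw [X_apply k a c h1 h, if_neg (by omega), if_neg (by omega)]
      · rw [X_row k a c (by omega), IncidenceAlgebra.one_apply, if_neg (by omega)]
    refine ⟨fun c hc => ?_, fun hi => ?_⟩
    · rw [pow_succ, Units.val_mul, IncidenceAlgebra.mul_apply]
      refine Finset.sum_eq_zero fun x hx => ?_
      rw [Finset.mem_Icc] at hx
      by_cases h : i + 1 < x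
      · rw [ih.1 x h, zero_mul]
      · rw [hz x c (by omega) (by omega), mul_zero]
    · rw [pow_succ, Units.val_mul, IncidenceAlgebra.mul_apply, Finset.sum_eq_single (i + 1)]
      · rw [ih.2 (by omega), X_apply k (i + 1) (i + 1 + 1) (by omega) hi, if_neg (by omega),
          if_pos rfl, mul_one]
      · intro x hx hne
        rw [Finset.mem_Icc] at hx
        by_cases h : i + 1 < x
        · rw [ih.1 x h, zero_mul]
        · rw [hz x (i + 1 + 1) (by omega) (by omega), mul_zero]
      · intro h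
        exact absurd (Finset.mem_Icc.2 ⟨by omega, by omega⟩) h

theorem X_pow_row (k i : ℕ) (a b : ℕ) (ha : k < a) : ((X k ^ i : U) : I) a b = (1 : I) a b := by
  induction i with
  | zero => rfl
  | succ i ih =>
    rw [pow_succ', Units.val_mul]
    have : (((X k : U) : I) * ((X k ^ i : U) : I)) a b = ((1 : I) * ((X k ^ i : U) : I)) a b := by
      rw [IncidenceAlgebra.mul_apply, IncidenceAlgebra.mul_apply]
      exact Finset.sum_congr rfl fun x _ => by rw [X_row k a x ha]
    rw [this, one_mul, ih]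

theorem conj_val (k i : ℕ) : ((X k ^ i * t (k + 1) (k + 2) 1 * (X k ^ i)⁻¹ : U) : I) =
    1 + ((X k ^ i : U) : I) * E (k + 1) (k + 2) 1 := by
  have h1 : E (k + 1) (k + 2) 1 * ((X k ^ i : U) : I) = E (k + 1) (k + 2) 1 := by
    ext a b
    rw [E_mul 1 _ (by omega), one_mul, X_pow_row k i (k + 2) b (by omega),
      IncidenceAlgebra.one_apply, E_apply]
    split_ifs <;> first | rfl | omega
  have h2 : (1 + ((X k ^ i : U) : I) * E (k + 1) (k + 2) 1) * ((X k ^ i : U) : I) =
      ((X k ^ i * t (k + 1) (k + 2) 1 : U) : I) := by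
    rw [Units.val_mul, t_val, add_mul, mul_assoc, h1, one_mul, mul_add, mul_one]
  rw [Units.val_mul, ← h2, mul_assoc, Units.mul_inv, mul_one]

theorem comm_iff (k i : ℕ) : (t 0 1 1 * (X k ^ i * t (k + 1) (k + 2) 1 * (X k ^ i)⁻¹) =
    (X k ^ i * t (k + 1) (k + 2) 1 * (X k ^ i)⁻¹) * t 0 1 1) ↔
      ((X k ^ i : U) : I) 1 (k + 1) = 0 := by
  have h0 : (E (k + 1) (k + 2) 1 : I) * E 0 1 1 = 0 := E_mul_E 1 1 (by omega) (by omega) (by omega)
  have h1 : ((t 0 1 1 * (X k ^ i * t (k + 1) (k + 2) 1 * (X k ^ i)⁻¹) : U) : I) =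
      (((X k ^ i * t (k + 1) (k + 2) 1 * (X k ^ i)⁻¹) * t 0 1 1 : U) : I) +
        E 0 1 1 * (((X k ^ i : U) : I) * E (k + 1) (k + 2) 1) := by
    rw [Units.val_mul, Units.val_mul _ (t 0 1 1), conj_val, t_val]
    have h2 : (1 + ((X k ^ i : U) : I) * E (k + 1) (k + 2) 1) * (1 + E 0 1 1) =
        1 + ((X k ^ i : U) : I) * E (k + 1) (k + 2) 1 + E 0 1 1 +
          ((X k ^ i : U) : I) * (E (k + 1) (k + 2) 1 * E 0 1 1) := by
      simp only [mul_add, add_mul, mul_one, one_mul, mul_assoc]
      abel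
    rw [h2, h0, mul_zero, add_zero]
    simp only [mul_add, add_mul, mul_one, one_mul]
    abel
  have h3 : ∀ a b, ((E 0 1 1 : I) * (((X k ^ i : U) : I) * E (k + 1) (k + 2) 1)) a b =
      if a = 0 then (if b = k + 2 then ((X k ^ i : U) : I) 1 (k + 1) else 0) else 0 := by
    intro a b
    rw [E_mul 1 _ (by omega), one_mul, mul_E 1 _ (by omega), mul_one]
  constructor
  · intro h
    rw [← h] at h1
    have h4 := left_eq_add.1 h1
    have h5 := h3 0 (k + 2)
    rw [h4, if_pos rfl, if_pos rfl] at h5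
    exact h5.symm
  · intro h
    apply Units.ext
    rw [h1, add_eq_left]
    ext a b
    rw [h3, h]
    simp

end Pool.Agent.Helper39.ParaFree
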