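import Mathlib
import Pool.Agent.Helper189.FreeRep
import Pool.Agent.Helper39.ParaCH
import Pool.Agent.Helper39.ParaUT

namespace Pool.Agent.Helper39.ParaFree

open Pool.Agent.Helper189
open scoped commutatorElement

/-- the `i`-th factor of the lower central series -/
abbrev Fac (G : Type*) [Group G] (i : ℕ) : Type _ :=
  (⊤ : Subgroup G).lowerCentralSeries i ⧸
    ((⊤ : Subgroup G).lowerCentralSeries (i + 1)).subgroupOf ((⊤ : Subgroup G).lowerCentralSeries i)

theorem fac_comm {G : Type*} [Group G] {i : ℕ} (a b : Fac G i) : a * b = b * a := by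
  induction a using QuotientGroup.induction_on with
  | H a =>
    induction b using QuotientGroup.induction_on with
    | H b =>
      rw [← QuotientGroup.mk_mul, ← QuotientGroup.mk_mul]
      apply Eq.symm
      rw [QuotientGroup.eq, Subgroup.mem_subgroupOf]
      have h : (((b * a)⁻¹ * (a * b) : (⊤ : Subgroup G).lowerCentralSeries i) : G) =
          ⁅((a : G))⁻¹, ((b : G))⁻¹⁆ := by
        rw [commutatorElement_def]
        simp only [Subgroup.coe_mul, Subgroup.coe_inv, mul_inv_rev, inv_inv]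
        group
      rw [h, Subgroup.lowerCentralSeries_succ]
      exact Subgroup.commutator_mem_commutator (Subgroup.inv_mem _ a.2) (Subgroup.mem_top _)

theorem mem_prod_lcs {G K : Type*} [Group G] [Group K] {i : ℕ} {x : G × K} :
    x ∈ (⊤ : Subgroup (G × K)).lowerCentralSeries i ↔
      x.1 ∈ (⊤ : Subgroup G).lowerCentralSeries i ∧
        x.2 ∈ (⊤ : Subgroup K).lowerCentralSeries i := by
  rw [Subgroup.top_lowerCentralSeries_prod, Subgroup.mem_prod]

/-- the map on factors of a product -/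
def prodHom (G K : Type*) [Group G] [Group K] (i : ℕ) :
    (⊤ : Subgroup (G × K)).lowerCentralSeries i →* Fac G i × Fac K i where
  toFun x := (QuotientGroup.mk ⟨(x : G × K).1, (mem_prod_lcs.1 x.2).1⟩,
    QuotientGroup.mk ⟨(x : G × K).2, (mem_prod_lcs.1 x.2).2⟩)
  map_one' := rfl
  map_mul' _ _ := rfl

theorem prodHom_surjective (G K : Type*) [Group G] [Group K] (i : ℕ) :
    Function.Surjective (prodHom G K i) := by
  rintro ⟨a, b⟩
  induction a using QuotientGroup.induction_on with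
  | H a =>
    induction b using QuotientGroup.induction_on with
    | H b =>
      exact ⟨⟨((a : G), (b : K)), mem_prod_lcs.2 ⟨a.2, b.2⟩⟩, rfl⟩

theorem prodHom_ker (G K : Type*) [Group G] [Group K] (i : ℕ) :
    (prodHom G K i).ker = ((⊤ : Subgroup (G × K)).lowerCentralSeries (i + 1)).subgroupOf
      ((⊤ : Subgroup (G × K)).lowerCentralSeries i) := by
  ext x
  rw [MonoidHom.mem_ker, Subgroup.mem_subgroupOf, mem_prod_lcs]
  change (_, _) = ((1 : Fac G i), (1 : Fac K i)) ↔ _
  rw [Prod.mk.injEq, QuotientGroup.eq_one_iff, QuotientGroup.eq_one_iff, Subgroup.mem_subgroupOf,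
    Subgroup.mem_subgroupOf]

theorem fac_prod (G K : Type*) [Group G] [Group K] (i : ℕ) :
    Nonempty (Fac (G × K) i ≃* Fac G i × Fac K i) :=
  ⟨(QuotientGroup.quotientMulEquivOfEq (prodHom_ker G K i).symm).trans
    (QuotientGroup.quotientKerEquivOfSurjective _ (prodHom_surjective G K i))⟩

theorem fac_H (i : ℕ) : Nonempty (Fac H i ≃* Multiplicative (ℕ →₀ ℤ)) :=
  ⟨(QuotientGroup.quotientMulEquivOfEq (chiHom_ker i).symm).trans
    (QuotientGroup.quotientKerEquivOfSurjective _ (chiHom_surjective i))⟩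

/-- a surjective homomorphism induces surjections on the factors -/
theorem fac_surj {G K : Type*} [Group G] [Group K] (f : G →* K) (hf : Function.Surjective f)
    (i : ℕ) : ∃ p : Fac G i →* Fac K i, Function.Surjective p := by
  have hmap : ∀ j, ((⊤ : Subgroup G).lowerCentralSeries j).map f =
      (⊤ : Subgroup K).lowerCentralSeries j := by
    intro j
    rw [Subgroup.map_lowerCentralSeries, Subgroup.map_top_of_surjective f hf]
  let g : (⊤ : Subgroup G).lowerCentralSeries i →* (⊤ : Subgroup K).lowerCentralSeries i :=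
    (f.comp (Subgroup.subtype _)).codRestrict _ (fun x => by
      rw [← hmap i]
      exact Subgroup.mem_map_of_mem f x.2)
  have hg : Function.Surjective g := by
    rintro ⟨y, hy⟩
    have hy' := hy
    rw [← hmap i] at hy'
    obtain ⟨x, hx, hxy⟩ := hy'
    exact ⟨⟨x, hx⟩, Subtype.ext hxy⟩
  refine ⟨QuotientGroup.map _ _ g ?_, ?_⟩
  · intro x hx
    rw [Subgroup.mem_subgroupOf] at hx
    rw [Subgroup.mem_comap, Subgroup.mem_subgroupOf, ← hmap (i + 1)]
    exact Subgroup.mem_map_of_mem f hx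
  · intro y
    induction y using QuotientGroup.induction_on with
    | H y =>
      obtain ⟨x, rfl⟩ := hg y
      exact ⟨QuotientGroup.mk x, rfl⟩

/-- the free abelian group of countable rank absorbs a copy of itself -/
theorem exists_sigma : Nonempty (Multiplicative (ℕ →₀ ℤ) ≃*
    Multiplicative (ℕ →₀ ℤ) × Multiplicative (ℕ →₀ ℤ)) := by
  have e1 : (ℕ →₀ ℤ) ≃+ (ℕ ⊕ ℕ →₀ ℤ) := Finsupp.domCongr Equiv.natSumNatEquivNat.symm
  have e2 : (ℕ ⊕ ℕ →₀ ℤ) ≃+ (ℕ →₀ ℤ) × (ℕ →₀ ℤ) := Finsupp.sumFinsuppAddEquivProdFinsupp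
  have e3 := e1.trans e2
  exact ⟨{
    toFun := fun x => (Multiplicative.ofAdd (e3 x.toAdd).1, Multiplicative.ofAdd (e3 x.toAdd).2)
    invFun := fun y => Multiplicative.ofAdd (e3.symm (y.1.toAdd, y.2.toAdd))
    left_inv := fun x => by simp
    right_inv := fun y => by simp
    map_mul' := fun x y => by simp }⟩

theorem exists_section {Q : Type*} [CommGroup Q] (p : Q →* Multiplicative (ℕ →₀ ℤ))
    (hp : Function.Surjective p) : ∃ s : Multiplicative (ℕ →₀ ℤ) →* Q, ∀ a, p (s a) = a := by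
  let p' : Additive Q →+ (ℕ →₀ ℤ) := MonoidHom.toAdditiveLeft p
  have hp' : Function.Surjective p'.toIntLinearMap := fun y => by
    obtain ⟨x, hx⟩ := hp (Multiplicative.ofAdd y)
    exact ⟨Additive.ofMul x, congrArg Multiplicative.toAdd hx⟩
  obtain ⟨s, hs⟩ := Module.projective_lifting_property p'.toIntLinearMap
    (LinearMap.id : (ℕ →₀ ℤ) →ₗ[ℤ] (ℕ →₀ ℤ)) hp'
  refine ⟨AddMonoidHom.toMultiplicativeLeft s.toAddMonoidHom, fun a => ?_⟩
  have := LinearMap.congr_fun hs a.toAdd
  apply Multiplicative.toAdd.injective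
  exact this

theorem absorb {Q : Type*} [CommGroup Q] (p : Q →* Multiplicative (ℕ →₀ ℤ))
    (hp : Function.Surjective p) : Nonempty (Q × Multiplicative (ℕ →₀ ℤ) ≃* Q) := by
  obtain ⟨s, hs⟩ := exists_section p hp
  obtain ⟨σ⟩ := exists_sigma
  refine ⟨{
    toFun := fun x => x.1 * (s (p x.1))⁻¹ * s (σ.symm (p x.1, x.2))
    invFun := fun r => (r * (s (p r))⁻¹ * s (σ (p r)).1, (σ (p r)).2)
    left_inv := ?_
    right_inv := ?_
    map_mul' := ?_ }⟩
  · rintro ⟨q, a⟩
    have h1 : p (q * (s (p q))⁻¹ * s (σ.symm (p q, a))) = σ.symm (p q, a) := by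
      rw [map_mul, map_mul, map_inv, hs, hs, mul_inv_cancel, one_mul]
    simp only [h1, MulEquiv.apply_symm_apply]
    refine Prod.ext ?_ rfl
    simp only
    group
  · intro r
    have h1 : p (r * (s (p r))⁻¹ * s (σ (p r)).1) = (σ (p r)).1 := by
      rw [map_mul, map_mul, map_inv, hs, hs, mul_inv_cancel, one_mul]
    simp only [h1, Prod.mk.eta, MulEquiv.symm_apply_apply]
    group
  · rintro ⟨q, a⟩ ⟨q', a'⟩
    simp only [Prod.mk_mul_mk]
    have h1 : σ.symm (p (q * q'), a * a') = σ.symm (p q, a) * σ.symm (p q', a') := by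
      rw [← map_mul σ.symm, map_mul p]; rfl
    rw [h1]
    simp only [map_mul, mul_inv_rev, mul_comm, mul_left_comm, mul_assoc]

theorem absorb' {Q : Type*} [Group Q] (hc : ∀ a b : Q, a * b = b * a)
    (p : Q →* Multiplicative (ℕ →₀ ℤ)) (hp : Function.Surjective p) :
    Nonempty (Q × Multiplicative (ℕ →₀ ℤ) ≃* Q) := by
  letI : CommGroup Q := { (inferInstance : Group Q) with mul_comm := hc }
  exact absorb p hp

/-- The factors of `F × H` agree with those of the free group `F` of countable rank. -/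
theorem factors (i : ℕ) : Nonempty (Fac (FreeGroup ℕ × H) i ≃* Fac (FreeGroup ℕ) i) := by
  haveI := countable_H
  obtain ⟨g, hg⟩ := exists_surjective_nat H
  have hf : Function.Surjective (FreeGroup.lift g) := fun h => by
    obtain ⟨n, rfl⟩ := hg h
    exact ⟨FreeGroup.of n, by simp⟩
  obtain ⟨p, hp⟩ := fac_surj (FreeGroup.lift g) hf i
  obtain ⟨e⟩ := fac_H i
  obtain ⟨e1⟩ := fac_prod (FreeGroup ℕ) H i
  obtain ⟨e2⟩ := absorb' (fac_comm (G := FreeGroup ℕ) (i := i)) (e.toMonoidHom.comp p)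
    (e.surjective.comp hp)
  exact ⟨e1.trans ((MulEquiv.prodCongr (MulEquiv.refl _) e).trans e2)⟩

theorem residual : ⨅ i, (⊤ : Subgroup (FreeGroup ℕ × H)).lowerCentralSeries i = ⊥ := by
  rw [eq_bot_iff]
  rintro ⟨g, h⟩ hx
  rw [Subgroup.mem_iInf] at hx
  have hx1 : ∀ n, g ∈ (⊤ : Subgroup (FreeGroup ℕ)).lowerCentralSeries n ∧
      h ∈ (⊤ : Subgroup H).lowerCentralSeries n := by
    intro n
    have := hx n
    rw [Subgroup.top_lowerCentralSeries_prod] at this
    exact this
  have h1 : g = 1 := FreeRep.lcs_bot fun n => (hx1 n).1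
  have h2 : h = 1 := by
    have : h ∈ ⨅ j, (⊤ : Subgroup H).lowerCentralSeries j :=
      Subgroup.mem_iInf.2 fun n => (hx1 n).2
    rwa [iInf_lcs_H, Subgroup.mem_bot] at this
  rw [h1, h2]
  exact Subgroup.one_mem _

theorem not_linear {R : Type*} [CommRing R] {n : ℕ} (f : H →* GL (Fin n) R) :
    ¬ Function.Injective f := by
  intro hf
  set k := n * n with hk
  let u : H := ⟨t 0 1 1, t_mem 0 0 1⟩
  let x : H := ⟨X k, X_mem k⟩
  let v : H := ⟨t (k + 1) (k + 2) 1, t_mem (k + 1) 0 1⟩
  have key : ∀ i, (u * (x ^ i * v * (x ^ i)⁻¹) = (x ^ i * v * (x ^ i)⁻¹) * u) ↔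
      ((X k ^ i : U) : I) 1 (k + 1) = 0 := by
    intro i
    rw [← comm_iff, Subtype.ext_iff]
    rfl
  have h1 := comm_all (f u) (f x) (f v) (fun i hi => by
    have := (key i).2 ((X_pow k i).1 (k + 1) (by omega))
    have := congrArg f this
    simpa only [map_mul, map_pow, map_inv] using this) k
  have h2 : f (u * (x ^ k * v * (x ^ k)⁻¹)) = f ((x ^ k * v * (x ^ k)⁻¹) * u) := by
    simpa only [map_mul, map_pow, map_inv] using h1
  have h3 := (key k).1 (hf h2)
  rw [(X_pow k k).2 le_rfl] at h3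
  exact one_ne_zero h3

end Pool.Agent.Helper39.ParaFree
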