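import Mathlib
import Pool.Agent.Helper39.StackDef
import Pool.Agent.Helper39.StackPar

set_option autoImplicit false

namespace Pool.Agent.Helper39.StackGrow

open Pool.Agent.Helper39.StackDef Pool.Agent.Helper39.StackPar

theorem drop_gt (x : ℕ) (st : List ℕ) (hp : st.Pairwise (· < ·)) (hx : x ∉ st) :
    ∀ z ∈ st.dropWhile (· < x), x < z := by
  induction st with
  | nil => simp
  | cons y st ih =>
    intro z hz
    have hp' := List.pairwise_cons.1 hp
    rw [List.dropWhile_cons] at hz
    by_cases hyx : y < x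
    · simp only [hyx, decide_true, if_true] at hz
      exact ih hp'.2 (fun h => hx (by simp [h])) z hz
    · simp only [hyx, decide_false, Bool.false_eq_true, if_false] at hz
      have hne : x ≠ y := by rintro rfl; exact hx (by simp)
      rcases List.mem_cons.1 hz with rfl | hz
      · omega
      · have := hp'.1 z hz; omega

/-- the stack increases from the top -/
theorem stk_sorted (w st : List ℕ) (hs : st.Pairwise (· < ·)) (hn : w.Nodup)
    (hd : ∀ x ∈ st, x ∉ w) : (stk st w).Pairwise (· < ·) := by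
  induction w generalizing st with
  | nil => simpa [stk] using hs
  | cons x w ih =>
    simp only [stk]
    have hn' := List.nodup_cons.1 hn
    refine ih _ ?_ hn'.2 ?_
    · exact List.pairwise_cons.2 ⟨drop_gt x st hs (fun h => hd x h (by simp)),
        hs.sublist (List.dropWhile_sublist _)⟩
    · intro z hz hzw
      rcases List.mem_cons.1 hz with rfl | hz
      · exact hn'.1 hzw
      · exact hd z ((List.dropWhile_sublist _).subset hz) (by simp [hzw])

theorem Bs_sorted' (t : ℕ) (u B : List ℕ) (hB : B.Pairwise (· < ·))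
    (hn : u.Nodup) (hd : ∀ x ∈ u, x ∉ B) : (Bs t u B).Pairwise (· < ·) := by
  induction t generalizing u B with
  | zero => exact hB
  | succ t ih =>
    simp only [Bs]
    have hp := out_stk_perm u
    have hnx : (out [] u ++ stk [] u).Nodup := hp.nodup_iff.2 hn
    have hnx' := List.nodup_append.1 hnx
    refine ih _ _ ?_ hnx'.1 ?_
    · refine run_sorted _ _ (stk_sorted u [] (by simp) hn (by simp)) hB ?_
      intro z hz
      exact hd z (hp.subset (by simp [hz]))
    · intro z hz hz2
      rcases List.mem_append.1 ((run_perm _ _).mem_iff.1 hz2) with h | h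
      · exact hnx'.2.2 z hz z h rfl
      · exact hd z (hp.subset (by simp [hz])) h

theorem clear_mem (t n : ℕ) (u : List ℕ) (hu : u.Perm (List.range' 2 n))
    (hc : (out [])^[t] u = []) : u ++ [1] ∈ setA t (n + 1) := by
  have hn : u.Nodup := hu.nodup_iff.2 List.nodup_range'
  have h2 : ∀ z ∈ u, 1 < z := by
    intro z hz
    have := hu.mem_iff.1 hz
    rw [List.mem_range'_1] at this
    omega
  have hw : (u ++ [1]).Perm (List.range' 1 (n + 1)) := by
    rw [List.range'_succ]
    exact (List.perm_append_comm).trans (by simpa using hu)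
  rw [setA, Finset.mem_filter]
  refine ⟨mem_words.2 hw, ?_⟩
  have h3 := iter_low t 1 u [] h2 (by simp)
  rw [hc, List.nil_append] at h3
  have h4 : (stackSort^[t] (u ++ [1])).Pairwise (· < ·) := by
    rw [h3, List.pairwise_cons]
    refine ⟨?_, Bs_sorted' t u [] (by simp) hn (by simp)⟩
    intro z hz
    have hp : (1 :: Bs t u []).Perm (u ++ [1]) := by rw [← h3]; exact iter_sort_perm t _
    have hnd : (1 :: Bs t u []).Nodup := by
      rw [hp.nodup_iff, hw.nodup_iff]; exact List.nodup_range'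
    have h5 := hp.subset (List.mem_cons_of_mem 1 hz)
    rcases List.mem_append.1 h5 with h | h
    · exact h2 z h
    · exfalso
      have : z = 1 := by simpa using h
      subst this
      exact (List.nodup_cons.1 hnd).1 hz
  exact List.Perm.eq_of_pairwise (fun a b _ _ h1 h2 => absurd h1 (by omega)) h4
    List.pairwise_lt_range' ((iter_sort_perm t _).trans hw)

/-! blocks -/

def IsB : List ℕ → List ℕ → Prop
  | b, [] => b = []
  | b, m :: D => ∃ U, b = U ++ [m] ∧ U.Perm D

theorem IsB_sort (U D : List ℕ) (hD : D.Pairwise (· > ·)) (h : U.Perm D) : IsB (stackSort U) D := by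
  cases D with
  | nil =>
    have : U = [] := h.eq_nil
    subst this
    rfl
  | cons m D =>
    have hD' := List.pairwise_cons.1 hD
    have hnD : (m :: D).Nodup := hD.imp (fun h => by omega)
    have hn : U.Nodup := h.nodup_iff.2 hnD
    have h0 : U ≠ [] := by
      rintro rfl
      exact absurd h.symm.eq_nil (by simp)
    obtain ⟨x, m', e, hx⟩ := sort_form U h0 hn
    have hp : (x ++ [m']).Perm (m :: D) := by rw [← e]; exact (sort_perm U).trans h
    have hm : m' = m := by
      have h1 : m' ∈ m :: D := hp.subset (by simp)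
      have h2 : m ∈ x ++ [m'] := hp.symm.subset (by simp)
      rcases List.mem_cons.1 h1 with h1 | h1
      · exact h1
      · have h3 := hD'.1 m' h1
        rcases List.mem_append.1 h2 with h2 | h2
        · have := hx m h2; omega
        · have : m = m' := by simpa using h2
          exact this.symm
    subst hm
    refine ⟨x, e, ?_⟩
    have h5 : (m' :: x).Perm (m' :: D) := (List.perm_append_comm (l₁ := [m']) (l₂ := x)).trans hp
    exact h5.cons_inv

theorem IsB_perm {b D : List ℕ} (h : IsB b D) : b.Perm D := by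
  cases D with
  | nil => rw [show b = [] from h]
  | cons m D =>
    obtain ⟨U, rfl, hU⟩ := h
    exact (List.perm_append_comm).trans (hU.cons m)

theorem out_blocks (k : ℕ) (bs Ds : List (List ℕ)) (h : List.Forall₂ IsB bs Ds)
    (hlen : ∀ D ∈ Ds, D.length = k + 1) (hdesc : ∀ D ∈ Ds, D.Pairwise (· > ·))
    (hrows : Ds.Pairwise (fun D D' => List.Forall₂ (· > ·) D D')) :
    ∃ bs', out [] bs.flatten = bs'.flatten ∧ List.Forall₂ IsB bs' (Ds.map List.tail) := by
  induction h with
  | nil => exact ⟨[], by simp [out], by simp⟩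
  | @cons b D bs Ds hb hbs ih =>
    have hp := List.pairwise_cons.1 hrows
    obtain ⟨bs', e, hbs'⟩ := ih (fun D hD => hlen D (by simp [hD]))
      (fun D hD => hdesc D (by simp [hD])) hp.2
    have hl := hlen D (by simp)
    obtain ⟨m, D', rfl⟩ : ∃ m D', D = m :: D' := by
      cases D with
      | nil => simp at hl
      | cons m D' => exact ⟨m, D', rfl⟩
    obtain ⟨U, rfl, hU⟩ := hb
    have hdD := List.pairwise_cons.1 (hdesc (m :: D') (by simp))
    have hUm : ∀ x ∈ U, x < m := fun x hx => hdD.1 x (hU.mem_iff.1 hx)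
    have hRm : ∀ x ∈ bs.flatten, x < m := by
      intro x hx
      obtain ⟨b', hb', hxb⟩ := List.mem_flatten.1 hx
      have key : ∀ (bs Ds : List (List ℕ)), List.Forall₂ IsB bs Ds → ∀ b' ∈ bs, ∃ D' ∈ Ds, IsB b' D' := by
        intro bs Ds hF
        induction hF with
        | nil => simp
        | cons h1 _ ih =>
          intro b' hb'
          rcases List.mem_cons.1 hb' with rfl | hb'
          · exact ⟨_, by simp, h1⟩
          · obtain ⟨D', h2, h3⟩ := ih b' hb'
            exact ⟨D', by simp [h2], h3⟩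
      obtain ⟨D2, hD2, hB2⟩ := key _ _ hbs b' hb'
      have hx2 : x ∈ D2 := (IsB_perm hB2).mem_iff.1 hxb
      have h4 := hp.1 D2 hD2
      have hd2 := hdesc D2 (by simp [hD2])
      cases h4 with
      | @cons _ m2 _ D2' h5 h6 =>
        have := List.pairwise_cons.1 hd2
        rcases List.mem_cons.1 hx2 with rfl | hx2
        · exact h5
        · have := this.1 x hx2; omega
    refine ⟨stackSort U :: bs', ?_, ?_⟩
    · have e1 : ((U ++ [m]) :: bs).flatten = U ++ m :: bs.flatten := by simp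
      rw [e1, (split1 U bs.flatten m hUm hRm).1, e]
      simp
    · rw [List.map_cons]
      exact List.Forall₂.cons (IsB_sort U D' hdD.2 hU) hbs'

theorem clear_blocks (k : ℕ) (bs Ds : List (List ℕ)) (h : List.Forall₂ IsB bs Ds)
    (hlen : ∀ D ∈ Ds, D.length = k) (hdesc : ∀ D ∈ Ds, D.Pairwise (· > ·))
    (hrows : Ds.Pairwise (fun D D' => List.Forall₂ (· > ·) D D')) :
    (out [])^[k] bs.flatten = [] := by
  induction k generalizing bs Ds with
  | zero =>
    simp only [Function.iterate_zero, id]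
    induction h with
    | nil => simp
    | @cons b D bs Ds hb hbs ih =>
      have hD : D = [] := List.length_eq_zero_iff.1 (hlen D (by simp))
      subst hD
      have hb' : b = [] := hb
      subst hb'
      simp only [List.flatten_cons, List.nil_append]
      exact ih (fun D hD => hlen D (by simp [hD])) (fun D hD => hdesc D (by simp [hD]))
        (List.pairwise_cons.1 hrows).2
  | succ k ih =>
    obtain ⟨bs', e, h'⟩ := out_blocks k bs Ds h hlen hdesc hrows
    rw [Function.iterate_succ_apply, e]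
    refine ih bs' (Ds.map List.tail) h' ?_ ?_ ?_
    · intro D hD
      obtain ⟨D', hD', rfl⟩ := List.mem_map.1 hD
      rw [List.length_tail, hlen D' hD']
      omega
    · intro D hD
      obtain ⟨D', hD', rfl⟩ := List.mem_map.1 hD
      exact (hdesc D' hD').tail
    · rw [List.pairwise_map]
      refine hrows.imp ?_
      intro D D' hDD
      cases hDD with
      | nil => exact List.Forall₂.nil
      | cons _ h => exact h


/-! words from labels -/

/-- the value (numbered from the top) of the `j`-th element with label `i` -/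
noncomputable def xx (c : ℕ → ℕ) (j i : ℕ) : ℕ := Nat.nth (fun v => c v = i) j

/-- labels `0, ..., s`, every label used `r` times among the first `N = r (s+1)` values, and
every initial segment has at least as many labels `i` as `i + 1` -/
structure Lab (s r : ℕ) (c : ℕ → ℕ) : Prop where
  inf : ∀ i ≤ s, {v | c v = i}.Infinite
  lt : ∀ v < r * (s + 1), c v ≤ s
  cnt : ∀ i ≤ s, Nat.count (fun v => c v = i) (r * (s + 1)) = r
  bal : ∀ v ≤ r * (s + 1), ∀ i < s,
    Nat.count (fun w => c w = i + 1) v ≤ Nat.count (fun w => c w = i) v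

theorem Lab.x_lt {s r : ℕ} {c : ℕ → ℕ} (h : Lab s r c) {i j : ℕ} (hi : i ≤ s) (hj : j < r) :
    xx c j i < r * (s + 1) :=
  Nat.nth_lt_of_lt_count (by rw [h.cnt i hi]; exact hj)

theorem Lab.x_c {s r : ℕ} {c : ℕ → ℕ} (h : Lab s r c) {i : ℕ} (j : ℕ) (hi : i ≤ s) :
    c (xx c j i) = i :=
  Nat.nth_mem_of_infinite (h.inf i hi) j

theorem Lab.x_mono {s r : ℕ} {c : ℕ → ℕ} (h : Lab s r c) {i j j' : ℕ} (hi : i ≤ s) (hj : j < j') :
    xx c j i < xx c j' i :=
  Nat.nth_strictMono (h.inf i hi) hj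

theorem Lab.x_step {s r : ℕ} {c : ℕ → ℕ} (h : Lab s r c) {i j : ℕ} (hi : i < s) (hj : j < r) :
    xx c j i < xx c j (i + 1) := by
  have h1 := h.x_lt (i := i + 1) (by omega) hj
  have h2 := h.bal (xx c j (i + 1) + 1) (by omega) i hi
  have h3 : Nat.count (fun w => c w = i + 1) (xx c j (i + 1) + 1) = j + 1 := by
    rw [Nat.count_succ, if_pos (h.x_c j (by omega))]
    rw [xx, Nat.count_nth_of_infinite (h.inf (i + 1) (by omega))]
  rw [h3] at h2
  have h4 : xx c j i < xx c j (i + 1) + 1 := Nat.nth_lt_of_lt_count (by omega)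
  have h5 : xx c j i ≠ xx c j (i + 1) := by
    intro h6
    have h7 := h.x_c j (i := i) (by omega)
    have h8 := h.x_c j (i := i + 1) (by omega)
    rw [h6, h8] at h7
    omega
  omega

theorem Lab.x_mono_i {s r : ℕ} {c : ℕ → ℕ} (h : Lab s r c) {i i' j : ℕ} (hi : i < i')
    (hi' : i' ≤ s) (hj : j < r) : xx c j i < xx c j i' := by
  induction i' with
  | zero => omega
  | succ i' ih =>
    have h1 := h.x_step (i := i') (by omega) hj
    rcases Nat.lt_succ_iff_lt_or_eq.1 hi with h2 | h2
    · have := ih h2 (by omega); omega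
    · subst h2; exact h1

theorem Lab.x_inj {s r : ℕ} {c : ℕ → ℕ} (h : Lab s r c) {i i' j j' : ℕ} (hi : i ≤ s)
    (hi' : i' ≤ s) (he : xx c j i = xx c j' i') : i = i' ∧ j = j' := by
  have h1 := h.x_c j hi
  have h2 := h.x_c j' hi'
  have h3 : i = i' := by rw [← h1, he, h2]
  subst h3
  refine ⟨rfl, ?_⟩
  rcases lt_trichotomy j j' with h4 | h4 | h4
  · have := h.x_mono hi h4; omega
  · exact h4
  · have := h.x_mono hi h4; omega

/-- the letter of the `j`-th element with label `i` -/
noncomputable def lt' (s r : ℕ) (c : ℕ → ℕ) (j i : ℕ) : ℕ := r * (s + 1) + 1 - xx c j i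

noncomputable def DD (s r : ℕ) (c : ℕ → ℕ) (j : ℕ) : List ℕ :=
  (List.range (s + 1)).map (lt' s r c j)

noncomputable def bb (s r : ℕ) (c : ℕ → ℕ) (ρ : ℕ → List ℕ) (j : ℕ) : List ℕ :=
  (ρ j ++ [0]).map (lt' s r c j)

noncomputable def uu (s r : ℕ) (c : ℕ → ℕ) (ρ : ℕ → List ℕ) : List ℕ :=
  ((List.range r).map (bb s r c ρ)).flatten

theorem DD_desc {s r : ℕ} {c : ℕ → ℕ} (h : Lab s r c) {j : ℕ} (hj : j < r) :
    (DD s r c j).Pairwise (· > ·) := by
  rw [DD, List.pairwise_map]
  refine List.Pairwise.imp_of_mem ?_ List.pairwise_lt_range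
  intro a b ha hb hab
  rw [List.mem_range] at ha hb
  have h1 := h.x_mono_i hab (by omega) hj
  have h2 := h.x_lt (i := b) (by omega) hj
  simp only [lt', gt_iff_lt]
  omega

theorem bb_IsB {s r : ℕ} (c : ℕ → ℕ) (ρ : ℕ → List ℕ) (j : ℕ) (hρ : ρ j ∈ words s) :
    IsB (bb s r c ρ j) (DD s r c j) := by
  have e : DD s r c j = lt' s r c j 0 :: (List.range' 1 s).map (lt' s r c j) := by
    rw [DD, List.range_eq_range', List.range'_succ, List.map_cons]
  rw [e]
  refine ⟨(ρ j).map (lt' s r c j), by simp [bb], ?_⟩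
  exact (mem_words.1 hρ).map _

theorem uu_clear {s r : ℕ} {c : ℕ → ℕ} (h : Lab s r c) (ρ : ℕ → List ℕ)
    (hρ : ∀ j < r, ρ j ∈ words s) : (out [])^[s + 1] (uu s r c ρ) = [] := by
  refine clear_blocks (s + 1) _ ((List.range r).map (DD s r c)) ?_ ?_ ?_ ?_
  · rw [List.forall₂_map_left_iff, List.forall₂_map_right_iff, List.forall₂_same]
    intro j hj
    exact bb_IsB c ρ j (hρ j (List.mem_range.1 hj))
  · intro D hD
    obtain ⟨j, _, rfl⟩ := List.mem_map.1 hD
    simp [DD]
  · intro D hD
    obtain ⟨j, hj, rfl⟩ := List.mem_map.1 hD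
    exact DD_desc h (List.mem_range.1 hj)
  · rw [List.pairwise_map]
    refine List.Pairwise.imp_of_mem ?_ List.pairwise_lt_range
    intro a b ha hb hab
    rw [List.mem_range] at ha hb
    rw [DD, DD, List.forall₂_map_left_iff, List.forall₂_map_right_iff, List.forall₂_same]
    intro i hi
    rw [List.mem_range] at hi
    have h1 := h.x_mono (i := i) (by omega) hab
    have h2 := h.x_lt (i := i) (by omega) hb
    simp only [lt', gt_iff_lt]
    omega

theorem bb_nodup {s r : ℕ} {c : ℕ → ℕ} (h : Lab s r c) (ρ : ℕ → List ℕ) {j : ℕ} (hj : j < r)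
    (hρ : ρ j ∈ words s) : (bb s r c ρ j).Nodup := by
  rw [(IsB_perm (bb_IsB c ρ j hρ)).nodup_iff]
  exact (DD_desc h hj).imp (fun h => by omega)

theorem mem_bb {s r : ℕ} (c : ℕ → ℕ) (ρ : ℕ → List ℕ) {j z : ℕ}
    (hρ : ρ j ∈ words s) : z ∈ bb s r c ρ j ↔ ∃ i ≤ s, lt' s r c j i = z := by
  rw [(IsB_perm (bb_IsB c ρ j hρ)).mem_iff, DD, List.mem_map]
  simp

theorem bb_length {s r : ℕ} (c : ℕ → ℕ) (ρ : ℕ → List ℕ) {j : ℕ}
    (hρ : ρ j ∈ words s) : (bb s r c ρ j).length = s + 1 := by
  rw [(IsB_perm (bb_IsB c ρ j hρ)).length_eq, DD]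
  simp

theorem uu_perm {s r : ℕ} {c : ℕ → ℕ} (h : Lab s r c) (ρ : ℕ → List ℕ)
    (hρ : ∀ j < r, ρ j ∈ words s) : (uu s r c ρ).Perm (List.range' 2 (r * (s + 1))) := by
  have hnd : (uu s r c ρ).Nodup := by
    rw [uu, List.nodup_flatten]
    refine ⟨?_, ?_⟩
    · intro l hl
      obtain ⟨j, hj, rfl⟩ := List.mem_map.1 hl
      exact bb_nodup h ρ (List.mem_range.1 hj) (hρ j (List.mem_range.1 hj))
    · rw [List.pairwise_map]
      refine List.Pairwise.imp_of_mem ?_ List.pairwise_lt_range
      intro a b ha hb hab z hza hzb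
      rw [List.mem_range] at ha hb
      obtain ⟨i, hi, e1⟩ := (mem_bb c ρ (hρ a ha)).1 hza
      obtain ⟨i', hi', e2⟩ := (mem_bb c ρ (hρ b hb)).1 hzb
      have h1 := h.x_lt hi ha
      have h2 := h.x_lt hi' hb
      simp only [lt'] at e1 e2
      have := (h.x_inj (j := a) (j' := b) hi hi' (by omega)).2
      omega
  have hsub : uu s r c ρ ⊆ List.range' 2 (r * (s + 1)) := by
    intro z hz
    rw [uu] at hz
    obtain ⟨l, hl, hz⟩ := List.mem_flatten.1 hz
    obtain ⟨j, hj, rfl⟩ := List.mem_map.1 hl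
    rw [List.mem_range] at hj
    obtain ⟨i, hi, e1⟩ := (mem_bb c ρ (hρ j hj)).1 hz
    have h1 := h.x_lt hi hj
    simp only [lt'] at e1
    rw [List.mem_range'_1]
    omega
  have hlen : (uu s r c ρ).length = r * (s + 1) := by
    have key : ∀ k ≤ r, (((List.range k).map (bb s r c ρ)).flatten).length = k * (s + 1) := by
      intro k
      induction k with
      | zero => simp
      | succ k ih =>
        intro hk
        rw [List.range_succ, List.map_append, List.flatten_append, List.length_append, ih (by omega)]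
        simp [bb_length c ρ (hρ k (by omega))]
        ring
    exact key r le_rfl
  refine (List.subperm_of_subset hnd hsub).perm_of_length_le ?_
  rw [hlen]
  simp

theorem uu_mem {s r : ℕ} {c : ℕ → ℕ} (h : Lab s r c) (ρ : ℕ → List ℕ)
    (hρ : ∀ j < r, ρ j ∈ words s) : uu s r c ρ ++ [1] ∈ setA (s + 1) (r * (s + 1) + 1) :=
  clear_mem _ _ _ (uu_perm h ρ hρ) (uu_clear h ρ hρ)

theorem uu_inj {s r : ℕ} {c c' : ℕ → ℕ} (h : Lab s r c) (h' : Lab s r c') (ρ ρ' : ℕ → List ℕ)
    (hρ : ∀ j < r, ρ j ∈ words s) (hρ' : ∀ j < r, ρ' j ∈ words s)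
    (he : uu s r c ρ = uu s r c' ρ') :
    (∀ v < r * (s + 1), c v = c' v) ∧ ∀ j < r, ρ j = ρ' j := by
  have hb : ∀ j < r, bb s r c ρ j = bb s r c' ρ' j := by
    have h1 : (List.range r).map (bb s r c ρ) = (List.range r).map (bb s r c' ρ') := by
      rw [List.eq_iff_flatten_eq]
      refine ⟨he, ?_⟩
      rw [List.map_map, List.map_map]
      refine List.map_congr_left ?_
      intro j hj
      rw [List.mem_range] at hj
      simp [bb_length c ρ (hρ j hj), bb_length c' ρ' (hρ' j hj)]
    intro j hj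
    exact List.map_inj_left.1 h1 j (List.mem_range.2 hj)
  have hx : ∀ j < r, ∀ i ≤ s, xx c j i = xx c' j i := by
    intro j hj i hi
    have h1 : (DD s r c j).Perm (DD s r c' j) := by
      refine (IsB_perm (bb_IsB c ρ j (hρ j hj))).symm.trans ?_
      rw [hb j hj]
      exact IsB_perm (bb_IsB c' ρ' j (hρ' j hj))
    have h2 : DD s r c j = DD s r c' j :=
      List.Perm.eq_of_pairwise (fun a b _ _ h1 h2 => absurd h1 (by simp only [gt_iff_lt] at *; omega))
        (DD_desc h hj) (DD_desc h' hj) h1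
    have h3 := List.map_inj_left.1 h2 i (List.mem_range.2 (by omega))
    have h4 := h.x_lt hi hj
    have h5 := h'.x_lt hi hj
    simp only [lt'] at h3
    omega
  refine ⟨?_, ?_⟩
  · intro v hv
    have h1 := h.lt v hv
    have h2 : xx c (Nat.count (fun w => c w = c v) v) (c v) = v := Nat.nth_count (p := fun w => c w = c v) rfl
    have h3 : Nat.count (fun w => c w = c v) v < r := by
      have h4 := h.cnt (c v) h1
      have h5 : Nat.count (fun w => c w = c v) (v + 1) ≤ Nat.count (fun w => c w = c v) (r * (s + 1)) :=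
        Nat.count_monotone _ (by omega)
      rw [Nat.count_succ, if_pos rfl, h4] at h5
      omega
    have h4 := hx _ h3 (c v) h1
    rw [h2] at h4
    have h5 := h'.x_c (Nat.count (fun w => c w = c v) v) h1
    rw [← h4] at h5
    exact h5.symm
  · intro j hj
    have h1 := hb j hj
    have h2 : ∀ a ∈ ρ j ++ [0], ∀ b ∈ ρ' j ++ [0], lt' s r c j a = lt' s r c' j b → a = b := by
      have hm : ∀ (ρ : List ℕ), ρ ∈ words s → ∀ a ∈ ρ ++ [0], a ≤ s := by
        intro ρ hρ a ha
        rcases List.mem_append.1 ha with ha | ha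
        · have := (words_mem hρ a).1 ha; omega
        · have : a = 0 := by simpa using ha
          omega
      intro a ha b hb' hab
      have ha' := hm _ (hρ j hj) a ha
      have hb'' := hm _ (hρ' j hj) b hb'
      have h4 := h.x_lt ha' hj
      have h5 := h'.x_lt hb'' hj
      have h6 := hx j hj b hb''
      simp only [lt'] at hab
      exact (h.x_inj (j := j) (j' := j) ha' hb'' (by omega)).1
    have h3 : ρ j ++ [0] = ρ' j ++ [0] := by
      simp only [bb] at h1
      have hl : (ρ j ++ [0]).length = (ρ' j ++ [0]).length := by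
        have := congrArg List.length h1
        simpa using this
      refine List.ext_getElem hl ?_
      intro n hn hn'
      refine h2 _ (List.getElem_mem hn) _ (List.getElem_mem hn') ?_
      have := congrArg (fun l => l[n]?) h1
      simp only [List.getElem?_map, List.getElem?_eq_getElem hn, List.getElem?_eq_getElem hn',
        Option.map_some, Option.some.injEq] at this
      exact this
    exact List.append_cancel_right h3


/-! labels from lists -/

/-- the label function of a list, extended periodically -/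
def lab (s : ℕ) (l : List ℕ) (v : ℕ) : ℕ := if v < l.length then l.getD v 0 else v % (s + 1)

theorem count_lab (s : ℕ) (l : List ℕ) (i v : ℕ) (hv : v ≤ l.length) :
    Nat.count (fun w => lab s l w = i) v = (l.take v).count i := by
  induction v with
  | zero => simp
  | succ v ih =>
    rw [Nat.count_succ, ih (by omega), List.take_add_one, List.count_append]
    congr 1
    have hv' : v < l.length := by omega
    simp only [lab, hv', if_true, List.getD_eq_getElem?_getD, List.getElem?_eq_getElem hv',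
      Option.getD_some, Option.toList_some]
    by_cases h : l[v] = i
    · simp [h]
    · simp [h]

theorem lab_inf (s : ℕ) (l : List ℕ) (i : ℕ) (hi : i ≤ s) : {v | lab s l v = i}.Infinite := by
  refine Set.infinite_of_not_bddAbove ?_
  rintro ⟨B, hB⟩
  have h1 : (s + 1) * (B + l.length + 1) + i ∈ {v | lab s l v = i} := by
    have h2 : ¬ ((s + 1) * (B + l.length + 1) + i < l.length) := by
      have : B + l.length + 1 ≤ (s + 1) * (B + l.length + 1) := Nat.le_mul_of_pos_left _ (by omega)
      omega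
    simp only [Set.mem_ofPred_eq, lab, h2, if_false]
    rw [Nat.mul_add_mod]
    exact Nat.mod_eq_of_lt (by omega)
  have h3 := hB h1
  have : B + l.length + 1 ≤ (s + 1) * (B + l.length + 1) := Nat.le_mul_of_pos_left _ (by omega)
  omega

theorem Lab_of_list (s r : ℕ) (l : List ℕ) (hl : l.length = r * (s + 1)) (hlt : ∀ x ∈ l, x ≤ s)
    (hc : ∀ i ≤ s, l.count i = r) (hb : ∀ v, ∀ i < s, (l.take v).count (i + 1) ≤ (l.take v).count i) :
    Lab s r (lab s l) where
  inf := lab_inf s l
  lt := by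
    intro v hv
    rw [← hl] at hv
    simp only [lab, hv, if_true, List.getD_eq_getElem?_getD, List.getElem?_eq_getElem hv,
      Option.getD_some]
    exact hlt _ (List.getElem_mem hv)
  cnt := by
    intro i hi
    rw [← hl, count_lab s l i _ le_rfl, List.take_length]
    exact hc i hi
  bal := by
    intro v hv i hi
    rw [count_lab s l _ v (by omega), count_lab s l _ v (by omega)]
    exact hb v i hi

theorem lab_inj (s : ℕ) (l l' : List ℕ) (h : l.length = l'.length)
    (he : ∀ v < l.length, lab s l v = lab s l' v) : l = l' := by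
  refine List.ext_getElem h ?_
  intro n hn hn'
  have := he n hn
  simp only [lab, hn, hn', if_true, List.getD_eq_getElem?_getD, List.getElem?_eq_getElem hn,
      List.getElem?_eq_getElem hn', Option.getD_some] at this
  exact this

/-! chunks -/

/-- the first `q` chunks -/
def fl (ch : ℕ → List ℕ) (q : ℕ) : List ℕ := ((List.range q).map ch).flatten

theorem fl_succ (ch : ℕ → List ℕ) (q : ℕ) : fl ch (q + 1) = fl ch q ++ ch q := by
  simp [fl, List.range_succ]

theorem fl_take (ch : ℕ → List ℕ) (Q v : ℕ) :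
    ∃ q, fl ch q <+: (fl ch Q).take v ∧ (fl ch Q).take v <+: fl ch (q + 1) := by
  induction Q with
  | zero => exact ⟨0, by simp [fl], by simp [fl]⟩
  | succ Q ih =>
    rw [fl_succ, List.take_append]
    by_cases h : v ≤ (fl ch Q).length
    · have : v - (fl ch Q).length = 0 := by omega
      rw [this, List.take_zero, List.append_nil]
      exact ih
    · refine ⟨Q, ?_, ?_⟩
      · rw [List.take_of_length_le (by omega)]
        exact List.prefix_append _ _
      · rw [List.take_of_length_le (by omega), fl_succ]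
        exact (List.prefix_append_right_inj _).2 (List.take_prefix _ _)

/-- the default chunk -/
def dc (s ℓ K q : ℕ) : List ℕ :=
  ((List.range (s + 1)).map (fun i => if i ≤ q ∧ q < i + K then List.replicate ℓ i else [])).flatten

theorem count_dc (s ℓ K q i : ℕ) (hi : i ≤ s) :
    (dc s ℓ K q).count i = if i ≤ q ∧ q < i + K then ℓ else 0 := by
  have key : ∀ n, (((List.range n).map
      (fun i => if i ≤ q ∧ q < i + K then List.replicate ℓ i else [])).flatten).count i =
      if i < n then (if i ≤ q ∧ q < i + K then ℓ else 0) else 0 := by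
    intro n
    induction n with
    | zero => simp
    | succ n ih =>
      rw [List.range_succ, List.map_append, List.flatten_append, List.count_append, ih]
      simp only [List.map_cons, List.map_nil, List.flatten_cons, List.flatten_nil, List.append_nil]
      by_cases h : n = i
      · subst h
        by_cases h2 : n ≤ q ∧ q < n + K
        · simp [h2]
        · simp [h2]
      · have h3 : (if n ≤ q ∧ q < n + K then List.replicate ℓ n else []).count i = 0 := by
          by_cases h2 : n ≤ q ∧ q < n + K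
          · simp [h2, List.count_replicate, h]
          · simp [h2]
        rw [h3]
        by_cases h4 : i < n
        · simp [h4, show i < n + 1 by omega]
        · simp [h4, show ¬ (i < n + 1) by omega]
  rw [dc, key, if_pos (by omega)]

theorem dc_le (s ℓ K q x : ℕ) (hx : x ∈ dc s ℓ K q) : x ≤ s := by
  obtain ⟨l, hl, hx⟩ := List.mem_flatten.1 hx
  obtain ⟨i, hi, rfl⟩ := List.mem_map.1 hl
  rw [List.mem_range] at hi
  by_cases h2 : i ≤ q ∧ q < i + K
  · simp only [h2, and_self, if_true] at hx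
    rw [List.eq_of_mem_replicate hx]; omega
  · simp only [h2, if_false] at hx
    simp at hx

/-- the chunks: the middle ones are free -/
def ch (s ℓ k : ℕ) (M : ℕ → List ℕ) (q : ℕ) : List ℕ :=
  if s ≤ q ∧ q < s + k then M (q - s) else dc s ℓ (k + s) q

theorem count_ch (s ℓ k : ℕ) (M : ℕ → List ℕ) (hM : ∀ a < k, ∀ i ≤ s, (M a).count i = ℓ)
    (q i : ℕ) (hi : i ≤ s) :
    (ch s ℓ k M q).count i = if i ≤ q ∧ q < i + (k + s) then ℓ else 0 := by
  unfold ch
  split_ifs with h1 h2 h2
  · exact hM _ (by omega) i hi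
  · exfalso; apply h2; omega
  · rw [count_dc s ℓ _ q i hi, if_pos h2]
  · rw [count_dc s ℓ _ q i hi, if_neg h2]

theorem count_fl (s ℓ k : ℕ) (M : ℕ → List ℕ) (hM : ∀ a < k, ∀ i ≤ s, (M a).count i = ℓ)
    (q i : ℕ) (hi : i ≤ s) :
    (fl (ch s ℓ k M) q).count i = ℓ * min (q - i) (k + s) := by
  induction q with
  | zero => simp [fl]
  | succ q ih =>
    rw [fl_succ, List.count_append, ih, count_ch s ℓ k M hM q i hi]
    split_ifs with h
    · have : min (q + 1 - i) (k + s) = min (q - i) (k + s) + 1 := by omega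
      rw [this]; ring
    · have : min (q + 1 - i) (k + s) = min (q - i) (k + s) := by omega
      rw [this]; ring

theorem length_eq_sum (s : ℕ) (l : List ℕ) (h : ∀ x ∈ l, x ≤ s) :
    l.length = ∑ i ∈ Finset.range (s + 1), l.count i := by
  induction l with
  | nil => simp
  | cons x l ih =>
    rw [List.length_cons, ih (fun y hy => h y (by simp [hy]))]
    simp only [List.count_cons]
    rw [Finset.sum_add_distrib]
    congr 1
    have hx := h x (by simp)
    rw [Finset.sum_eq_single x]
    · simp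
    · intro b _ hb
      simp [Ne.symm hb]
    · intro hx2
      exfalso; apply hx2
      rw [Finset.mem_range]; omega

theorem ch_le (s ℓ k : ℕ) (M : ℕ → List ℕ) (hM : ∀ a < k, ∀ x ∈ M a, x ≤ s) (q x : ℕ)
    (hx : x ∈ ch s ℓ k M q) : x ≤ s := by
  unfold ch at hx
  split_ifs at hx with h
  · exact hM _ (by omega) x hx
  · exact dc_le _ _ _ _ _ hx

theorem Lab_ch (s ℓ k : ℕ) (M : ℕ → List ℕ) (hM : ∀ a < k, ∀ i ≤ s, (M a).count i = ℓ)
    (hM' : ∀ a < k, ∀ x ∈ M a, x ≤ s) :
    (fl (ch s ℓ k M) (k + 2 * s)).length = (k + s) * ℓ * (s + 1) ∧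
    Lab s ((k + s) * ℓ) (lab s (fl (ch s ℓ k M) (k + 2 * s))) := by
  have hle : ∀ x ∈ fl (ch s ℓ k M) (k + 2 * s), x ≤ s := by
    intro x hx
    obtain ⟨l, hl, hx⟩ := List.mem_flatten.1 hx
    obtain ⟨q, _, rfl⟩ := List.mem_map.1 hl
    exact ch_le s ℓ k M hM' q x hx
  have hcnt : ∀ i ≤ s, (fl (ch s ℓ k M) (k + 2 * s)).count i = (k + s) * ℓ := by
    intro i hi
    rw [count_fl s ℓ k M hM _ i hi]
    have : min (k + 2 * s - i) (k + s) = k + s := by omega
    rw [this]; ring
  have hlen : (fl (ch s ℓ k M) (k + 2 * s)).length = (k + s) * ℓ * (s + 1) := by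
    rw [length_eq_sum s _ hle, Finset.sum_congr rfl (fun i hi => hcnt i (by
      rw [Finset.mem_range] at hi; omega))]
    rw [Finset.sum_const, Finset.card_range, smul_eq_mul]
    ring
  refine ⟨hlen, Lab_of_list s _ _ hlen hle hcnt ?_⟩
  intro v i hi
  obtain ⟨q, h1, h2⟩ := fl_take (ch s ℓ k M) (k + 2 * s) v
  have h3 := h2.sublist.count_le (i + 1)
  have h4 := h1.sublist.count_le i
  rw [count_fl s ℓ k M hM _ _ (by omega)] at h3 h4
  have : min (q + 1 - (i + 1)) (k + s) = min (q - i) (k + s) := by omega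
  rw [this] at h3
  omega

theorem ch_inj (s ℓ k : ℕ) (M M' : ℕ → List ℕ) (hM : ∀ a < k, (M a).length = (s + 1) * ℓ)
    (hM' : ∀ a < k, (M' a).length = (s + 1) * ℓ)
    (h : fl (ch s ℓ k M) (k + 2 * s) = fl (ch s ℓ k M') (k + 2 * s)) : ∀ a < k, M a = M' a := by
  have h1 : (List.range (k + 2 * s)).map (ch s ℓ k M) = (List.range (k + 2 * s)).map (ch s ℓ k M') := by
    rw [List.eq_iff_flatten_eq]
    refine ⟨h, ?_⟩
    rw [List.map_map, List.map_map]
    refine List.map_congr_left ?_
    intro q _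
    simp only [Function.comp, ch]
    split_ifs with h
    · rw [hM _ (by omega), hM' _ (by omega)]
    · rfl
  intro a ha
  have h2 := List.map_inj_left.1 h1 (a + s) (List.mem_range.2 (by omega))
  simp only [ch] at h2
  rw [if_pos (by omega), if_pos (by omega), Nat.add_sub_cancel] at h2
  exact h2

/-! the count -/

theorem card_words (s : ℕ) : (words s).card = s.factorial := by
  rw [words, List.toFinset_card_of_nodup (List.nodup_permutations _ List.nodup_range'),
      List.length_permutations, List.length_range']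

theorem main_count (s ℓ k : ℕ) (𝓜 : Finset (List ℕ))
    (h1 : ∀ M ∈ 𝓜, ∀ i ≤ s, M.count i = ℓ) (h2 : ∀ M ∈ 𝓜, ∀ x ∈ M, x ≤ s) :
    𝓜.card ^ k * s.factorial ^ ((k + s) * ℓ) ≤ W (s + 1) ((k + s) * ℓ * (s + 1) + 1) := by
  classical
  have hlen : ∀ M ∈ 𝓜, M.length = (s + 1) * ℓ := by
    intro M hM
    rw [length_eq_sum s M (h2 M hM), Finset.sum_congr rfl (fun i hi => h1 M hM i (by
      rw [Finset.mem_range] at hi; omega)), Finset.sum_const, Finset.card_range, smul_eq_mul]
  rw [W_eq]
  set r := (k + s) * ℓ with hr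
  -- codes
  let toM : (Fin k → 𝓜) → ℕ → List ℕ := fun F a => if h : a < k then (F ⟨a, h⟩ : List ℕ) else []
  let toρ : (Fin r → words s) → ℕ → List ℕ := fun F a => if h : a < r then (F ⟨a, h⟩ : List ℕ) else []
  have hcard : Fintype.card ((Fin k → 𝓜) × (Fin r → words s)) = 𝓜.card ^ k * s.factorial ^ r := by
    rw [Fintype.card_prod, Fintype.card_fun, Fintype.card_fun, Fintype.card_coe, Fintype.card_coe,
      Fintype.card_fin, Fintype.card_fin, card_words]
  rw [← hcard, ← Fintype.card_coe (setA (s + 1) (r * (s + 1) + 1))]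
  have hA : ∀ F : Fin k → 𝓜, ∀ a < k, toM F a ∈ 𝓜 := by
    intro F a ha
    simp only [toM, ha, dif_pos]
    exact (F ⟨a, ha⟩).2
  have hB : ∀ F : Fin r → words s, ∀ a < r, toρ F a ∈ words s := by
    intro F a ha
    simp only [toρ, ha, dif_pos]
    exact (F ⟨a, ha⟩).2
  have hL : ∀ F : Fin k → 𝓜, (fl (ch s ℓ k (toM F)) (k + 2 * s)).length = r * (s + 1) ∧
      Lab s r (lab s (fl (ch s ℓ k (toM F)) (k + 2 * s))) := by
    intro F
    exact Lab_ch s ℓ k (toM F) (fun a ha => h1 _ (hA F a ha)) (fun a ha => h2 _ (hA F a ha))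
  let Φ : (Fin k → 𝓜) × (Fin r → words s) → setA (s + 1) (r * (s + 1) + 1) := fun F =>
    ⟨uu s r (lab s (fl (ch s ℓ k (toM F.1)) (k + 2 * s))) (toρ F.2) ++ [1],
      uu_mem (hL F.1).2 _ (hB F.2)⟩
  refine Fintype.card_le_of_injective Φ ?_
  intro F G hFG
  have e1 : uu s r (lab s (fl (ch s ℓ k (toM F.1)) (k + 2 * s))) (toρ F.2) =
      uu s r (lab s (fl (ch s ℓ k (toM G.1)) (k + 2 * s))) (toρ G.2) :=
    List.append_cancel_right (congrArg Subtype.val hFG)
  obtain ⟨e2, e3⟩ := uu_inj (hL F.1).2 (hL G.1).2 _ _ (hB F.2) (hB G.2) e1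
  have e4 := lab_inj s _ _ ((hL F.1).1.trans (hL G.1).1.symm) (by rw [(hL F.1).1]; exact e2)
  have e5 := ch_inj s ℓ k _ _ (fun a ha => hlen _ (hA F.1 a ha)) (fun a ha => hlen _ (hA G.1 a ha)) e4
  refine Prod.ext ?_ ?_
  · funext a
    have := e5 a a.2
    simp only [toM, a.2, dif_pos] at this
    exact Subtype.ext this
  · funext a
    have := e3 a a.2
    simp only [toρ, a.2, dif_pos] at this
    exact Subtype.ext this


/-! many balanced words -/

theorem countP_card' {α : Type*} [DecidableEq α] (l : List α) (hn : l.Nodup) (p : α → Prop)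
    [DecidablePred p] : l.countP (fun z => decide (p z)) = (l.toFinset.filter p).card := by
  rw [List.countP_eq_length_filter, ← List.toFinset_card_of_nodup (hn.filter _),
    List.toFinset_filter]
  simp

theorem count_ofFn (n x : ℕ) (g : Fin n → ℕ) :
    (List.ofFn g).count x = (Finset.univ.filter fun a => g a = x).card := by
  rw [List.ofFn_eq_map, List.count, List.countP_map]
  have h := countP_card' (List.finRange n) (List.nodup_finRange n) (fun a => g a = x)
  rw [List.toFinset_finRange] at h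
  rw [← h]
  refine List.countP_congr ?_
  intro a _
  simp

theorem exists_bal (s ℓ : ℕ) : ∃ 𝓜 : Finset (List ℕ), (∀ M ∈ 𝓜, ∀ i ≤ s, M.count i = ℓ) ∧
    (∀ M ∈ 𝓜, ∀ x ∈ M, x ≤ s) ∧
    ((s + 1) ^ ℓ) ^ (s + 1) ≤ 𝓜.card * ((ℓ + 1) ^ (s + 1)) ^ (s + 1) := by
  classical
  let ty : (Fin ℓ → Fin (s + 1)) → (Fin (s + 1) → Fin (ℓ + 1)) := fun f i =>
    ⟨(Finset.univ.filter fun a => f a = i).card, by
      have := Finset.card_le_univ (Finset.univ.filter fun a => f a = i)
      rw [Fintype.card_fin] at this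
      omega⟩
  obtain ⟨m, _, hm⟩ := Finset.exists_max_image (Finset.univ : Finset (Fin (s + 1) → Fin (ℓ + 1)))
    (fun m => (Finset.univ.filter fun f => ty f = m).card) ⟨fun _ => 0, Finset.mem_univ _⟩
  set X : Finset (Fin ℓ → Fin (s + 1)) := Finset.univ.filter fun f => ty f = m with hX
  have hXm : ∀ f ∈ X, ty f = m := fun f hf => by
    rw [hX, Finset.mem_filter] at hf; exact hf.2
  have hXc : (s + 1) ^ ℓ ≤ X.card * (ℓ + 1) ^ (s + 1) := by
    have h1 : (Finset.univ : Finset (Fin ℓ → Fin (s + 1))).card =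
        ∑ m' : Fin (s + 1) → Fin (ℓ + 1), (Finset.univ.filter fun f => ty f = m').card :=
      Finset.card_eq_sum_card_fiberwise (fun f _ => Finset.mem_univ _)
    have h2 := Finset.sum_le_card_nsmul (Finset.univ : Finset (Fin (s + 1) → Fin (ℓ + 1)))
      (fun m' => (Finset.univ.filter fun f => ty f = m').card) X.card (fun m' _ => hm m' (Finset.mem_univ _))
    rw [← h1] at h2
    simp only [Finset.card_univ, Fintype.card_fun, Fintype.card_fin, smul_eq_mul] at h2
    rw [mul_comm]
    exact h2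
  let L : (Fin (s + 1) → X) → List ℕ := fun F =>
    (List.ofFn fun p : Fin (s + 1) => List.ofFn fun a : Fin ℓ =>
      (((F p : Fin ℓ → Fin (s + 1)) a + p : Fin (s + 1)) : ℕ)).flatten
  have hinj : Function.Injective L := by
    intro F G h
    have h1 := (List.eq_iff_flatten_eq (L := List.ofFn fun p : Fin (s + 1) => List.ofFn fun a : Fin ℓ =>
      (((F p : Fin ℓ → Fin (s + 1)) a + p : Fin (s + 1)) : ℕ)) (L' := List.ofFn fun p : Fin (s + 1) => List.ofFn fun a : Fin ℓ =>
      (((G p : Fin ℓ → Fin (s + 1)) a + p : Fin (s + 1)) : ℕ))).2 ⟨h, by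
        rw [List.map_ofFn, List.map_ofFn]
        congr 1
        funext p
        simp⟩
    have h2 := List.ofFn_injective h1
    funext p
    have h3 := List.ofFn_injective (congrFun h2 p)
    refine Subtype.ext ?_
    funext a
    have h4 := congrFun h3 a
    exact add_right_cancel (Fin.ext h4)
  refine ⟨Finset.univ.image L, ?_, ?_, ?_⟩
  · intro M hM i hi
    obtain ⟨F, _, rfl⟩ := Finset.mem_image.1 hM
    simp only [L]
    rw [List.count_flatten, List.map_ofFn, List.sum_ofFn]
    have h1 : ∀ p : Fin (s + 1), (List.count i ∘ fun p : Fin (s + 1) => List.ofFn fun a : Fin ℓ =>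
        (((F p : Fin ℓ → Fin (s + 1)) a + p : Fin (s + 1)) : ℕ)) p
        = (m (⟨i, by omega⟩ - p) : ℕ) := by
      intro p
      simp only [Function.comp]
      rw [count_ofFn]
      have h2 : ty (F p) = m := hXm _ (F p).2
      rw [← h2]
      simp only [ty]
      congr 1
      ext a
      simp only [Finset.mem_filter, Finset.mem_univ, true_and]
      constructor
      · intro h
        rw [eq_sub_iff_add_eq]
        exact Fin.ext h
      · intro h
        rw [h]
        simp
    rw [Finset.sum_congr rfl (fun p _ => h1 p)]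
    have h3 : ∑ p : Fin (s + 1), (m (⟨i, by omega⟩ - p) : ℕ) = ∑ y : Fin (s + 1), (m y : ℕ) :=
      Equiv.sum_comp (Equiv.subLeft (⟨i, by omega⟩ : Fin (s + 1))) (fun y => (m y : ℕ))
    rw [h3]
    have h2 : ty (F 0) = m := hXm _ (F 0).2
    rw [← h2]
    simp only [ty]
    rw [← Finset.card_eq_sum_card_fiberwise (s := (Finset.univ : Finset (Fin ℓ)))
      (t := (Finset.univ : Finset (Fin (s + 1)))) (f := fun a => (F 0 : Fin ℓ → Fin (s + 1)) a)
      (fun a _ => Finset.mem_univ _)]
    simp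
  · intro M hM x hx
    obtain ⟨F, _, rfl⟩ := Finset.mem_image.1 hM
    simp only [L, List.mem_flatten, List.mem_ofFn'] at hx
    obtain ⟨l, ⟨p, rfl⟩, hx⟩ := hx
    rw [List.mem_ofFn'] at hx
    obtain ⟨a, rfl⟩ := hx
    exact Nat.lt_succ_iff.1 ((F p : Fin ℓ → Fin (s + 1)) a + p : Fin (s + 1)).2
  · rw [Finset.card_image_of_injective _ hinj, Finset.card_univ, Fintype.card_fun, Fintype.card_fin,
      Fintype.card_coe, ← mul_pow]
    exact Nat.pow_le_pow_left hXc _

/-! monotonicity -/

theorem sort_last (t : ℕ) (w : List ℕ) (m : ℕ) (hw : ∀ x ∈ w, x < m) :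
    stackSort^[t] (w ++ [m]) = stackSort^[t] w ++ [m] := by
  induction t generalizing w with
  | zero => rfl
  | succ t ih =>
    rw [Function.iterate_succ_apply, Function.iterate_succ_apply]
    have h1 : stackSort (w ++ [m]) = stackSort w ++ [m] := by
      have := sort_split w [] m hw (by simp)
      rw [this]
      simp [stackSort, run]
    rw [h1, ih]
    intro x hx
    exact hw x ((sort_perm w).mem_iff.1 hx)

theorem W_succ (t n : ℕ) : W t n ≤ W t (n + 1) := by
  rw [W_eq, W_eq]
  refine Finset.card_le_card_of_injOn (fun w => w ++ [n + 1]) ?_ ?_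
  · intro w hw
    simp only [Finset.mem_coe, setA, Finset.mem_filter] at hw ⊢
    have h1 : List.range' 1 (n + 1) = List.range' 1 n ++ [n + 1] := by
      rw [List.range'_concat]
      simp [add_comm]
    refine ⟨?_, ?_⟩
    · rw [mem_words, h1]
      exact (mem_words.1 hw.1).append_right _
    · rw [sort_last t w (n + 1) (fun x hx => by
        have := (words_mem hw.1 x).1 hx
        omega), hw.2, h1]
  · intro w _ w' _ h
    exact List.append_cancel_right h

theorem W_mono (t : ℕ) : Monotone (W t) := monotone_nat_of_le_succ (W_succ t)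


/-! growth -/

open Filter in
theorem growth_aux (s : ℕ) (x : ℝ) (h0 : 0 < x)
    (h : x ^ (s + 1) < ((s : ℝ) + 1) ^ (s + 1) * (s.factorial : ℝ)) :
    ∀ᶠ n : ℕ in atTop, x ^ n ≤ (W (s + 1) n : ℝ) := by
  set G : ℝ := ((s : ℝ) + 1) ^ (s + 1) * (s.factorial : ℝ) with hG
  have hGpos : 0 < G := lt_trans (pow_pos h0 _) h
  set q : ℝ := x ^ (s + 1) / G with hq
  have hq0 : 0 < q := div_pos (pow_pos h0 _) hGpos
  have hq1 : q < 1 := (div_lt_one hGpos).2 h
  -- choose ℓ
  obtain ⟨ℓ, hℓ0, hℓ⟩ : ∃ ℓ : ℕ, 0 < ℓ ∧ ((ℓ : ℝ) + 1) ^ ((s + 1) * (s + 1)) * q ^ ℓ < 1 := by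
    have h1 := tendsto_pow_const_mul_const_pow_of_abs_lt_one ((s + 1) * (s + 1))
      (r := q) (by rw [abs_of_pos hq0]; exact hq1)
    have h2 := (h1.eventually (gt_mem_nhds hq0)).and (eventually_ge_atTop 2)
    obtain ⟨m, hm1, hm2⟩ := h2.exists
    refine ⟨m - 1, by omega, ?_⟩
    obtain ⟨m', rfl⟩ : ∃ m', m = m' + 1 := ⟨m - 1, by omega⟩
    rw [Nat.add_sub_cancel]
    have h3 : ((m' : ℝ) + 1) ^ ((s + 1) * (s + 1)) * q ^ m' * q < q := by
      calc ((m' : ℝ) + 1) ^ ((s + 1) * (s + 1)) * q ^ m' * q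
          = ((m' + 1 : ℕ) : ℝ) ^ ((s + 1) * (s + 1)) * q ^ (m' + 1) := by push_cast; ring
        _ < q := hm1
    exact (mul_lt_iff_lt_one_left hq0).1 h3
  obtain ⟨𝓜, h1, h2, h3⟩ := exists_bal s ℓ
  set R : ℝ := (𝓜.card : ℝ) * (s.factorial : ℝ) ^ ℓ with hR
  set y : ℝ := x ^ ((s + 1) * ℓ) with hy
  have hy0 : 0 < y := pow_pos h0 _
  have hRy : y < R := by
    have e1 : (((s : ℝ) + 1) ^ ℓ) ^ (s + 1) ≤ (𝓜.card : ℝ) * ((((ℓ : ℝ) + 1) ^ (s + 1)) ^ (s + 1)) := by
      exact_mod_cast h3
    have e2 : G ^ ℓ ≤ R * ((ℓ : ℝ) + 1) ^ ((s + 1) * (s + 1)) := by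
      calc G ^ ℓ = (((s : ℝ) + 1) ^ ℓ) ^ (s + 1) * (s.factorial : ℝ) ^ ℓ := by
            rw [hG, mul_pow, ← pow_mul, ← pow_mul, mul_comm (s + 1) ℓ]
        _ ≤ ((𝓜.card : ℝ) * ((((ℓ : ℝ) + 1) ^ (s + 1)) ^ (s + 1))) * (s.factorial : ℝ) ^ ℓ := by
            gcongr
        _ = R * ((ℓ : ℝ) + 1) ^ ((s + 1) * (s + 1)) := by
            rw [hR, pow_mul]; ring
    have e3 : y = q ^ ℓ * G ^ ℓ := by
      rw [hy, hq, div_pow, pow_mul]
      field_simp
    have hP : 0 < ((ℓ : ℝ) + 1) ^ ((s + 1) * (s + 1)) := by positivity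
    have e4 : y * ((ℓ : ℝ) + 1) ^ ((s + 1) * (s + 1)) < G ^ ℓ := by
      rw [e3]
      calc q ^ ℓ * G ^ ℓ * ((ℓ : ℝ) + 1) ^ ((s + 1) * (s + 1))
          = (((ℓ : ℝ) + 1) ^ ((s + 1) * (s + 1)) * q ^ ℓ) * G ^ ℓ := by ring
        _ < 1 * G ^ ℓ := by
            apply mul_lt_mul_of_pos_right hℓ (pow_pos hGpos _)
        _ = G ^ ℓ := one_mul _
    exact lt_of_mul_lt_mul_right (lt_of_lt_of_le e4 e2) hP.le
  have hWk : ∀ k : ℕ, R ^ k ≤ (W (s + 1) ((k + s) * ℓ * (s + 1) + 1) : ℝ) := by
    intro k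
    have h4 := main_count s ℓ k 𝓜 h1 h2
    have h5 : 𝓜.card ^ k * s.factorial ^ (k * ℓ) ≤ W (s + 1) ((k + s) * ℓ * (s + 1) + 1) := by
      refine le_trans (Nat.mul_le_mul_left _ ?_) h4
      exact Nat.pow_le_pow_right (Nat.factorial_pos s) (Nat.mul_le_mul_right _ (by omega))
    calc R ^ k = ((𝓜.card ^ k * s.factorial ^ (k * ℓ) : ℕ) : ℝ) := by
          rw [hR]; push_cast; rw [mul_pow, ← pow_mul, mul_comm ℓ k]
      _ ≤ _ := by exact_mod_cast h5
  set C : ℝ := (max 1 x) ^ ((s + 1) * ℓ * (s + 1) + 1) with hC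
  have hRy1 : 1 < R / y := (one_lt_div hy0).2 hRy
  obtain ⟨k0, hk0⟩ := (tendsto_atTop.1 (tendsto_pow_atTop_atTop_of_one_lt hRy1) C).exists_forall_of_atTop
  filter_upwards [eventually_ge_atTop ((k0 + s) * ((s + 1) * ℓ) + 1)] with n hn
  have hd : 0 < (s + 1) * ℓ := Nat.mul_pos (by omega) hℓ0
  have hdiv : k0 + s ≤ (n - 1) / ((s + 1) * ℓ) := by
    rw [Nat.le_div_iff_mul_le hd]; omega
  obtain ⟨k, hk⟩ : ∃ k, (n - 1) / ((s + 1) * ℓ) = k + s := ⟨(n - 1) / ((s + 1) * ℓ) - s, by omega⟩
  have hkk : k0 ≤ k := by omega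
  have hlow : (k + s) * ((s + 1) * ℓ) ≤ n - 1 := by
    rw [← hk]; exact Nat.div_mul_le_self _ _
  have hup : n - 1 < (k + s + 1) * ((s + 1) * ℓ) := by
    have := Nat.lt_div_mul_add (a := n - 1) hd
    rw [hk] at this
    calc n - 1 < _ := this
      _ = _ := by ring
  have e1 : (k + s) * ℓ * (s + 1) + 1 ≤ n := by
    have : (k + s) * ℓ * (s + 1) = (k + s) * ((s + 1) * ℓ) := by ring
    omega
  have e2 : R ^ k ≤ (W (s + 1) n : ℝ) :=
    (hWk k).trans (by exact_mod_cast W_mono (s + 1) e1)
  refine le_trans ?_ e2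
  have e3 : n = (s + 1) * ℓ * k + (n - (s + 1) * ℓ * k) := by
    have : (s + 1) * ℓ * k ≤ (k + s) * ((s + 1) * ℓ) := by nlinarith
    omega
  have e4 : n - (s + 1) * ℓ * k ≤ (s + 1) * ℓ * (s + 1) + 1 := by
    have : (k + s + 1) * ((s + 1) * ℓ) = (s + 1) * ℓ * k + (s + 1) * ℓ * (s + 1) := by ring
    omega
  have e5 : x ^ n ≤ y ^ k * C := by
    rw [e3, pow_add, pow_mul]
    rw [← hy]
    apply mul_le_mul_of_nonneg_left _ (pow_nonneg hy0.le _)
    calc x ^ (n - (s + 1) * ℓ * k) ≤ (max 1 x) ^ (n - (s + 1) * ℓ * k) :=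
          pow_le_pow_left₀ h0.le (le_max_right _ _) _
      _ ≤ C := pow_le_pow_right₀ (le_max_left _ _) e4
  have e6 := hk0 k hkk
  rw [div_pow, le_div_iff₀ (pow_pos hy0 _)] at e6
  calc x ^ n ≤ y ^ k * C := e5
    _ = C * y ^ k := mul_comm _ _
    _ ≤ R ^ k := e6

open Filter in
theorem growth_real (s : ℕ) (x : ℝ) (h0 : 0 ≤ x)
    (h : x < ((s : ℝ) + 1) * (s.factorial : ℝ) ^ ((1 : ℝ) / ((s : ℝ) + 1))) :
    ∀ᶠ n : ℕ in atTop, x ^ n ≤ (W (s + 1) n : ℝ) := by
  obtain ⟨z, hz1, hz2⟩ := exists_between h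
  have hz0 : 0 < z := lt_of_le_of_lt h0 hz1
  have h1 : z ^ (s + 1) < ((s : ℝ) + 1) ^ (s + 1) * (s.factorial : ℝ) := by
    calc z ^ (s + 1) < (((s : ℝ) + 1) * (s.factorial : ℝ) ^ ((1 : ℝ) / ((s : ℝ) + 1))) ^ (s + 1) :=
          pow_lt_pow_left₀ hz2 hz0.le (by omega)
      _ = ((s : ℝ) + 1) ^ (s + 1) * (s.factorial : ℝ) := by
          rw [mul_pow]
          congr 1
          rw [← Real.rpow_natCast, ← Real.rpow_mul (by positivity)]
          push_cast
          rw [one_div, inv_mul_cancel₀ (by positivity), Real.rpow_one]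
  filter_upwards [growth_aux s z hz0 h1] with n hn
  exact le_trans (pow_le_pow_left₀ h0 hz1.le n) hn

open Filter in
open scoped ENNReal in
theorem growth_liminf (s : ℕ) :
    ENNReal.ofReal (((s : ℝ) + 1) * (s.factorial : ℝ) ^ ((1 : ℝ) / ((s : ℝ) + 1))) ≤
      liminf (fun n : ℕ => (W (s + 1) n : ℝ≥0∞) ^ ((1 : ℝ) / n)) atTop := by
  refine le_of_forall_lt fun a ha => ?_
  obtain ⟨b, hab, hb⟩ := exists_between ha
  refine lt_of_lt_of_le hab ?_
  have hbt : b ≠ ∞ := ne_top_of_lt hb
  set x : ℝ := b.toReal with hx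
  have hxb : ENNReal.ofReal x = b := ENNReal.ofReal_toReal hbt
  have h1 : x < ((s : ℝ) + 1) * (s.factorial : ℝ) ^ ((1 : ℝ) / ((s : ℝ) + 1)) := by
    rw [← hxb] at hb
    exact (ENNReal.ofReal_lt_ofReal_iff_of_nonneg ENNReal.toReal_nonneg).1 hb
  refine le_liminf_of_le (by isBoundedDefault) ?_
  filter_upwards [growth_real s x ENNReal.toReal_nonneg h1, eventually_gt_atTop 0] with n hn hn0
  rw [one_div, ENNReal.le_rpow_inv_iff (by exact_mod_cast hn0), ENNReal.rpow_natCast, ← hxb,
    ← ENNReal.ofReal_pow ENNReal.toReal_nonneg]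
  calc ENNReal.ofReal (x ^ n) ≤ ENNReal.ofReal (W (s + 1) n : ℝ) := ENNReal.ofReal_le_ofReal hn
    _ = (W (s + 1) n : ℝ≥0∞) := ENNReal.ofReal_natCast _

/-- `t ^ t ≤ 3 ^ t (t-1)!` -/
theorem third (s : ℕ) : (s + 1) ^ (s + 1) ≤ 3 ^ (s + 1) * s.factorial := by
  have h3 : ∀ n : ℕ, 100000 * (n + 2) ^ (n + 1) ≤ 271829 * (n + 1) ^ (n + 1) := by
    intro n
    have h1 : (100000 : ℝ) * ((n : ℝ) + 2) ^ (n + 1) ≤ 271829 * ((n : ℝ) + 1) ^ (n + 1) := by
      have h2 : (1 + 1 / ((n : ℝ) + 1)) ^ (n + 1) ≤ Real.exp 1 := by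
        have h4 := Real.add_one_le_exp (1 / ((n : ℝ) + 1))
        calc (1 + 1 / ((n : ℝ) + 1)) ^ (n + 1) ≤ (Real.exp (1 / ((n : ℝ) + 1))) ^ (n + 1) := by
              apply pow_le_pow_left₀ (by positivity)
              linarith
          _ = Real.exp 1 := by
              rw [← Real.exp_nat_mul]
              congr 1
              push_cast
              field_simp
      have h5 : Real.exp 1 < 2.71829 := lt_trans Real.exp_one_lt_d9 (by norm_num)
      have h6 : ((n : ℝ) + 2) = (1 + 1 / ((n : ℝ) + 1)) * ((n : ℝ) + 1) := by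
        field_simp; ring
      have h7 : (0 : ℝ) ≤ ((n : ℝ) + 1) ^ (n + 1) := by positivity
      rw [h6, mul_pow, ← mul_assoc]
      apply mul_le_mul_of_nonneg_right _ h7
      linarith
    exact_mod_cast h1
  have key : ∀ m : ℕ, (m + 10) ^ (m + 10) ≤ 3 ^ (m + 10) * (m + 9).factorial := by
    intro m
    induction m with
    | zero => decide
    | succ m ih =>
      have h4 := h3 (m + 9)
      have h5 : 100000 * (m + 1 + 10) ^ (m + 1 + 10) ≤
          100000 * (3 ^ (m + 1 + 10) * (m + 1 + 9).factorial) := by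
        calc 100000 * (m + 1 + 10) ^ (m + 1 + 10)
            = (m + 11) * (100000 * (m + 9 + 2) ^ (m + 9 + 1)) := by ring
          _ ≤ (m + 11) * (271829 * (m + 9 + 1) ^ (m + 9 + 1)) := Nat.mul_le_mul_left _ h4
          _ = (271829 * (m + 11)) * (m + 10) ^ (m + 10) := by ring
          _ ≤ (300000 * (m + 10)) * (m + 10) ^ (m + 10) := by
              apply Nat.mul_le_mul_right; omega
          _ ≤ (300000 * (m + 10)) * (3 ^ (m + 10) * (m + 9).factorial) := Nat.mul_le_mul_left _ ih
          _ = 100000 * (3 ^ (m + 1 + 10) * (m + 1 + 9).factorial) := by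
              have : (m + 1 + 9).factorial = (m + 10) * (m + 9).factorial := Nat.factorial_succ (m + 9)
              rw [this]; ring
      exact Nat.le_of_mul_le_mul_left h5 (by norm_num)
  match s with
  | 0 => decide
  | 1 => decide
  | 2 => decide
  | 3 => decide
  | 4 => decide
  | 5 => decide
  | 6 => decide
  | 7 => decide
  | 8 => decide
  | m + 9 => exact key m

end Pool.Agent.Helper39.StackGrow
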